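import Mathlib
import Pool.Agent.Lib.MP_034dba_lc.FDefs
import Pool.Agent.Lib.MP_df1441_gt.Z.Closure

section

/-!
# Codes, universal sets and the tile `BB` on the circle

Everything here is an explicit construction in ZFC.  The circle is `S1 = ℝ / ℤ`, the Cantor space
`Ct = ℕ → Bool`.
-/

set_option autoImplicit false

namespace Pool.Agent.Lib.MP_034dba_lc

/-- the circle -/
abbrev S1 : Type := UnitAddCircle

/-- the Cantor space -/
abbrev Ct : Type := ℕ → Bool

/-! ## Universal sets in the finite products -/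

/-- the point `1 / (4 h)` of the circle -/
noncomputable def aa (h : ℕ) : S1 := ((1 / (4 * h) : ℝ) : S1)

/-- the tolerance `1 / (40 h)` -/
noncomputable def ee (h : ℕ) : ℝ := 1 / (40 * h)

/-- the antisymmetric universal set: the first coordinate which is close to `a` or `-a` is close
to `a` -/
def CA (h : ℕ) : Set (Fin h → S1) :=
  {w | ∃ j, ‖w j - aa h‖ ≤ ee h ∧ ∀ l < j, 4 * ee h ≤ ‖w l + aa h‖}

/-- the coordinates of one block -/
abbrev Bl (h : ℕ) : Type := Fin h → Fin h → Fin h → S1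

/-- the four universal sets: all entries in `-CA`; all entries in `CA`; one row vanishes; one
column vanishes -/
def RR (h : ℕ) (ρ : Fin 4) : Set (Bl h) :=
  if ρ = 0 then {z | ∀ p q, (fun i => -z p q i) ∈ CA h}
  else if ρ = 1 then {z | ∀ p q, z p q ∈ CA h}
  else if ρ = 2 then {z | ∃ p, ∀ q i, ‖z p q i‖ ≤ ee h}
  else {z | ∃ q, ∀ p i, ‖z p q i‖ ≤ ee h}

/-! ## Digits -/

/-- the real number in `[0, 1]` with binary digits `b` -/
noncomputable def rv (b : Ct) : ℝ := ∑' i, if b i then (1 / 2 : ℝ) ^ (i + 1) else 0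

/-- the point of the circle with binary digits `b` -/
noncomputable def val (b : Ct) : S1 := ((rv b : ℝ) : S1)

/-! ## Blocks -/

/-- the number of points which the block `n` can handle -/
def hh (n : ℕ) : ℕ := 2 ^ n + n

/-- the exponents -/
def L (r : ℕ) : ℕ := (r + 9) ^ 2

/-- the slot of a coordinate of the block `n` -/
def slot (n p q i : ℕ) : ℕ := Nat.pair n (Nat.pair p (Nat.pair q i))

/-- the coordinates of `x` in the block `n` -/
def Th (n : ℕ) (x : S1) : Bl (hh n) := fun p q i => (2 ^ L (slot n p q i)) • x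

/-- the size at which a compact set must look like `2 ^ n` points for the block `n` -/
noncomputable def dl (n : ℕ) : ℝ :=
  ee (hh n) / 4 * (1 / 2) ^ L (slot n (hh n) (hh n) (hh n))

-- BEGIN D1

theorem D1_sep (S : Finset Ct) :
    ∃ m, ∀ c ∈ S, ∀ c' ∈ S, (∀ i < m, c i = c' i) → c = c' := by
  classical
  have h1 : ∀ p : Ct × Ct, ∃ m, (∀ i < m, p.1 i = p.2 i) → p.1 = p.2 := by
    intro p
    by_cases h : p.1 = p.2
    · exact ⟨0, fun _ => h⟩
    · obtain ⟨i, hi⟩ := Function.ne_iff.1 h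
      exact ⟨i + 1, fun h' => absurd (h' i (Nat.lt_succ_self i)) hi⟩
  choose f hf using h1
  refine ⟨(S ×ˢ S).sup f, fun c hc c' hc' h => hf (c, c') fun i hi => h i (hi.trans_le ?_)⟩
  exact Finset.le_sup (f := f) (Finset.mk_mem_product hc hc')

/-- Proof.  Let `e : ℕ → Σ m, ((Fin m → Bool) → Fin 4)` be a map which takes each value infinitely
often (the type is countable and nonempty: compose a surjection from `ℕ` with `Nat.unpair · |>.1`).
Put `ρ n c = (e n).2 (c restricted to (e n).1)` if `(e n).1 ≤ n`, and `0` otherwise.  Given a finite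
set `S` of codes choose `m` such that the restrictions to `m` of the members of `S` are different,
and a function on `Fin m → Bool` with the prescribed values. -/
theorem exists_rho : ∃ ρ : ℕ → Ct → Fin 4,
    (∀ n c c', (∀ i < n, c i = c' i) → ρ n c = ρ n c') ∧
    ∀ (S : Finset Ct) (g : Ct → Fin 4) (N : ℕ), ∃ n, N ≤ n ∧ ∀ c ∈ S, ρ n c = g c := by
  classical
  obtain ⟨s, hs⟩ := exists_surjective_nat (Σ m : ℕ, ((Fin m → Bool) → Fin 4))
  let e : ℕ → Σ m : ℕ, ((Fin m → Bool) → Fin 4) := fun n => s (Nat.unpair n).1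
  refine ⟨fun n c => if (e n).1 ≤ n then (e n).2 (fun i => c i) else 0, ?_, ?_⟩
  · intro n c c' h
    by_cases hn : (e n).1 ≤ n
    · simp only [if_pos hn]
      exact congrArg (e n).2 (funext fun i => h i (i.2.trans_le hn))
    · simp only [if_neg hn]
  · intro S g N
    obtain ⟨m, hm⟩ := D1_sep S
    let g' : (Fin m → Bool) → Fin 4 := fun u =>
      if h : ∃ c ∈ S, (fun i : Fin m => c i) = u then g h.choose else 0
    obtain ⟨k, hk⟩ := hs ⟨m, g'⟩
    refine ⟨Nat.pair k (max N m), (le_max_left _ _).trans (Nat.right_le_pair _ _),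
      fun c hc => ?_⟩
    have he : e (Nat.pair k (max N m)) = ⟨m, g'⟩ := by
      simp only [e, Nat.unpair_pair]
      exact hk
    have hle : (e (Nat.pair k (max N m))).1 ≤ Nat.pair k (max N m) := by
      rw [he]
      exact (le_max_right N m).trans (Nat.right_le_pair _ _)
    simp only [if_pos hle]
    have key : ∀ x : (Σ m : ℕ, ((Fin m → Bool) → Fin 4)), x = ⟨m, g'⟩ →
        x.2 (fun i => c i) = g c := by
      rintro _ rfl
      have hex : ∃ c' ∈ S, (fun i : Fin m => c' i) = fun i : Fin m => c i := ⟨c, hc, rfl⟩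
      change (if h : ∃ c' ∈ S, (fun i : Fin m => c' i) = (fun i : Fin m => c i) then
        g h.choose else 0) = g c
      rw [dif_pos hex]
      congr 1
      exact hm _ hex.choose_spec.1 _ hc fun i hi => congrFun hex.choose_spec.2 ⟨i, hi⟩
    exact key _ he

-- END D1

/-- the role of the code `c` in the block `n` -/
noncomputable def rho : ℕ → Ct → Fin 4 := exists_rho.choose

/-- the set of all `y` from which the code `c` can be read in the blocks from `m` on -/
def Dm (m : ℕ) (c : Ct) : Set S1 := {y | ∀ n, m ≤ n → Th n y ∈ RR (hh n) (rho n c)}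

/-- the point `t(c)` -/
noncomputable def tc (c : Ct) : S1 := val fun i => c (Nat.pair 0 i)

/-- the points `t_k(c)` -/
noncomputable def tk (k : ℕ) (c : Ct) : S1 := val fun i => c (Nat.pair (k + 2) i)

/-- the closed sets whose union contains all differences `t(c) - t_k(c)` -/
def CC (j : ℕ) : Set S1 :=
  {s | ∃ c k, k ≤ j ∧ tk k c - tc c ∈ Dm j c ∧ (s = tc c - tk k c ∨ s = tk k c - tc c)}

/-- the number of the string `b 0, …, b (l - 1)` -/
def cod (l : ℕ) (b : Ct) : ℕ := Encodable.encode ((List.range l).map b)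

/-- the compact set coded by `c` -/
def KK (c : Ct) : Set S1 :=
  {x | ∀ l, ∃ b : Ct, val b = x ∧ c (Nat.pair 1 (cod l b)) = true}

/-- its approximations -/
def Kl (l : ℕ) (c : Ct) : Set S1 :=
  {x | ∀ l' ≤ l, ∃ b : Ct, val b = x ∧ c (Nat.pair 1 (cod l' b)) = true}

/-- the codes for which the set of differences of `Kl l c` avoids `CC j` -/
def Gl (j l : ℕ) : Set Ct := {c | ∀ x ∈ Kl l c, ∀ x' ∈ Kl l c, x - x' ∉ CC j}

/-- the closed sets from which the tile is built -/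
def FF (j m : ℕ) : Set S1 := {y | ∃ c ∈ Gl j m, y ∈ Dm m c ∧ y + tc c ∈ KK c}

/-- the tile -/
def BB : Set S1 := ⋂ j, ⋃ m, FF j m

/-! ## Products of subsets of the Cantor space -/

/-- the product of the sets `A i` -/
def Bx {I : Type} (A : I → Set Ct) : Set (I → Ct) := {a | ∀ i, a i ∈ A i}

/-- all members of `A` have the same first `m` digits -/
def Sm (m : ℕ) (A : Set Ct) : Prop := ∀ x ∈ A, ∀ y ∈ A, ∀ i < m, x i = y i

/-- the nodes `σ`, `τ` have the same digits at the places `k < n` which belong to the coordinate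
`α` -/
def Ag {I : Type} (e : ℕ → I) (n : ℕ) (σ τ : Ct) (α : I) : Prop := ∀ k < n, e k = α → σ k = τ k

/-- A system of boxes `U σ`; at the stage `k` the coordinate `e k` was split, the node `σ` (only the
digits of `σ` below `n` matter) chooses the part `σ k`. -/
structure IsSys {I : Type} (e : ℕ → I) (n : ℕ) (U : Ct → I → Set Ct) : Prop where
  perf : ∀ σ α, Perfect (U σ α)
  ne : ∀ σ α, (U σ α).Nonempty
  loc : ∀ σ τ α, Ag e n σ τ α → U σ α = U τ α
  dis : ∀ σ τ α, ¬ Ag e n σ τ α → Disjoint (U σ α) (U τ α)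

/-- a system of open boxes -/
structure BS {I : Type} (e : ℕ → I) (n : ℕ) (U : Ct → I → Set Ct) : Prop extends IsSys e n U where
  opn : ∀ σ, IsOpen (Bx (U σ))

end Pool.Agent.Lib.MP_034dba_lc
end

section

set_option autoImplicit false

/-!
# Systems of boxes and their limits
-/

namespace Pool.Agent.Lib.MP_034dba_lc

-- BEGIN S1

theorem Perfect.inter_clopen {A N : Set Ct} (hA : Perfect A) (hN : IsClopen N) :
    Perfect (A ∩ N) := by
  refine ⟨hA.closed.inter hN.isClosed, ?_⟩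
  rw [Set.inter_comm]
  exact hA.acc.open_inter hN.isOpen

/-- cylinders are clopen -/
theorem S1_cyl (x : Ct) (n : ℕ) : IsClopen {y : Ct | ∀ i < n, y i = x i} := by
  have h : {y : Ct | ∀ i < n, y i = x i} = ⋂ i ∈ Finset.range n, {y : Ct | y i = x i} := by
    ext y
    simp
  rw [h]
  refine isClopen_biInter_finset fun i _ => ?_
  exact (isClopen_discrete {x i}).preimage (continuous_apply i)

/-- Proof: take two different points of `A` which have the same first `m` digits (`A` has no isolated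
points; take the cylinder of a point with `m` digits), let `j` be a place where they differ, and let
`N b` be the cylinder of the respective point with `max m (j + 1)` digits. -/
theorem exists_split {A : Set Ct} (hA : Perfect A) (hne : A.Nonempty) (m : ℕ) :
    ∃ N : Bool → Set Ct, (∀ b, IsClopen (N b)) ∧ (∀ b, (A ∩ N b).Nonempty) ∧
      Disjoint (A ∩ N false) (A ∩ N true) ∧ ∀ b, Sm m (A ∩ N b) := by
  obtain ⟨x, hx⟩ := hne
  obtain ⟨y, ⟨hyU, hy⟩, hyx⟩ := preperfect_iff_nhds.1 hA.acc x hx {y : Ct | ∀ i < m, y i = x i}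
    ((S1_cyl x m).isOpen.mem_nhds fun _ _ => rfl)
  obtain ⟨j, hj⟩ := Function.ne_iff.1 hyx
  let z : Bool → Ct := fun b => if b then y else x
  have hzA : ∀ b, z b ∈ A := by
    intro b
    cases b
    · exact hx
    · exact hy
  refine ⟨fun b => {w : Ct | ∀ i < max m (j + 1), w i = z b i}, fun b => S1_cyl _ _,
    fun b => ⟨z b, hzA b, fun _ _ => rfl⟩, ?_, ?_⟩
  · rw [Set.disjoint_left]
    rintro w ⟨-, h1⟩ ⟨-, h2⟩
    have h3 : w j = x j := h1 j (lt_max_of_lt_right (Nat.lt_succ_self j))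
    have h4 : w j = y j := h2 j (lt_max_of_lt_right (Nat.lt_succ_self j))
    exact hj (h4.symm.trans h3)
  · rintro b v ⟨-, hv⟩ w ⟨-, hw⟩ i hi
    exact (hv i (lt_max_of_lt_left hi)).trans (hw i (lt_max_of_lt_left hi)).symm

-- END S1

/-- the infinite extension of a finite node -/
def nd {n : ℕ} (s : Fin n → Bool) : Ct := fun k => if h : k < n then s ⟨k, h⟩ else false

-- BEGIN S7

theorem exists_nd (n : ℕ) (σ : Ct) : ∃ s : Fin n → Bool, ∀ k < n, σ k = nd s k :=
  ⟨fun i => σ i, fun k hk => by simp [nd, hk]⟩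

theorem IsSys.eq_nd {I : Type} {e : ℕ → I} {n : ℕ} {U : Ct → I → Set Ct} (h : IsSys e n U)
    {σ τ : Ct} (hk : ∀ k < n, σ k = τ k) : U σ = U τ :=
  funext fun α => h.loc σ τ α fun k hkn _ => hk k hkn

-- END S7

-- BEGIN S2

/-- Splitting the coordinate `e n`.  Proof: let `N A` be chosen by `exists_split` for each perfect
nonempty `A`, and put `U' σ α = U σ α ∩ N (U σ α) (σ n)` for `α = e n`, `U' σ α = U σ α` otherwise.
`Ag e (n + 1) σ τ α ↔ Ag e n σ τ α ∧ (e n = α → σ n = τ n)`. -/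
theorem IsSys.split {I : Type} {e : ℕ → I} {n : ℕ} {U : Ct → I → Set Ct} (h : IsSys e n U)
    (m : ℕ) : ∃ U' : Ct → I → Set Ct, IsSys e (n + 1) U' ∧ (∀ σ α, α ≠ e n → U' σ α = U σ α) ∧
      ∀ σ, Sm m (U' σ (e n)) ∧ ∃ N, IsClopen N ∧ U' σ (e n) = U σ (e n) ∩ N := by
  classical
  have hsp : ∀ A : Set Ct, ∃ N : Bool → Set Ct, Perfect A → A.Nonempty →
      (∀ b, IsClopen (N b)) ∧ (∀ b, (A ∩ N b).Nonempty) ∧
      Disjoint (A ∩ N false) (A ∩ N true) ∧ ∀ b, Sm m (A ∩ N b) := by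
    intro A
    by_cases hA : Perfect A ∧ A.Nonempty
    · obtain ⟨N, hN⟩ := exists_split hA.1 hA.2 m
      exact ⟨N, fun _ _ => hN⟩
    · exact ⟨fun _ => ∅, fun h1 h2 => absurd ⟨h1, h2⟩ hA⟩
  choose N hN using hsp
  have hN' : ∀ σ, (∀ b, IsClopen (N (U σ (e n)) b)) ∧
      (∀ b, (U σ (e n) ∩ N (U σ (e n)) b).Nonempty) ∧
      Disjoint (U σ (e n) ∩ N (U σ (e n)) false) (U σ (e n) ∩ N (U σ (e n)) true) ∧
      ∀ b, Sm m (U σ (e n) ∩ N (U σ (e n)) b) := fun σ => hN _ (h.perf σ _) (h.ne σ _)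
  set U' : Ct → I → Set Ct := fun σ α => if α = e n then U σ α ∩ N (U σ α) (σ n) else U σ α
    with hU'
  have hpos : ∀ σ, U' σ (e n) = U σ (e n) ∩ N (U σ (e n)) (σ n) := fun σ => by
    simp [hU']
  have hneg : ∀ σ α, α ≠ e n → U' σ α = U σ α := fun σ α hα => by
    simp [hU', hα]
  have hAg : ∀ σ τ α, Ag e (n + 1) σ τ α ↔ Ag e n σ τ α ∧ (e n = α → σ n = τ n) := by
    intro σ τ α
    constructor
    · intro hh
      exact ⟨fun k hk => hh k (by omega), fun he => hh n (by omega) he⟩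
    · rintro ⟨h1, h2⟩ k hk hek
      rcases Nat.lt_or_ge k n with hkn | hkn
      · exact h1 k hkn hek
      · have : k = n := by omega
        subst this
        exact h2 hek
  refine ⟨U', ⟨?_, ?_, ?_, ?_⟩, hneg, ?_⟩
  · intro σ α
    by_cases hα : α = e n
    · subst hα
      rw [hpos]
      exact Perfect.inter_clopen (h.perf σ _) ((hN' σ).1 _)
    · rw [hneg σ α hα]
      exact h.perf σ α
  · intro σ α
    by_cases hα : α = e n
    · subst hα
      rw [hpos]
      exact (hN' σ).2.1 _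
    · rw [hneg σ α hα]
      exact h.ne σ α
  · intro σ τ α hστ
    rw [hAg] at hστ
    have hU : U σ α = U τ α := h.loc σ τ α hστ.1
    by_cases hα : α = e n
    · subst hα
      rw [hpos, hpos, hU, hστ.2 rfl]
    · rw [hneg σ α hα, hneg τ α hα, hU]
  · intro σ τ α hστ
    rw [hAg] at hστ
    have hsub : ∀ σ, U' σ α ⊆ U σ α := by
      intro σ
      by_cases hα : α = e n
      · subst hα
        rw [hpos]
        exact Set.inter_subset_left
      · rw [hneg σ α hα]
    by_cases hag : Ag e n σ τ α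
    · have h2 : ¬ (e n = α → σ n = τ n) := fun h2 => hστ ⟨hag, h2⟩
      push Not at h2
      obtain ⟨h3, h4⟩ := h2
      subst h3
      have hU : U σ (e n) = U τ (e n) := h.loc σ τ _ hag
      rw [hpos, hpos, ← hU]
      have hd := (hN' σ).2.2.1
      cases hσ : σ n <;> cases hτ : τ n
      · exact absurd (hσ.trans hτ.symm) h4
      · exact hd
      · exact hd.symm
      · exact absurd (hσ.trans hτ.symm) h4
    · exact (h.dis σ τ α hag).mono (hsub σ) (hsub τ)
  · intro σ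
    rw [hpos]
    exact ⟨(hN' σ).2.2.2 _, _, (hN' σ).1 _, rfl⟩

-- END S2

-- BEGIN S3

/-- only finitely many sets occur -/
theorem IsSys.finite {I : Type} {e : ℕ → I} {n : ℕ} {U : Ct → I → Set Ct} (h : IsSys e n U)
    (α : I) : {A : Set Ct | ∃ σ, A = U σ α}.Finite := by
  refine (Set.finite_range (fun s : Fin n → Bool => U (nd s) α)).subset ?_
  rintro A ⟨σ, rfl⟩
  obtain ⟨s, hs⟩ := exists_nd n σ
  exact ⟨s, by rw [h.eq_nd hs]⟩

/-- Proof: the union of the `U τ α` with `¬ Ag e n σ τ α` is a finite union of closed sets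
(`IsSys.finite`) and `q ∩ U σ α` is `q` intersected with its complement `W`.
`Preperfect.open_inter`. -/
theorem IsSys.inter_perfect {I : Type} {e : ℕ → I} {n : ℕ} {U : Ct → I → Set Ct}
    (h : IsSys e n U) {α : I} {q : Set Ct} (hq : Perfect q) (hsub : q ⊆ ⋃ τ, U τ α) (σ : Ct) :
    Perfect (q ∩ U σ α) ∧ ∃ W, IsOpen W ∧ q ∩ W = q ∩ U σ α := by
  have hfin : {A : Set Ct | ∃ τ, ¬ Ag e n σ τ α ∧ A = U τ α}.Finite :=
    (h.finite α).subset fun A ⟨τ, _, hA⟩ => ⟨τ, hA⟩
  have hcl : IsClosed (⋃₀ {A : Set Ct | ∃ τ, ¬ Ag e n σ τ α ∧ A = U τ α}) := by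
    rw [Set.sUnion_eq_biUnion]
    refine hfin.isClosed_biUnion ?_
    rintro A ⟨τ, _, rfl⟩
    exact (h.perf τ α).closed
  have heq : q ∩ (⋃₀ {A : Set Ct | ∃ τ, ¬ Ag e n σ τ α ∧ A = U τ α})ᶜ = q ∩ U σ α := by
    ext x
    constructor
    · rintro ⟨hx, hx'⟩
      refine ⟨hx, ?_⟩
      obtain ⟨τ, hτ⟩ := Set.mem_iUnion.1 (hsub hx)
      by_cases hag : Ag e n σ τ α
      · rw [h.loc σ τ α hag]
        exact hτ
      · exact absurd ⟨_, ⟨τ, hag, rfl⟩, hτ⟩ hx'
    · rintro ⟨hx, hx'⟩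
      refine ⟨hx, ?_⟩
      rintro ⟨A, ⟨τ, hag, rfl⟩, hA⟩
      exact Set.disjoint_left.1 (h.dis σ τ α hag) hx' hA
  refine ⟨⟨hq.closed.inter (h.perf σ α).closed, ?_⟩, _, hcl.isOpen_compl, heq⟩
  rw [← heq, Set.inter_comm]
  exact hq.acc.open_inter hcl.isOpen_compl

theorem IsSys.isClosed_iUnion {I : Type} {e : ℕ → I} {n : ℕ} {U : Ct → I → Set Ct}
    (h : IsSys e n U) (α : I) : IsClosed (⋃ τ, U τ α) := by
  have heq : (⋃ τ, U τ α) = ⋃₀ {A : Set Ct | ∃ σ, A = U σ α} := by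
    ext x
    constructor
    · intro hx
      obtain ⟨τ, hτ⟩ := Set.mem_iUnion.1 hx
      exact ⟨_, ⟨τ, rfl⟩, hτ⟩
    · rintro ⟨A, ⟨τ, rfl⟩, hA⟩
      exact Set.mem_iUnion.2 ⟨τ, hA⟩
  rw [heq]
  rw [Set.sUnion_eq_biUnion]
  refine (h.finite α).isClosed_biUnion ?_
  rintro A ⟨τ, rfl⟩
  exact (h.perf τ α).closed

-- END S3

-- BEGIN S4

theorem S4_anti {I : Type} {U : ℕ → Ct → I → Set Ct} (hm : ∀ n σ α, U (n + 1) σ α ⊆ U n σ α)
    (σ : Ct) (α : I) {m n : ℕ} (hmn : m ≤ n) : U n σ α ⊆ U m σ α := by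
  induction n, hmn using Nat.le_induction with
  | base => exact subset_rfl
  | succ n _ ih => exact (hm n σ α).trans ih

/-- Branches.  Proof: for `k` let `σ k` be the digit `τ k` of a node `τ` with
`a (e k) ∈ U (k + 1) τ (e k)`.  For each `n`, `α` there is a node `τ` with `a α ∈ U n τ α`; for `k < n`
with `e k = α` we have `a α ∈ U (k + 1) τ α` (monotone), so `τ k = σ k` by `IsSys.dis`; hence
`Ag e n σ τ α` and `a α ∈ U n τ α = U n σ α`. -/
theorem limit_branch {I : Type} {e : ℕ → I} {U : ℕ → Ct → I → Set Ct}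
    (hS : ∀ n, IsSys e n (U n)) (hm : ∀ n σ α, U (n + 1) σ α ⊆ U n σ α) (a : I → Ct)
    (ha : ∀ α, a α ∈ ⋂ n, ⋃ σ, U n σ α) : ∃ σ, ∀ n α, a α ∈ U n σ α := by
  have ha' : ∀ α n, ∃ σ, a α ∈ U n σ α := fun α n => Set.mem_iUnion.1 (Set.mem_iInter.1 (ha α) n)
  choose τ hτ using ha'
  refine ⟨fun k => τ (e k) (k + 1) k, fun n α => ?_⟩
  have hag : Ag e n (fun k => τ (e k) (k + 1) k) (τ α n) α := by
    intro k hk hek
    have h1 : a α ∈ U (k + 1) (τ α n) α := S4_anti hm (τ α n) α (Nat.succ_le_of_lt hk) (hτ α n)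
    have h2 : a α ∈ U (k + 1) (τ α (k + 1)) α := hτ α (k + 1)
    have h3 : Ag e (k + 1) (τ α (k + 1)) (τ α n) α := by
      by_contra hcon
      exact Set.disjoint_left.1 ((hS (k + 1)).dis _ _ _ hcon) h2 h1
    have h4 := h3 k (Nat.lt_succ_self k) hek
    change τ (e k) (k + 1) k = τ α n k
    rw [hek]
    exact h4
  rw [(hS n).loc _ _ _ hag]
  exact hτ α n

/-- each node contains points of the limit (compactness of `⋂ n, U n σ α`) -/
theorem limit_nonempty {I : Type} {e : ℕ → I} {U : ℕ → Ct → I → Set Ct}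
    (hS : ∀ n, IsSys e n (U n)) (hm : ∀ n σ α, U (n + 1) σ α ⊆ U n σ α) (σ : Ct) (α : I) :
    (⋂ n, U n σ α).Nonempty :=
  IsCompact.nonempty_iInter_of_sequence_nonempty_isCompact_isClosed (fun n => U n σ α)
    (fun n => hm n σ α) (fun n => (hS n).ne σ α) ((hS 0).perf σ α).closed.isCompact
    (fun n => ((hS n).perf σ α).closed)

theorem S4_nhds {x : Ct} {V : Set Ct} (hV : V ∈ nhds x) :
    ∃ m, ∀ y : Ct, (∀ i < m, y i = x i) → y ∈ V := by
  obtain ⟨W, hWV, hWo, hxW⟩ := mem_nhds_iff.1 hV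
  obtain ⟨s, u, hu, hsub⟩ := isOpen_pi_iff.1 hWo x hxW
  obtain ⟨m, hm⟩ := s.exists_nat_subset_range
  refine ⟨m, fun y hy => hWV (hsub fun i hi => ?_)⟩
  rw [hy i (Finset.mem_range.1 (hm hi))]
  exact (hu i hi).2

/-- The limit is perfect.  Proof: closed by `IsSys.isClosed_iUnion`.  If `x` is in the limit, `m` is
given, let `n ≥ m` with `e n = α`; `x ∈ U (n + 1) σ α` for some `σ`, all points of this set have the
same first `n` digits.  Let `n' > n` with `e n' = α`; for the branch `σ` of `x` (`limit_branch`; or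
argue for the single coordinate `α`) the node `σ'` which differs from `σ` exactly at the place `n'`
has `U (n' + 1) σ' α ⊆ U (n + 1) σ α` disjoint from `U (n' + 1) σ α ∋ x`, and it contains a point of
the limit (`limit_nonempty`).  So each neighbourhood of `x` contains another point of the limit. -/
theorem limit_perfect {I : Type} {e : ℕ → I} {U : ℕ → Ct → I → Set Ct}
    (hS : ∀ n, IsSys e n (U n)) (hm : ∀ n σ α, U (n + 1) σ α ⊆ U n σ α)
    (hs : ∀ n σ, Sm n (U (n + 1) σ (e n))) {α : I} (hα : ∀ N, ∃ n, N ≤ n ∧ e n = α) :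
    Perfect (⋂ n, ⋃ σ, U n σ α) ∧ (⋂ n, ⋃ σ, U n σ α).Nonempty := by
  have hsub : ∀ σ, (⋂ n, U n σ α) ⊆ ⋂ n, ⋃ σ, U n σ α := fun σ =>
    Set.iInter_mono fun n => Set.subset_iUnion (fun σ => U n σ α) σ
  refine ⟨⟨isClosed_iInter fun n => (hS n).isClosed_iUnion α, ?_⟩,
    (limit_nonempty hS hm (fun _ => false) α).mono (hsub _)⟩
  rw [preperfect_iff_nhds]
  intro x hx V hV
  obtain ⟨m, hmV⟩ := S4_nhds hV
  obtain ⟨n, hmn, hen⟩ := hα m
  obtain ⟨n', hnn', hen'⟩ := hα (n + 1)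
  obtain ⟨σ, hσ⟩ := Set.mem_iUnion.1 (Set.mem_iInter.1 hx (n' + 1))
  let σ' : Ct := Function.update σ n' (!σ n')
  obtain ⟨y, hy⟩ := limit_nonempty hS hm σ' α
  have hy1 : y ∈ U (n' + 1) σ' α := Set.mem_iInter.1 hy (n' + 1)
  have hag : Ag e n' σ' σ α := by
    intro k hk _
    exact Function.update_of_ne (Nat.ne_of_lt hk) _ _
  have hy2 : y ∈ U (n + 1) σ α := by
    have h1 : y ∈ U n' σ' α := hm n' σ' α hy1
    rw [(hS n').loc _ _ _ hag] at h1
    exact S4_anti hm σ α hnn' h1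
  have hx2 : x ∈ U (n + 1) σ α := S4_anti hm σ α (hnn'.trans (Nat.le_succ n')) hσ
  have hnag : ¬ Ag e (n' + 1) σ σ' α := by
    intro hcon
    have h1 := hcon n' (Nat.lt_succ_self n') hen'
    have h2 : σ' n' = !σ n' := Function.update_self _ _ _
    rw [h2] at h1
    cases hb : σ n' <;> rw [hb] at h1 <;> exact absurd h1 (by decide)
  refine ⟨y, ⟨hmV y fun i hi => ?_, hsub σ' hy⟩, ?_⟩
  · have h1 := hs n σ
    rw [hen] at h1
    exact h1 y hy2 x hx2 i (lt_of_lt_of_le hi hmn)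
  · rintro rfl
    exact Set.disjoint_left.1 ((hS (n' + 1)).dis _ _ _ hnag) hσ hy1

-- END S4

-- BEGIN S5

/-- basic clopen neighbourhoods -/
theorem S5_basic {I : Type} {V : Set (I → Ct)} (hV : IsOpen V) {a : I → Ct} (ha : a ∈ V) :
    ∃ C : I → Set Ct, (∀ α, IsClopen (C α)) ∧ (∀ α, a α ∈ C α) ∧
      {α | C α ≠ Set.univ}.Finite ∧ Bx C ⊆ V := by
  classical
  obtain ⟨F, u, hu, hF⟩ := isOpen_pi_iff.1 hV a ha
  have h1 : ∀ α : I, ∃ N : Set Ct, IsClopen N ∧ a α ∈ N ∧ (α ∈ F → N ⊆ u α) ∧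
      (α ∉ F → N = Set.univ) := by
    intro α
    by_cases hα : α ∈ F
    · obtain ⟨N, hN, haN, hNu⟩ := compact_exists_isClopen_in_isOpen (hu α hα).1 (hu α hα).2
      exact ⟨N, hN, haN, fun _ => hNu, fun h => absurd hα h⟩
    · exact ⟨Set.univ, isClopen_univ, Set.mem_univ _, fun h => absurd h hα, fun _ => rfl⟩
  choose C hC haC hCu hCn using h1
  refine ⟨C, hC, haC, F.finite_toSet.subset fun α hα => ?_, fun x hx => hF fun α hα => ?_⟩
  · by_contra h
    exact hα (hCn α h)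
  · exact hCu α hα (hx α)

theorem S5_symm {I : Type} {e : ℕ → I} {n : ℕ} {σ τ : Ct} {α : I} (h : Ag e n σ τ α) :
    Ag e n τ σ α := fun k hk hα => (h k hk hα).symm

theorem S5_trans {I : Type} {e : ℕ → I} {n : ℕ} {σ τ ρ : Ct} {α : I} (h : Ag e n σ τ α)
    (h' : Ag e n τ ρ α) : Ag e n σ ρ α := fun k hk hα => (h k hk hα).trans (h' k hk hα)

/-- Shrinking a system of open boxes around two points.  Proof: `V` and `W` contain basic open
neighbourhoods of `a`, `b` given by clopen cylinders at finitely many coordinates; intersect `U ρ α`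
with the cylinder of `a α` if `Ag e n ρ σ α`, with the cylinder of `b α` if `Ag e n ρ τ α` (both
conditions together imply `Ag e n σ τ α`, so `a α = b α`; use the intersection of the two cylinders
in this case), and do not change `U ρ α` otherwise.  The new sets are perfect
(`Perfect.inter_clopen`), nonempty, and the boxes are open since only finitely many coordinates
are changed, by clopen sets. -/
theorem shrink_pair {I : Type} {e : ℕ → I} {n : ℕ} {U : Ct → I → Set Ct} (hU : BS e n U)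
    (σ τ : Ct) (a b : I → Ct) (ha : a ∈ Bx (U σ)) (hb : b ∈ Bx (U τ))
    (hab : ∀ α, Ag e n σ τ α → a α = b α) {V W : Set (I → Ct)} (hV : IsOpen V) (hW : IsOpen W)
    (haV : a ∈ V) (hbW : b ∈ W) : ∃ U' : Ct → I → Set Ct, BS e n U' ∧
      (∀ ρ α, U' ρ α ⊆ U ρ α) ∧ Bx (U' σ) ⊆ V ∧ Bx (U' τ) ⊆ W := by
  classical
  obtain ⟨C, hC, haC, hCf, hCV⟩ := S5_basic hV haV
  obtain ⟨D, hD, hbD, hDf, hDW⟩ := S5_basic hW hbW
  let N : Ct → I → Set Ct := fun ρ α =>
    (if Ag e n ρ σ α then C α else Set.univ) ∩ (if Ag e n ρ τ α then D α else Set.univ)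
  have hN : ∀ ρ α, IsClopen (N ρ α) := by
    intro ρ α
    refine IsClopen.inter ?_ ?_
    · split_ifs
      · exact hC α
      · exact isClopen_univ
    · split_ifs
      · exact hD α
      · exact isClopen_univ
  have hNu : ∀ ρ α, α ∉ hCf.toFinset ∪ hDf.toFinset → N ρ α = Set.univ := by
    intro ρ α hα
    rw [Finset.mem_union, not_or, Set.Finite.mem_toFinset, Set.Finite.mem_toFinset] at hα
    have h1 : C α = Set.univ := not_not.1 hα.1
    have h2 : D α = Set.univ := not_not.1 hα.2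
    change (if Ag e n ρ σ α then C α else Set.univ) ∩
      (if Ag e n ρ τ α then D α else Set.univ) = Set.univ
    rw [h1, h2, ite_self, ite_self, Set.univ_inter]
  have hNloc : ∀ ρ ρ' α, Ag e n ρ ρ' α → N ρ α = N ρ' α := by
    intro ρ ρ' α h
    have h1 : Ag e n ρ σ α ↔ Ag e n ρ' σ α :=
      ⟨fun h2 => S5_trans (S5_symm h) h2, fun h2 => S5_trans h h2⟩
    have h2 : Ag e n ρ τ α ↔ Ag e n ρ' τ α :=
      ⟨fun h2 => S5_trans (S5_symm h) h2, fun h2 => S5_trans h h2⟩
    simp only [N, h1, h2]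
  have hne : ∀ ρ α, (U ρ α ∩ N ρ α).Nonempty := by
    intro ρ α
    by_cases h1 : Ag e n ρ σ α
    · refine ⟨a α, ?_, ?_, ?_⟩
      · rw [hU.loc ρ σ α h1]
        exact ha α
      · rw [if_pos h1]
        exact haC α
      · by_cases h2 : Ag e n ρ τ α
        · rw [if_pos h2, hab α (S5_trans (S5_symm h1) h2)]
          exact hbD α
        · rw [if_neg h2]
          exact Set.mem_univ _
    · by_cases h2 : Ag e n ρ τ α
      · refine ⟨b α, ?_, ?_, ?_⟩
        · rw [hU.loc ρ τ α h2]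
          exact hb α
        · rw [if_neg h1]
          exact Set.mem_univ _
        · rw [if_pos h2]
          exact hbD α
      · obtain ⟨x, hx⟩ := hU.ne ρ α
        refine ⟨x, hx, ?_, ?_⟩
        · rw [if_neg h1]
          exact Set.mem_univ _
        · rw [if_neg h2]
          exact Set.mem_univ _
  refine ⟨fun ρ α => U ρ α ∩ N ρ α, ⟨⟨fun ρ α => Perfect.inter_clopen (hU.perf ρ α) (hN ρ α),
    hne, fun ρ ρ' α h => ?_, fun ρ ρ' α h => ?_⟩, fun ρ => ?_⟩,
    fun ρ α => Set.inter_subset_left, fun x hx => hCV fun α => ?_, fun x hx => hDW fun α => ?_⟩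
  · rw [hU.loc ρ ρ' α h, hNloc ρ ρ' α h]
  · exact (hU.dis ρ ρ' α h).mono Set.inter_subset_left Set.inter_subset_left
  · have h1 : Bx (fun α => U ρ α ∩ N ρ α) =
        Bx (U ρ) ∩ ⋂ α ∈ hCf.toFinset ∪ hDf.toFinset, {x : I → Ct | x α ∈ N ρ α} := by
      ext x
      constructor
      · intro hx
        refine ⟨fun α => (hx α).1, ?_⟩
        rw [Set.mem_iInter₂]
        intro α _
        exact (hx α).2
      · rintro ⟨hx1, hx2⟩ α
        refine ⟨hx1 α, ?_⟩
        by_cases hα : α ∈ hCf.toFinset ∪ hDf.toFinset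
        · exact (Set.mem_iInter₂.1 hx2) α hα
        · rw [hNu ρ α hα]
          exact Set.mem_univ _
    rw [h1]
    refine (hU.opn ρ).inter (isOpen_biInter_finset fun α _ => ?_)
    exact (hN ρ α).isOpen.preimage (continuous_apply α)
  · have h1 := (hx α).2.1
    have h2 : Ag e n σ σ α := fun k _ _ => rfl
    rw [if_pos h2] at h1
    exact h1
  · have h1 := (hx α).2.2
    have h2 : Ag e n τ τ α := fun k _ _ => rfl
    rw [if_pos h2] at h1
    exact h1

-- END S5

-- BEGIN S6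

/-- Finite iteration.  Proof: induction on a finite set of indices. -/
theorem iterate {I : Type} {e : ℕ → I} {n : ℕ} {ι : Type} [Finite ι]
    (R : ι → (Ct → I → Set Ct) → Prop) {U : Ct → I → Set Ct} (hU : BS e n U)
    (hher : ∀ i V V', BS e n V → BS e n V' → (∀ σ α, V' σ α ⊆ V σ α) → R i V → R i V')
    (hach : ∀ i V, BS e n V → (∀ σ α, V σ α ⊆ U σ α) →
      ∃ V', BS e n V' ∧ (∀ σ α, V' σ α ⊆ V σ α) ∧ R i V') :
    ∃ U', BS e n U' ∧ (∀ σ α, U' σ α ⊆ U σ α) ∧ ∀ i, R i U' := by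
  classical
  have := Fintype.ofFinite ι
  suffices h : ∀ s : Finset ι, ∃ U', BS e n U' ∧ (∀ σ α, U' σ α ⊆ U σ α) ∧ ∀ i ∈ s, R i U' by
    obtain ⟨U', h1, h2, h3⟩ := h Finset.univ
    exact ⟨U', h1, h2, fun i => h3 i (Finset.mem_univ i)⟩
  intro s
  induction s using Finset.induction_on with
  | empty => exact ⟨U, hU, fun _ _ => subset_rfl, fun i hi => absurd hi (Finset.notMem_empty i)⟩
  | insert i s hi ih =>
    obtain ⟨V, h1, h2, h3⟩ := ih
    obtain ⟨V', h4, h5, h6⟩ := hach i V h1 h2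
    refine ⟨V', h4, fun σ α => (h5 σ α).trans (h2 σ α), fun k hk => ?_⟩
    rcases Finset.mem_insert.1 hk with rfl | hk
    · exact h6
    · exact hher k V V' h1 h4 h5 (h3 k hk)

-- END S6

end Pool.Agent.Lib.MP_034dba_lc
end

section

set_option autoImplicit false

/-!
# The countable support product of Sacks forcing
-/

namespace Pool.Agent.Lib.MP_034dba_lc

/-- The conditions: families of nonempty perfect subsets of the Cantor space, only countably many of
which are different from the whole space. -/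
@[ext]
structure Cond (I : Type) where
  s : I → Set Ct
  perf : ∀ α, Perfect (s α)
  ne : ∀ α, (s α).Nonempty
  cnt : {α | s α ≠ Set.univ}.Countable

instance (I : Type) : Preorder (Cond I) where
  le q p := ∀ α, q.s α ⊆ p.s α
  le_refl _ _ := subset_rfl
  le_trans _ _ _ h₁ h₂ α := (h₁ α).trans (h₂ α)

variable {I : Type}

theorem Cond.le_def {q p : Cond I} : q ≤ p ↔ ∀ α, q.s α ⊆ p.s α := Iff.rfl

-- BEGIN P1

theorem perfect_univ : Perfect (Set.univ : Set Ct) := by
  refine ⟨isClosed_univ, ?_⟩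
  rw [preperfect_iff_nhds]
  intro x _ V hV
  obtain ⟨W, hWV, hWo, hxW⟩ := mem_nhds_iff.1 hV
  obtain ⟨s, u, hu, hsub⟩ := isOpen_pi_iff.1 hWo x hxW
  obtain ⟨m, hm⟩ := s.exists_nat_subset_range
  refine ⟨Function.update x m (!x m), ⟨hWV (hsub fun i hi => ?_), Set.mem_univ _⟩, ?_⟩
  · have h1 : i < m := Finset.mem_range.1 (hm hi)
    rw [Function.update_of_ne (Nat.ne_of_lt h1)]
    exact (hu i hi).2
  · intro h
    have h1 := congrFun h m
    rw [Function.update_self] at h1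
    cases hb : x m <;> rw [hb] at h1 <;> exact absurd h1 (by decide)

theorem exists_cond (I : Type) : ∃ p : Cond I, ∀ α, p.s α = Set.univ :=
  ⟨⟨fun _ => Set.univ, fun _ => perfect_univ, fun _ => Set.univ_nonempty, by
    have h : {α : I | (Set.univ : Set Ct) ≠ Set.univ} = ∅ := by
      ext α
      simp
    rw [h]
    exact Set.countable_empty⟩, fun _ => rfl⟩

theorem Cond.bx_nonempty (p : Cond I) : (Bx p.s).Nonempty :=
  ⟨fun α => (p.ne α).choose, fun α => (p.ne α).choose_spec⟩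

theorem P1_bx (A : I → Set Ct) : Bx A = Set.univ.pi A := by
  ext a
  simp [Bx]

theorem Cond.isClosed_bx (p : Cond I) : IsClosed (Bx p.s) := by
  rw [P1_bx]
  exact isClosed_set_pi fun α _ => (p.perf α).closed

theorem Cond.isCompact_bx (p : Cond I) : IsCompact (Bx p.s) := p.isClosed_bx.isCompact

theorem Cond.bx_subset {q p : Cond I} (h : q ≤ p) : Bx q.s ⊆ Bx p.s :=
  fun _ ha α => h α (ha α)

/-- `Perfect.inter_clopen` -/
theorem Cond.exists_inter (p : Cond I) (α : I) {N : Set Ct} (hN : IsClopen N)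
    (h : (p.s α ∩ N).Nonempty) :
    ∃ q ≤ p, q.s α = p.s α ∩ N ∧ ∀ β, β ≠ α → q.s β = p.s β := by
  classical
  refine ⟨⟨Function.update p.s α (p.s α ∩ N), fun β => ?_, fun β => ?_, ?_⟩, fun β => ?_, ?_,
    fun β hβ => ?_⟩
  · by_cases hβ : β = α
    · subst hβ
      rw [Function.update_self]
      exact Perfect.inter_clopen (p.perf β) hN
    · rw [Function.update_of_ne hβ]
      exact p.perf β
  · by_cases hβ : β = α
    · subst hβ
      rw [Function.update_self]
      exact h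
    · rw [Function.update_of_ne hβ]
      exact p.ne β
  · refine (p.cnt.union (Set.countable_singleton α)).mono fun β hβ => ?_
    by_cases hβα : β = α
    · exact Or.inr hβα
    · left
      have h1 : Function.update p.s α (p.s α ∩ N) β ≠ Set.univ := hβ
      rw [Function.update_of_ne hβα] at h1
      exact h1
  · change Function.update p.s α (p.s α ∩ N) β ⊆ p.s β
    by_cases hβ : β = α
    · subst hβ
      rw [Function.update_self]
      exact Set.inter_subset_left
    · rw [Function.update_of_ne hβ]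
  · change Function.update p.s α (p.s α ∩ N) α = _
    rw [Function.update_self]
  · change Function.update p.s α (p.s α ∩ N) β = _
    rw [Function.update_of_ne hβ]

-- END P1

-- BEGIN P2

/-- Proof: `W` contains a basic neighbourhood of `a`, given by clopen cylinders at finitely many
coordinates; intersect with them. -/
theorem Cond.exists_le_of_open (p : Cond I) {W : Set (I → Ct)} (hW : IsOpen W) {a : I → Ct}
    (ha : a ∈ Bx p.s) (haW : a ∈ W) : ∃ q ≤ p, a ∈ Bx q.s ∧ Bx q.s ⊆ W := by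
  classical
  obtain ⟨J, u, hu, hJW⟩ := isOpen_pi_iff.1 hW a haW
  have hN : ∀ i ∈ J, ∃ N : Set Ct, IsClopen N ∧ a i ∈ N ∧ N ⊆ u i := fun i hi =>
    compact_exists_isClopen_in_isOpen (hu i hi).1 (hu i hi).2
  have key : ∀ F : Finset I, F ⊆ J → ∃ q ≤ p, a ∈ Bx q.s ∧ ∀ i ∈ F, q.s i ⊆ u i := by
    intro F
    induction F using Finset.induction_on with
    | empty => exact fun _ => ⟨p, le_rfl, ha, by simp⟩
    | insert i F hi ih =>
      intro hF
      obtain ⟨q, hq, haq, hqu⟩ := ih ((Finset.subset_insert i F).trans hF)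
      obtain ⟨N, hN1, hN2, hN3⟩ := hN i (hF (Finset.mem_insert_self i F))
      obtain ⟨q', hq', h1, h2⟩ := q.exists_inter i hN1 ⟨a i, haq i, hN2⟩
      refine ⟨q', hq'.trans hq, fun j => ?_, fun j hj => ?_⟩
      · by_cases hj : j = i
        · subst hj
          rw [h1]
          exact ⟨haq j, hN2⟩
        · rw [h2 j hj]
          exact haq j
      · rcases Finset.mem_insert.1 hj with rfl | hj
        · rw [h1]
          exact Set.inter_subset_right.trans hN3
        · exact (Cond.le_def.1 hq' j).trans (hqu j hj)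
  obtain ⟨q, hq, haq, hqu⟩ := key J subset_rfl
  exact ⟨q, hq, haq, fun b hb => hJW fun i hi => hqu i hi (hb i)⟩

-- END P2

-- BEGIN P3

/-- Proof: the compact space `Bx p.s` is a Baire space, so some `Z m ∩ Bx p.s` has an interior point
relative to `Bx p.s` (`nonempty_interior_of_iUnion_of_closed` in the subtype);
`Cond.exists_le_of_open`. -/
theorem Cond.baire (p : Cond I) {Z : ℕ → Set (I → Ct)} (hZ : ∀ m, IsClosed (Z m))
    (hcov : Bx p.s ⊆ ⋃ m, Z m) : ∃ q ≤ p, ∃ m, Bx q.s ⊆ Z m := by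
  have hc : CompactSpace (Bx p.s) := isCompact_iff_compactSpace.1 p.isCompact_bx
  have hne : Nonempty (Bx p.s) := p.bx_nonempty.to_subtype
  obtain ⟨m, x, hx⟩ := nonempty_interior_of_iUnion_of_closed (X := Bx p.s)
    (f := fun m => Subtype.val ⁻¹' Z m) (fun m => (hZ m).preimage continuous_subtype_val) (by
      rw [← Set.preimage_iUnion, Set.eq_univ_iff_forall]
      exact fun x => hcov x.2)
  obtain ⟨O, hO, hOe⟩ := isOpen_induced_iff.1
    (isOpen_interior : IsOpen (interior (Subtype.val ⁻¹' Z m : Set (Bx p.s))))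
  have hxO : x ∈ (Subtype.val ⁻¹' O : Set (Bx p.s)) := by
    rw [hOe]
    exact hx
  obtain ⟨q, hq, -, hqO⟩ := p.exists_le_of_open hO x.2 hxO
  refine ⟨q, hq, m, fun b hb => ?_⟩
  have hb' : (⟨b, Cond.bx_subset hq hb⟩ : Bx p.s) ∈ (Subtype.val ⁻¹' O : Set (Bx p.s)) := hqO hb
  rw [hOe] at hb'
  exact interior_subset (s := (Subtype.val ⁻¹' Z m : Set (Bx p.s))) hb'

-- END P3

end Pool.Agent.Lib.MP_034dba_lc
end

section

set_option autoImplicit false

/-!
# Fusion for the product of Sacks forcing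
-/

namespace Pool.Agent.Lib.MP_034dba_lc

variable {I : Type}

-- BEGIN F0

/-- finitely many dense sets.  Proof: induction on the finite index type. -/
theorem exists_le_forall {X ι : Type} [Preorder X] [Finite ι] (R : ι → X → Prop)
    (hher : ∀ i x y, y ≤ x → R i x → R i y) (hach : ∀ i x, ∃ y ≤ x, R i y) (x : X) :
    ∃ y ≤ x, ∀ i, R i y := by
  classical
  have hfin := Fintype.ofFinite ι
  have key : ∀ S : Finset ι, ∃ y ≤ x, ∀ i ∈ S, R i y := by
    intro S
    induction S using Finset.induction_on with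
    | empty => exact ⟨x, le_rfl, by simp⟩
    | insert j S hj ih =>
      obtain ⟨y, hy, hS⟩ := ih
      obtain ⟨z, hz, hR⟩ := hach j y
      refine ⟨z, hz.trans hy, fun i hi => ?_⟩
      rcases Finset.mem_insert.1 hi with rfl | hi
      · exact hR
      · exact hher i y z hz (hS i hi)
  obtain ⟨y, hy, h⟩ := key Finset.univ
  exact ⟨y, hy, fun i => h i (Finset.mem_univ i)⟩

-- END F0

/-- a system of conditions -/
def CS (e : ℕ → I) (n : ℕ) (U : Ct → Cond I) : Prop := IsSys e n fun σ => (U σ).s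

-- BEGIN F1

theorem CS.congr {e e' : ℕ → I} {n : ℕ} {U : Ct → Cond I} (h : CS e n U)
    (he : ∀ k < n, e k = e' k) : CS e' n U := by
  have h' : IsSys e n fun σ => (U σ).s := h
  have hAg : ∀ σ τ α, Ag e' n σ τ α ↔ Ag e n σ τ α := by
    intro σ τ α
    constructor
    · intro H k hk hek
      exact H k hk (by rw [← he k hk]; exact hek)
    · intro H k hk hek
      exact H k hk (by rw [he k hk]; exact hek)
  exact ⟨h'.perf, h'.ne, fun σ τ α H => h'.loc σ τ α ((hAg σ τ α).1 H),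
    fun σ τ α H => h'.dis σ τ α fun H' => H ((hAg σ τ α).2 H')⟩

/-- `IsSys.eq_nd` -/
theorem CS.eq_nd {e : ℕ → I} {n : ℕ} {U : Ct → Cond I} (h : CS e n U) {σ τ : Ct}
    (hk : ∀ k < n, σ k = τ k) : U σ = U τ := by
  have h' : IsSys e n fun σ => (U σ).s := h
  exact Cond.ext (IsSys.eq_nd h' hk)

/-- only finitely many conditions occur (`exists_nd`, `CS.eq_nd`) -/
theorem CS.finite {e : ℕ → I} {n : ℕ} {U : Ct → Cond I} (h : CS e n U) :
    (Set.range U).Finite := by
  have hsub : Set.range U ⊆ Set.range fun s : Fin n → Bool => U (nd s) := by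
    rintro _ ⟨σ, rfl⟩
    obtain ⟨s, hs⟩ := exists_nd n σ
    exact ⟨s, (CS.eq_nd h hs).symm⟩
  exact (Set.finite_range _).subset hsub

-- END F1

-- BEGIN F2

/-- Proof: put `U' τ α = r.s α` if `Ag e n τ σ α`, and `U' τ α = (U τ).s α` otherwise. -/
theorem CS.shrink {e : ℕ → I} {n : ℕ} {U : Ct → Cond I} (h : CS e n U) (σ : Ct) {r : Cond I}
    (hr : r ≤ U σ) : ∃ U', CS e n U' ∧ (∀ τ, U' τ ≤ U τ) ∧ U' σ ≤ r := by
  classical
  have hsym : ∀ {τ τ' : Ct} {α : I}, Ag e n τ τ' α → Ag e n τ' τ α :=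
    fun h1 k hk he => (h1 k hk he).symm
  have htr : ∀ {τ τ' τ'' : Ct} {α : I}, Ag e n τ τ' α → Ag e n τ' τ'' α → Ag e n τ τ'' α :=
    fun h1 h2 k hk he => (h1 k hk he).trans (h2 k hk he)
  have hsub : ∀ (τ : Ct) (α : I), Ag e n τ σ α → r.s α ⊆ (U τ).s α := by
    intro τ α h1
    have h2 : (U τ).s α = (U σ).s α := h.loc τ σ α h1
    rw [h2]
    exact hr α
  let U' : Ct → Cond I := fun τ =>
    { s := fun α => if Ag e n τ σ α then r.s α else (U τ).s α
      perf := fun α => by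
        split_ifs
        · exact r.perf α
        · exact (U τ).perf α
      ne := fun α => by
        split_ifs
        · exact r.ne α
        · exact (U τ).ne α
      cnt := by
        refine (r.cnt.union (U τ).cnt).mono ?_
        intro α hα
        rw [Set.mem_ofPred_eq] at hα
        split_ifs at hα
        · exact Or.inl hα
        · exact Or.inr hα }
  have hU' : ∀ τ α, (U' τ).s α = if Ag e n τ σ α then r.s α else (U τ).s α := fun _ _ => rfl
  have hle : ∀ τ α, (U' τ).s α ⊆ (U τ).s α := by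
    intro τ α
    rw [hU']
    split_ifs with h1
    · exact hsub τ α h1
    · exact subset_rfl
  refine ⟨U', ⟨fun τ α => (U' τ).perf α, fun τ α => (U' τ).ne α, ?_, ?_⟩, fun τ α => hle τ α, ?_⟩
  · intro τ τ' α h1
    rw [hU', hU']
    by_cases h2 : Ag e n τ σ α
    · rw [if_pos h2, if_pos (htr (hsym h1) h2)]
    · rw [if_neg h2, if_neg (fun h3 => h2 (htr h1 h3))]
      exact h.loc τ τ' α h1
  · intro τ τ' α h1
    exact (h.dis τ τ' α h1).mono (hle τ α) (hle τ' α)
  · intro α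
    have h0 : Ag e n σ σ α := fun k _ _ => rfl
    rw [hU', if_pos h0]

/-- Proof: `exists_le_forall` for the systems below `U`, with the pointwise order, and the finite
type of the nodes `Fin n → Bool` (`nd`, `CS.eq_nd`), `CS.shrink`. -/
theorem CS.dense {e : ℕ → I} {n : ℕ} {U : Ct → Cond I} (h : CS e n U) {p : Cond I}
    (hp : ∀ σ, U σ ≤ p) {D : Cond I → Prop} (hher : ∀ q r, r ≤ q → D q → D r)
    (hd : ∀ q ≤ p, ∃ r ≤ q, D r) : ∃ U', CS e n U' ∧ (∀ σ, U' σ ≤ U σ) ∧ ∀ σ, D (U' σ) := by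
  obtain ⟨V, hV, hVD⟩ := exists_le_forall
    (X := {V : Ct → Cond I // CS e n V ∧ ∀ σ, V σ ≤ U σ}) (ι := Fin n → Bool)
    (fun s V => D (V.1 (nd s))) (fun s V V' hle hD =>
      hher _ _ ((show ∀ τ, V'.1 τ ≤ V.1 τ from hle) (nd s)) hD)
    (fun s V => by
      obtain ⟨r, hr, hrD⟩ := hd (V.1 (nd s)) ((V.2.2 (nd s)).trans (hp (nd s)))
      obtain ⟨V', h1, h2, h3⟩ := CS.shrink V.2.1 (nd s) hr
      exact ⟨⟨V', h1, fun τ => (h2 τ).trans (V.2.2 τ)⟩, h2, hher _ _ h3 hrD⟩)
    ⟨U, h, fun σ => le_rfl⟩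
  refine ⟨V.1, V.2.1, V.2.2, fun σ => ?_⟩
  obtain ⟨s, hs⟩ := exists_nd n σ
  rw [V.2.1.eq_nd hs]
  exact hVD s

-- END F2

-- BEGIN F3

/-- `IsSys.split` -/
theorem CS.split {e : ℕ → I} {n : ℕ} {U : Ct → Cond I} (h : CS e n U) (m : ℕ) :
    ∃ U', CS e (n + 1) U' ∧ (∀ σ, U' σ ≤ U σ) ∧ ∀ σ, Sm m ((U' σ).s (e n)) := by
  classical
  obtain ⟨V, hV, hVo, hVs⟩ := IsSys.split h m
  have hsub : ∀ σ α, V σ α ⊆ (U σ).s α := by
    intro σ α
    by_cases hα : α = e n
    · subst hα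
      obtain ⟨N, _, hN⟩ := (hVs σ).2
      rw [hN]
      exact Set.inter_subset_left
    · rw [hVo σ α hα]
  refine ⟨fun σ => ⟨V σ, hV.perf σ, hV.ne σ, ?_⟩, hV, fun σ => hsub σ, fun σ => (hVs σ).1⟩
  refine ((U σ).cnt.union (Set.countable_singleton (e n))).mono fun α hα => ?_
  by_cases h1 : α = e n
  · exact Or.inr h1
  · left
    intro h2
    apply hα
    rw [hVo σ α h1]
    exact h2

/-- an enumeration of the support (`CS.finite`) -/
theorem CS.exists_enum [Nonempty I] {e : ℕ → I} {n : ℕ} {U : Ct → Cond I} (h : CS e n U) :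
    ∃ g : ℕ → I, ∀ σ α, (U σ).s α ≠ Set.univ → ∃ j, g j = α := by
  have hc : ((⋃ p ∈ Set.range U, {α | p.s α ≠ Set.univ}) ∪ {Classical.arbitrary I}).Countable := by
    refine Set.Countable.union (Set.Countable.biUnion h.finite.countable fun p _ => p.cnt)
      (Set.countable_singleton _)
  obtain ⟨g, hg⟩ := hc.exists_eq_range ⟨_, Or.inr rfl⟩
  refine ⟨g, fun σ α hα => ?_⟩
  have : α ∈ Set.range g := by
    rw [← hg]
    exact Or.inl (Set.mem_biUnion (Set.mem_range_self σ) hα)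
  exact this

-- END F3

/-- the result of a fusion -/
structure Fus (p : Cond I) (D : ℕ → Cond I → Prop) (e : ℕ → I) (U : ℕ → Ct → Cond I)
    (q : Cond I) : Prop where
  sys : ∀ n, CS e n (U n)
  mono : ∀ n σ, U (n + 1) σ ≤ U n σ
  le : ∀ σ, U 0 σ ≤ p
  small : ∀ n σ, Sm n ((U (n + 1) σ).s (e n))
  all : ∀ α, (∀ N, ∃ n, N ≤ n ∧ e n = α) ∨ ∀ n σ, (U n σ).s α = Set.univ
  mem : ∀ n σ, D n (U (n + 1) σ)
  lim : ∀ α, q.s α = ⋂ n, ⋃ σ, (U n σ).s α

-- BEGIN F4

/-- the coordinates given by the enumerations `h` -/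
def F4_eo (h : ℕ → ℕ → I) (k : ℕ) : I := h (Nat.unpair k).1 (Nat.unpair k).2

theorem F4_eo_congr {h h' : ℕ → ℕ → I} {k : ℕ} (hk : ∀ m ≤ k, h m = h' m) :
    F4_eo h k = F4_eo h' k := by
  unfold F4_eo
  rw [hk _ (Nat.unpair_left_le k)]

/-- the invariant -/
structure F4_Inv (p : Cond I) (n : ℕ) (x : (ℕ → ℕ → I) × (Ct → Cond I)) : Prop where
  cs : CS (F4_eo x.1) n x.2
  le : ∀ σ, x.2 σ ≤ p
  enum : ∀ σ α, (x.2 σ).s α ≠ Set.univ → ∃ j, x.1 n j = α

/-- the step -/
structure F4_Step (D : ℕ → Cond I → Prop) (n : ℕ) (x y : (ℕ → ℕ → I) × (Ct → Cond I)) : Prop where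
  eq : ∀ k ≤ n, y.1 k = x.1 k
  le : ∀ σ, y.2 σ ≤ x.2 σ
  small : ∀ σ, Sm n ((y.2 σ).s (F4_eo x.1 n))
  mem : ∀ σ, D n (y.2 σ)

theorem F4_step [Nonempty I] {p : Cond I} {D : ℕ → Cond I → Prop}
    (hher : ∀ n q r, r ≤ q → D n q → D n r) (hd : ∀ n, ∀ q ≤ p, ∃ r ≤ q, D n r) {n : ℕ}
    {x : (ℕ → ℕ → I) × (Ct → Cond I)} (hx : F4_Inv p n x) :
    ∃ y, F4_Inv p (n + 1) y ∧ F4_Step D n x y := by
  classical
  obtain ⟨U₁, h1, h2, h3⟩ := hx.cs.split n
  obtain ⟨U₂, h4, h5, h6⟩ := h1.dense (p := p) (fun σ => (h2 σ).trans (hx.le σ)) (hher n) (hd n)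
  obtain ⟨g, hg⟩ := h4.exists_enum
  have heq : ∀ k ≤ n, Function.update x.1 (n + 1) g k = x.1 k := fun k hk =>
    Function.update_of_ne (by omega) _ _
  refine ⟨(Function.update x.1 (n + 1) g, U₂), ⟨?_, fun σ => ((h5 σ).trans (h2 σ)).trans (hx.le σ),
    fun σ α hα => ?_⟩, ⟨heq, fun σ => (h5 σ).trans (h2 σ), fun σ => ?_, h6⟩⟩
  · refine h4.congr fun k hk => F4_eo_congr fun m hm => (heq m (by omega)).symm
  · obtain ⟨j, hj⟩ := hg σ α hα
    refine ⟨j, ?_⟩
    change Function.update x.1 (n + 1) g (n + 1) j = α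
    rw [Function.update_self]
    exact hj
  · intro a ha b hb
    exact h3 σ a (h5 σ _ ha) b (h5 σ _ hb)

/-- The construction without the limit.  Proof: a state is a pair `(h, V)` with `h : ℕ → ℕ → I`,
`V : Ct → Cond I`; let `e h k = h (Nat.unpair k).1 (Nat.unpair k).2` (`(Nat.unpair k).1 ≤ k`).  The
invariant at the stage `n` is: `CS (e h) n V`, `∀ σ, V σ ≤ p`, and `h n` enumerates the supports of
`V` (all `α` with `(V σ).s α ≠ univ` for some `σ`).  Start with `V σ = p`.  Step: `CS.split` for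
`m = n` at the coordinate `e h n`, `CS.dense` for `D n`, and `h' = Function.update h (n + 1) g` with
`g` from `CS.exists_enum`; `e h' k = e h k` for `k ≤ n` (`CS.congr`).  In the limit put
`h∞ k = h_k k = h_n k` for `n ≥ k` and `e = e h∞`.  If `α` is in the support of some `U n σ` then it is
in the support of `U m τ` for all `m ≥ n` (`mono`), so for each `m ≥ n` there is `j` with
`h∞ m j = α`, so `e (Nat.pair m j) = α`. -/
theorem exists_fus_seq [Nonempty I] (p : Cond I) (D : ℕ → Cond I → Prop)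
    (hher : ∀ n q r, r ≤ q → D n q → D n r) (hd : ∀ n, ∀ q ≤ p, ∃ r ≤ q, D n r) :
    ∃ (e : ℕ → I) (U : ℕ → Ct → Cond I), (∀ n, CS e n (U n)) ∧ (∀ n σ, U (n + 1) σ ≤ U n σ) ∧
      (∀ σ, U 0 σ ≤ p) ∧ (∀ n σ, Sm n ((U (n + 1) σ).s (e n))) ∧
      (∀ α, (∀ N, ∃ n, N ≤ n ∧ e n = α) ∨ ∀ n σ, (U n σ).s α = Set.univ) ∧
      ∀ n σ, D n (U (n + 1) σ) := by
  classical
  -- the start
  have hstart : ∃ x : (ℕ → ℕ → I) × (Ct → Cond I), F4_Inv p 0 x := by
    have h0 : ∀ e : ℕ → I, CS e 0 fun _ => p := fun e =>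
      { perf := fun _ α => p.perf α
        ne := fun _ α => p.ne α
        loc := fun _ _ _ _ => rfl
        dis := fun σ τ α h => absurd (fun k hk => absurd hk (Nat.not_lt_zero k)) h }
    obtain ⟨g, hg⟩ := (h0 fun _ => Classical.arbitrary I).exists_enum
    exact ⟨(fun _ => g, fun _ => p), ⟨h0 _, fun _ => le_rfl, fun σ α h => hg σ α h⟩⟩
  obtain ⟨x₀, hx₀⟩ := hstart
  choose next hnext using fun (n : ℕ) (x : {x // F4_Inv p n x}) => F4_step hher hd x.2
  let x : ∀ n, {x : (ℕ → ℕ → I) × (Ct → Cond I) // F4_Inv p n x} := fun n =>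
    Nat.rec ⟨x₀, hx₀⟩ (fun n y => ⟨next n y, (hnext n y).1⟩) n
  have hx : ∀ n, F4_Step D n (x n).1 (x (n + 1)).1 := fun n => (hnext n (x n)).2
  let hlim : ℕ → ℕ → I := fun k => (x k).1.1 k
  have hstab : ∀ n, ∀ k ≤ n, (x n).1.1 k = hlim k := by
    intro n
    induction n with
    | zero =>
      intro k hk
      obtain rfl := Nat.le_zero.1 hk
      rfl
    | succ n ih =>
      intro k hk
      rcases Nat.lt_or_ge n k with h1 | h1
      · obtain rfl : k = n + 1 := by omega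
        rfl
      · rw [(hx n).eq k h1, ih k h1]
  have heo : ∀ n, ∀ k ≤ n, F4_eo (x n).1.1 k = F4_eo hlim k := fun n k hk =>
    F4_eo_congr fun m hm => hstab n m (hm.trans hk)
  have hanti : ∀ m n, m ≤ n → ∀ σ, (x n).1.2 σ ≤ (x m).1.2 σ := by
    intro m n hmn σ
    induction n, hmn using Nat.le_induction with
    | base => exact le_rfl
    | succ n _ ih => exact ((hx n).le σ).trans ih
  refine ⟨F4_eo hlim, fun n => (x n).1.2, fun n => ?_, fun n => (hx n).le, fun σ => (x 0).2.le σ,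
    fun n σ => ?_, fun α => ?_, fun n => (hx n).mem⟩
  · exact (x n).2.cs.congr fun k hk => heo n k hk.le
  · rw [← heo n n le_rfl]
    exact (hx n).small σ
  · by_cases hα : ∀ n σ, ((x n).1.2 σ).s α = Set.univ
    · exact Or.inr hα
    · left
      push Not at hα
      obtain ⟨n, σ, hne⟩ := hα
      intro N
      have h1 : ((x (max N n)).1.2 σ).s α ≠ Set.univ := fun h2 =>
        hne (Set.eq_univ_of_univ_subset (h2 ▸ hanti n (max N n) (le_max_right _ _) σ α))
      obtain ⟨j, hj⟩ := (x (max N n)).2.enum σ α h1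
      refine ⟨Nat.pair (max N n) j, (le_max_left N n).trans (Nat.left_le_pair _ _), ?_⟩
      change hlim _ _ = α
      rw [Nat.unpair_pair]
      exact hj

-- END F4

-- BEGIN F5

/-- Fusion.  Proof: `exists_fus_seq`, `limit_perfect`, `perfect_univ`; the support of the limit is
contained in the range of `e`. -/
theorem exists_fus [Nonempty I] (p : Cond I) (D : ℕ → Cond I → Prop)
    (hher : ∀ n q r, r ≤ q → D n q → D n r) (hd : ∀ n, ∀ q ≤ p, ∃ r ≤ q, D n r) :
    ∃ e U q, Fus p D e U q := by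
  obtain ⟨e, U, h1, h2, h3, h4, h5, h6⟩ := exists_fus_seq p D hher hd
  have hm : ∀ n σ α, (U (n + 1) σ).s α ⊆ (U n σ).s α := fun n σ α => h2 n σ α
  have huniv : ∀ α, (∀ n σ, (U n σ).s α = Set.univ) → (⋂ n, ⋃ σ, (U n σ).s α) = Set.univ := by
    intro α hα
    refine Set.eq_univ_of_forall fun x => Set.mem_iInter.mpr fun n => Set.mem_iUnion.mpr
      ⟨fun _ => false, ?_⟩
    rw [hα]
    exact Set.mem_univ x
  have hP : ∀ α, Perfect (⋂ n, ⋃ σ, (U n σ).s α) ∧ (⋂ n, ⋃ σ, (U n σ).s α).Nonempty := by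
    intro α
    rcases h5 α with hα | hα
    · exact limit_perfect (U := fun n σ => (U n σ).s) (fun n => h1 n) hm (fun n σ => h4 n σ) hα
    · rw [huniv α hα]
      exact ⟨perfect_univ, ⟨fun _ => false, Set.mem_univ _⟩⟩
  refine ⟨e, U, ⟨fun α => ⋂ n, ⋃ σ, (U n σ).s α, fun α => (hP α).1, fun α => (hP α).2, ?_⟩,
    ⟨h1, h2, h3, h4, h5, h6, fun _ => rfl⟩⟩
  refine (Set.countable_range e).mono ?_
  intro α hα
  rcases h5 α with h | h
  · obtain ⟨n, -, hn⟩ := h 0
    exact ⟨n, hn⟩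
  · exact absurd (huniv α h) hα

/-- the support of the limit is in the range of `e` -/
theorem Fus.supp {p : Cond I} {D : ℕ → Cond I → Prop} {e : ℕ → I} {U : ℕ → Ct → Cond I}
    {q : Cond I} (h : Fus p D e U q) {α : I} (hα : q.s α ≠ Set.univ) : ∃ n, e n = α := by
  rcases h.all α with h1 | h1
  · obtain ⟨n, -, hn⟩ := h1 0
    exact ⟨n, hn⟩
  · exfalso
    apply hα
    rw [h.lim]
    refine Set.eq_univ_of_forall fun x => Set.mem_iInter.mpr fun n => Set.mem_iUnion.mpr
      ⟨fun _ => false, ?_⟩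
    rw [h1]
    exact Set.mem_univ x

theorem Fus.q_le {p : Cond I} {D : ℕ → Cond I → Prop} {e : ℕ → I} {U : ℕ → Ct → Cond I}
    {q : Cond I} (h : Fus p D e U q) : q ≤ p := by
  intro α x hx
  rw [h.lim] at hx
  obtain ⟨σ, hσ⟩ := Set.mem_iUnion.mp (Set.mem_iInter.mp hx 0)
  exact h.le σ α hσ

theorem Fus.anti {p : Cond I} {D : ℕ → Cond I → Prop} {e : ℕ → I} {U : ℕ → Ct → Cond I}
    {q : Cond I} (h : Fus p D e U q) {m n : ℕ} (hmn : m ≤ n) (σ : Ct) : U n σ ≤ U m σ := by
  induction n, hmn using Nat.le_induction with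
  | base => exact le_refl _
  | succ n _ ih => exact (h.mono n σ).trans ih

/-- `limit_branch` -/
theorem Fus.branch {p : Cond I} {D : ℕ → Cond I → Prop} {e : ℕ → I} {U : ℕ → Ct → Cond I}
    {q : Cond I} (h : Fus p D e U q) {a : I → Ct} (ha : a ∈ Bx q.s) :
    ∃ σ, ∀ n, a ∈ Bx (U n σ).s := by
  obtain ⟨σ, hσ⟩ := limit_branch (U := fun n σ => (U n σ).s) (fun n => h.sys n)
    (fun n σ α => h.mono n σ α) a (fun α => by
      have h1 := ha α
      rw [h.lim] at h1
      exact h1)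
  exact ⟨σ, fun n α => hσ n α⟩

/-- the digit `n` of a branch is determined by the coordinate `e n` (`IsSys.dis`) -/
theorem Fus.digit {p : Cond I} {D : ℕ → Cond I → Prop} {e : ℕ → I} {U : ℕ → Ct → Cond I}
    {q : Cond I} (h : Fus p D e U q) {n : ℕ} {σ τ : Ct} {x : Ct}
    (h1 : x ∈ (U (n + 1) σ).s (e n)) (h2 : x ∈ (U (n + 1) τ).s (e n)) : σ n = τ n := by
  by_contra hne
  have h3 : ¬ Ag e (n + 1) σ τ (e n) := fun hA => hne (hA n (Nat.lt_succ_self n) rfl)
  exact Set.disjoint_left.mp ((h.sys (n + 1)).dis σ τ (e n) h3) h1 h2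

-- END F5

-- BEGIN F6

/-- Proof: `r'.s α = r.s α ∩ (U n σ).s α`, which is perfect by `IsSys.inter_perfect`
(`r.s α ⊆ q.s α ⊆ ⋃ τ, (U n τ).s α`). -/
theorem Fus.restrict {p : Cond I} {D : ℕ → Cond I → Prop} {e : ℕ → I} {U : ℕ → Ct → Cond I}
    {q : Cond I} (h : Fus p D e U q) {r : Cond I} (hr : r ≤ q) {a : I → Ct} (ha : a ∈ Bx r.s)
    {n : ℕ} {σ : Ct} (hσ : a ∈ Bx (U n σ).s) : ∃ r' ≤ r, r' ≤ U n σ ∧ a ∈ Bx r'.s := by
  have hsub : ∀ α, r.s α ⊆ ⋃ τ, (U n τ).s α := by
    intro α x hx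
    have h1 := hr α hx
    rw [h.lim] at h1
    exact Set.mem_iInter.mp h1 n
  refine ⟨⟨fun α => r.s α ∩ (U n σ).s α, fun α =>
    ((h.sys n).inter_perfect (r.perf α) (hsub α) σ).1, fun α => ⟨a α, ha α, hσ α⟩, ?_⟩,
    fun α x hx => hx.1, fun α x hx => hx.2, fun α => ⟨ha α, hσ α⟩⟩
  refine (r.cnt.union (U n σ).cnt).mono ?_
  intro α hα
  by_contra hcon
  rw [Set.mem_union, not_or] at hcon
  obtain ⟨h1, h2⟩ := hcon
  have h3 : r.s α = Set.univ := not_not.mp h1
  have h4 : (U n σ).s α = Set.univ := not_not.mp h2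
  apply hα
  show r.s α ∩ (U n σ).s α = Set.univ
  rw [h3, h4, Set.inter_univ]

-- END F6

-- BEGIN F7

/-- The branch of a point.  Proof: let `B a` be a branch of `a` (`Fus.branch`).  By `Fus.digit`,
for `a ∈ Bx q.s` the digit `B a n` is `b` iff `a (e n) ∈ ⋃ τ with τ n = b, (U (n + 1) τ).s (e n)`, a
finite union of closed sets (`CS.finite`); so both sets `{a ∈ Bx q.s | B a n = b}` are relatively
closed, which gives the continuity (`continuousOn_pi`, and a map to `Bool` is continuous if the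
preimages of both points are closed). -/
theorem Fus.exists_branch {p : Cond I} {D : ℕ → Cond I → Prop} {e : ℕ → I} {U : ℕ → Ct → Cond I}
    {q : Cond I} (h : Fus p D e U q) : ∃ B : (I → Ct) → Ct,
      (∀ a ∈ Bx q.s, ∀ n, a ∈ Bx (U n (B a)).s) ∧ ContinuousOn B (Bx q.s) ∧
      ∀ a ∈ Bx q.s, ∀ b ∈ Bx q.s, (∀ n, a (e n) = b (e n)) → B a = B b := by
  have hB : ∀ a : I → Ct, ∃ σ : Ct, a ∈ Bx q.s → ∀ n, a ∈ Bx (U n σ).s := by
    intro a
    by_cases ha : a ∈ Bx q.s
    · obtain ⟨σ, hσ⟩ := h.branch ha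
      exact ⟨σ, fun _ => hσ⟩
    · exact ⟨fun _ => false, fun h1 => absurd h1 ha⟩
  choose B hB using hB
  refine ⟨B, hB, ?_, ?_⟩
  · rw [continuousOn_iff_continuous_domRestrict]
    refine continuous_pi fun n => ?_
    -- the closed sets
    have hK : ∀ b : Bool, IsClosed {x : Ct | ∃ τ : Ct, τ n = b ∧ x ∈ (U (n + 1) τ).s (e n)} := by
      intro b
      have h1 : (((U (n + 1)) '' {τ : Ct | τ n = b}) : Set (Cond I)).Finite :=
        (h.sys (n + 1)).finite.subset (Set.image_subset_range _ _)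
      have h2 : {x : Ct | ∃ τ : Ct, τ n = b ∧ x ∈ (U (n + 1) τ).s (e n)} =
          ⋃ c ∈ (U (n + 1)) '' {τ : Ct | τ n = b}, c.s (e n) := by
        ext x
        simp only [Set.mem_iUnion, Set.mem_image, exists_prop]
        constructor
        · rintro ⟨τ, h3, h4⟩
          exact ⟨U (n + 1) τ, ⟨τ, h3, rfl⟩, h4⟩
        · rintro ⟨c, ⟨τ, h3, rfl⟩, h4⟩
          exact ⟨τ, h3, h4⟩
      rw [h2]
      exact h1.isClosed_biUnion fun c _ => (c.perf (e n)).closed
    have hiff : ∀ (b : Bool) (a : ↥(Bx q.s)), (Bx q.s).domRestrict B a n = b ↔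
        (a : I → Ct) (e n) ∈ {x : Ct | ∃ τ : Ct, τ n = b ∧ x ∈ (U (n + 1) τ).s (e n)} := by
      intro b a
      constructor
      · intro h1
        exact ⟨B a, h1, hB a a.2 (n + 1) (e n)⟩
      · rintro ⟨τ, h1, h2⟩
        rw [← h1]
        exact h.digit (hB a a.2 (n + 1) (e n)) h2
    have hcl : ∀ b : Bool, IsClosed ((fun a : ↥(Bx q.s) => (Bx q.s).domRestrict B a n) ⁻¹' {b}) := by
      intro b
      have h1 : ((fun a : ↥(Bx q.s) => (Bx q.s).domRestrict B a n) ⁻¹' {b}) =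
          (fun a : ↥(Bx q.s) => (a : I → Ct) (e n)) ⁻¹'
            {x : Ct | ∃ τ : Ct, τ n = b ∧ x ∈ (U (n + 1) τ).s (e n)} := by
        ext a
        exact hiff b a
      rw [h1]
      exact (hK b).preimage ((continuous_apply (e n)).comp continuous_subtype_val)
    rw [continuous_bool_rng true]
    refine ⟨hcl true, ?_⟩
    have h1 : ((fun a : ↥(Bx q.s) => (Bx q.s).domRestrict B a n) ⁻¹' {true}) =
        ((fun a : ↥(Bx q.s) => (Bx q.s).domRestrict B a n) ⁻¹' {false})ᶜ := by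
      ext a
      simp
    rw [h1]
    exact (hcl false).isOpen_compl
  · intro a ha b hb hab
    funext n
    refine h.digit (hB a ha (n + 1) (e n)) ?_
    rw [hab n]
    exact hB b hb (n + 1) (e n)

-- END F7

end Pool.Agent.Lib.MP_034dba_lc
end

section

set_option autoImplicit false

/-!
# The product of Sacks forcing does not make uncountable sets countable
-/

open Pool.Agent.Lib.MP_77d395_lc (SetName fAll fEx fIff fEnum)

namespace Pool.Agent.Lib.MP_034dba_lc

variable {I : Type}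

-- BEGIN N1

/-- Proof.  Suppose `q` forces `fCtbl`; then there are `r ≤ q` and `g` with
`fFun g r` and `∀ ξ, ∀ r' ≤ r, ∃ r'' ≤ r', ∃ n, g.mem (n, ξ) r''`.  Fusion (`exists_fus`) below `r`
for `D n c = ∃ ξ, g.mem (n, ξ) c` gives `e`, `U`, `q'`.  Let `w n c` be some `ξ` with `g.mem (n, ξ) c`
(if there is one).  The set `X` of all `w n (U (n + 1) σ)` is countable (`CS.finite`), so there is
`ξ ∉ X`.  Take `r'' ≤ q'` and `n` with `g.mem (n, ξ) r''`, a point `a` of `Bx r''.s`, its branch `σ`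
(`Fus.branch`), and `r₃ ≤ r''`, `r₃ ≤ U (n + 1) σ` (`Fus.restrict`).  Then
`g.mem (n, w n (U (n + 1) σ)) r₃` and `g.mem (n, ξ) r₃`, so `ξ = w n (U (n + 1) σ)` by the second part
of `fFun g r` (the clauses `fImp` at `r₃ ≤ r`), a contradiction. -/
theorem not_fCtbl [Nonempty I] {Ω : Type} (hΩ : Uncountable Ω) (p : Cond I) :
    fNot (fCtbl (Cond I) Ω) p := by
  classical
  intro q _ hq
  obtain ⟨r, _, g, ⟨hg1, hg2⟩, hg3⟩ := hq q le_rfl
  obtain ⟨e, U, q', h⟩ := exists_fus r (fun n c => ∃ ξ, g.mem (n, ξ) c)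
    (fun n q r hr ⟨ξ, hξ⟩ => ⟨ξ, g.mono _ _ _ hr hξ⟩) (fun n q hq => hg1 n q hq)
  have hne : Nonempty Ω := inferInstance
  let w : ℕ → Cond I → Ω := fun n c =>
    if h : ∃ ξ, g.mem (n, ξ) c then h.choose else Classical.arbitrary Ω
  have hw : ∀ n σ, g.mem (n, w n (U (n + 1) σ)) (U (n + 1) σ) := by
    intro n σ
    simp only [w]
    rw [dif_pos (h.mem n σ)]
    exact (h.mem n σ).choose_spec
  have hX : (⋃ n, w n '' Set.range (U (n + 1))).Countable :=
    Set.countable_iUnion fun n => (((h.sys (n + 1)).finite).image _).countable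
  obtain ⟨ξ, hξ⟩ : ∃ ξ, ξ ∉ ⋃ n, w n '' Set.range (U (n + 1)) := by
    by_contra hcon
    push Not at hcon
    rw [Set.eq_univ_of_forall hcon] at hX
    exact Set.not_countable_univ hX
  obtain ⟨r₂, hr₂, n, hn⟩ := hg3 ξ q' h.q_le
  obtain ⟨a, ha⟩ := r₂.bx_nonempty
  obtain ⟨σ, hσ⟩ := h.branch (a := a) fun α => hr₂ α (ha α)
  obtain ⟨r₃, h1, h2, _⟩ := h.restrict hr₂ ha (hσ (n + 1))
  have h3 : g.mem (n, ξ) r₃ := g.mono _ _ _ h1 hn
  have h4 : g.mem (n, w n (U (n + 1) σ)) r₃ := g.mono _ _ _ h2 (hw n σ)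
  have h5 : ξ = w n (U (n + 1) σ) :=
    hg2 n ξ (w n (U (n + 1) σ)) r₃ ((h1.trans hr₂).trans h.q_le) h3 r₃ le_rfl h4
  exact hξ (Set.mem_iUnion.2 ⟨n, _, Set.mem_range_self σ, h5.symm⟩)

-- END N1

end Pool.Agent.Lib.MP_034dba_lc
end

section

set_option autoImplicit false

/-!
# The generic reals are not listed by a small set
-/

open Cardinal
open Pool.Agent.Lib.MP_77d395_lc (SetName fAll fEx fIff fEnum)

namespace Pool.Agent.Lib.MP_034dba_lc

variable {I : Type}

-- BEGIN E1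

/-- There are at most `𝔠` closed subsets of the Cantor space (they are Borel sets of a countably
generated σ-algebra, `MeasurableSpace.cardinal_measurableSet_le_continuum`, or: a closed set is
determined by the set of the cylinders which it meets). -/
theorem mk_closed_le : #{A : Set Ct // IsClosed A} ≤ 𝔠 := by
  let B := TopologicalSpace.countableBasis Ct
  have hinj : Function.Injective (fun A : {A : Set Ct // IsClosed A} =>
      {b : B | ((b : Set Ct) ∩ A.1).Nonempty}) := by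
    have hsub : ∀ A A' : {A : Set Ct // IsClosed A},
        {b : B | ((b : Set Ct) ∩ A.1).Nonempty} = {b : B | ((b : Set Ct) ∩ A'.1).Nonempty} →
        A.1 ⊆ A'.1 := by
      intro A A' h x hx
      rw [← A'.2.closure_eq, (TopologicalSpace.isBasis_countableBasis Ct).mem_closure_iff]
      intro o ho hxo
      have h1 : (⟨o, ho⟩ : B) ∈ {b : B | ((b : Set Ct) ∩ A.1).Nonempty} := ⟨x, hxo, hx⟩
      rw [h] at h1
      exact h1
    intro A A' h
    exact Subtype.ext (Set.Subset.antisymm (hsub A A' h) (hsub A' A h.symm))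
  have h1 := Cardinal.mk_le_of_injective hinj
  refine h1.trans ?_
  rw [Cardinal.mk_set]
  have h2 : #B ≤ ℵ₀ := (TopologicalSpace.countable_countableBasis Ct).le_aleph0
  calc (2 : Cardinal) ^ #B ≤ 2 ^ ℵ₀ := Cardinal.power_le_power_left two_ne_zero h2
    _ = 𝔠 := Cardinal.two_power_aleph0

/-- The name of the generic real at the coordinate `α`: `mem n c` iff all members of `c.s α` have the
digit `true` at `n`.  Density: if some `y ∈ p.s α` has `y n = false`, then `p` has an extension `q`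
(`Cond.exists_inter` for the clopen set `{y | y n = false}`) with `mem n r` false for all `r ≤ q`. -/
theorem exists_generic (α : I) : ∃ x : SetName (Cond I) ℕ, ∀ n c, x.mem n c ↔
    ∀ y ∈ c.s α, y n = true := by
  refine ⟨⟨fun n c => ∀ y ∈ c.s α, y n = true, ?_, ?_⟩, fun n c => Iff.rfl⟩
  · intro n p q hqp h y hy
    exact h y (hqp α hy)
  · intro n p h y hy
    by_contra hyn
    have hN : IsClopen {y : Ct | y n = false} :=
      (isClopen_discrete ({false} : Set Bool)).preimage (continuous_apply n)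
    obtain ⟨q, hqp, hqs, -⟩ := p.exists_inter α hN ⟨y, hy, Bool.eq_false_iff.2 hyn⟩
    obtain ⟨r, hrq, hr⟩ := h q hqp
    obtain ⟨w, hw⟩ := r.ne α
    have h1 : w ∈ q.s α := hrq α hw
    rw [hqs] at h1
    have h2 : w n = false := h1.2
    rw [hr w hw] at h2
    exact Bool.noConfusion h2

-- END E1

-- BEGIN E2

/-- Two of `𝔠⁺` many conditions with colours are compatible.  Proof: for `α : I` let `h α : ℕ → I` be
an enumeration of a countable set which contains `α` and the support of `f α`.  The colour of `α` is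
`(ξ α, fun n => (f α).s (h α n))`; there are at most `𝔠` colours (`mk_closed_le`).
`exists_agree` gives `α ≠ β` with the same colour and `h α n = h β m → h α m = h β m`.  Let
`c.s γ = (f α).s γ` if this is not `univ`, and `c.s γ = (f β).s γ` otherwise.  If `γ = h α n`
and `(f β).s γ ≠ univ`, then `γ = h β m` for some `m`, so `h α m = γ` and
`(f α).s γ = (f α).s (h α m) = (f β).s (h β m) = (f β).s γ`; so `c ≤ f α` and `c ≤ f β`. -/
theorem exists_compatible {Ω : Type} (hΩ : #Ω ≤ 𝔠) (hI : 𝔠 < #I) (f : I → Cond I) (ξ : I → Ω) :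
    ∃ α β, α ≠ β ∧ ξ α = ξ β ∧ ∃ c, c ≤ f α ∧ c ≤ f β := by
  classical
  have hen : ∀ α : I, ∃ h : ℕ → I, ∀ γ, (f α).s γ ≠ Set.univ → ∃ n, h n = γ := by
    intro α
    obtain ⟨h, hh⟩ := ((f α).cnt.union (Set.countable_singleton α)).exists_eq_range
      ⟨α, Or.inr rfl⟩
    refine ⟨h, fun γ hγ => ?_⟩
    have : γ ∈ Set.range h := by
      rw [← hh]
      exact Or.inl hγ
    exact this
  choose h hh using hen
  have hCol : #(Ω × (ℕ → {A : Set Ct // IsClosed A})) ≤ 𝔠 := by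
    rw [Cardinal.mk_prod, Cardinal.lift_id, Cardinal.lift_id]
    have h1 : #(ℕ → {A : Set Ct // IsClosed A}) ≤ 𝔠 := by
      rw [← Cardinal.power_def, Cardinal.mk_nat]
      calc #{A : Set Ct // IsClosed A} ^ ℵ₀ ≤ 𝔠 ^ ℵ₀ :=
            Cardinal.power_le_power_right mk_closed_le
        _ = 𝔠 := Cardinal.continuum_power_aleph0
    calc #Ω * #(ℕ → {A : Set Ct // IsClosed A}) ≤ 𝔠 * 𝔠 := mul_le_mul' hΩ h1
      _ = 𝔠 := Cardinal.continuum_mul_self
  obtain ⟨α, β, hne, hcol, hag⟩ := Pool.Agent.Lib.MP_df1441_gt.exists_agree hI hCol h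
    fun α => (ξ α, fun n => ⟨(f α).s (h α n), ((f α).perf (h α n)).closed⟩)
  have hξ : ξ α = ξ β := congrArg Prod.fst hcol
  have hs : ∀ m, (f α).s (h α m) = (f β).s (h β m) := fun m =>
    congrArg Subtype.val (congrFun (congrArg Prod.snd hcol) m)
  have hkey : ∀ γ, (f α).s γ ≠ Set.univ → (f α).s γ ⊆ (f β).s γ := by
    intro γ hγ
    by_cases hγ' : (f β).s γ = Set.univ
    · rw [hγ']
      exact Set.subset_univ _
    · obtain ⟨n, hn⟩ := hh α γ hγ
      obtain ⟨m, hm⟩ := hh β γ hγ'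
      have h1 : h α m = h β m := hag n m (hn.trans hm.symm)
      have h2 := hs m
      rw [h1, hm] at h2
      exact h2.subset
  refine ⟨α, β, hne, hξ, ⟨fun γ => if (f α).s γ ≠ Set.univ then (f α).s γ else (f β).s γ,
    fun γ => ?_, fun γ => ?_, ?_⟩, fun γ => ?_, fun γ => ?_⟩
  · by_cases hγ : (f α).s γ ≠ Set.univ
    · rw [if_pos hγ]; exact (f α).perf γ
    · rw [if_neg hγ]; exact (f β).perf γ
  · by_cases hγ : (f α).s γ ≠ Set.univ
    · rw [if_pos hγ]; exact (f α).ne γ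
    · rw [if_neg hγ]; exact (f β).ne γ
  · refine ((f α).cnt.union (f β).cnt).mono fun γ hγ => ?_
    by_cases hγ' : (f α).s γ ≠ Set.univ
    · exact Or.inl hγ'
    · rw [Set.mem_setOf_eq, if_neg hγ'] at hγ
      exact Or.inr hγ
  · by_cases hγ : (f α).s γ ≠ Set.univ
    · simp only [if_pos hγ]; exact subset_rfl
    · rw [not_not.1 hγ]; exact Set.subset_univ _
  · by_cases hγ : (f α).s γ ≠ Set.univ
    · simp only [if_pos hγ]; exact hkey γ hγ
    · simp only [if_neg hγ]; exact subset_rfl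

-- END E2

-- BEGIN E3

/-- Proof: `c.s α` has two different points, so there are `n`, `y ∈ c.s α`, `x ∈ c.s β` with
`y n ≠ x n`; `Cond.exists_inter` twice. -/
theorem exists_separate {α β : I} (h : α ≠ β) (c : Cond I) : ∃ d ≤ c, ∃ n, ∃ v : Bool,
    (∀ y ∈ d.s α, y n = v) ∧ ∀ y ∈ d.s β, y n = !v := by
  obtain ⟨N, _, hN, hdis, _⟩ := exists_split (c.perf α) (c.ne α) 0
  obtain ⟨y, hy⟩ := hN false
  obtain ⟨y', hy'⟩ := hN true
  have hne : y ≠ y' := by
    rintro rfl
    exact Set.disjoint_left.1 hdis hy hy'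
  obtain ⟨n, hn⟩ := Function.ne_iff.1 hne
  obtain ⟨x, hx⟩ := c.ne β
  obtain ⟨w, hw, hwx⟩ : ∃ w ∈ c.s α, w n ≠ x n := by
    by_cases h1 : y n = x n
    · exact ⟨y', hy'.1, fun h2 => hn (h1.trans h2.symm)⟩
    · exact ⟨y, hy.1, h1⟩
  have hcl : ∀ v : Bool, IsClopen {z : Ct | z n = v} := by
    intro v
    have hc : Continuous fun z : Ct => z n := continuous_apply n
    exact (isClopen_discrete {v}).preimage hc
  obtain ⟨d₁, h1, h2, h3⟩ := c.exists_inter α (hcl (w n)) ⟨w, hw, rfl⟩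
  obtain ⟨d₂, h4, h5, h6⟩ := d₁.exists_inter β (hcl (x n)) ⟨x, by rw [h3 β h.symm]; exact hx, rfl⟩
  refine ⟨d₂, h4.trans h1, n, w n, fun z hz => ?_, fun z hz => ?_⟩
  · rw [h6 α h, h2] at hz
    exact hz.2
  · rw [h5] at hz
    have h7 : z n = x n := hz.2
    rw [h7]
    revert hwx
    cases x n <;> cases w n <;> simp

-- END E3

-- BEGIN E4

/-- Proof.  Suppose `q` forces `fEnum`; then there are `r ≤ q` and `E` with
`fAll (fun x => fEx fun ξ => …) r`.  For `α : I` let `x α` be the name of `exists_generic`; there are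
`f α ≤ r` and `ξ α` such that `f α` forces `∀ n, x α ∋ n ↔ (ξ α, n) ∈ E`.  `exists_compatible` gives
`α`, `β`, `c`, and `exists_separate` gives `d ≤ c`, `n`, `v`.  If `v = true` then `(x α).mem n d`, so
`E.mem (ξ, n) d`, so `(x β).mem n d`, a contradiction (`d.s β` is nonempty).  `v = false` is
symmetric. -/
theorem not_fEnum {Ω : Type} (hΩ : #Ω ≤ 𝔠) (hI : 𝔠 < #I) (p : Cond I) :
    fNot (fEnum (Cond I) Ω) p := by
  intro q _ h
  obtain ⟨r, _, E, hE⟩ := h q le_rfl
  choose x hx using exists_generic (I := I)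
  have h1 : ∀ α, ∃ s ≤ r, ∃ ξ, ∀ n, ∀ t ≤ s, ((x α).mem n t ↔ E.mem (ξ, n) t) :=
    fun α => hE (x α) r le_rfl
  choose f _ ξ hξ using h1
  obtain ⟨α, β, hne, hξe, c, hcα, hcβ⟩ := exists_compatible hΩ hI f ξ
  obtain ⟨d, hd, n, v, h2, h3⟩ := exists_separate hne c
  have key : (x α).mem n d ↔ (x β).mem n d := by
    rw [hξ α n d (hd.trans hcα), hξ β n d (hd.trans hcβ), hξe]
  rw [hx, hx] at key
  obtain ⟨y, hy⟩ := d.ne α
  obtain ⟨z, hz⟩ := d.ne β
  cases v with
  | true =>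
    have h4 := key.1 h2 z hz
    rw [h3 z hz] at h4
    simp at h4
  | false =>
    have h4 := key.2 h3 y hy
    rw [h2 y hy] at h4
    simp at h4

-- END E4

end Pool.Agent.Lib.MP_034dba_lc
end

section

set_option autoImplicit false

namespace Pool.Agent.Lib.MP_034dba_lc

-- BEGIN G1

theorem G1_geo : HasSum (fun i : ℕ => (1 / 2 : ℝ) ^ (i + 1)) 1 := by
  have h1 := (hasSum_geometric_of_lt_one (r := (1 / 2 : ℝ)) (by norm_num) (by norm_num)).mul_left
    (1 / 2 : ℝ)
  have h2 : (1 / 2 : ℝ) * (1 - 1 / 2)⁻¹ = 1 := by norm_num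
  rw [h2] at h1
  refine h1.congr_fun ?_
  intro i
  rw [pow_succ]
  ring

theorem G1_nonneg (b : Ct) (i : ℕ) : 0 ≤ (if b i then (1 / 2 : ℝ) ^ (i + 1) else 0) := by
  split_ifs
  · positivity
  · exact le_rfl

theorem G1_le (b : Ct) (i : ℕ) :
    (if b i then (1 / 2 : ℝ) ^ (i + 1) else 0) ≤ (1 / 2 : ℝ) ^ (i + 1) := by
  split_ifs
  · exact le_rfl
  · positivity

theorem summable_rv (b : Ct) : Summable fun i : ℕ => if b i then (1 / 2 : ℝ) ^ (i + 1) else 0 :=
  Summable.of_nonneg_of_le (G1_nonneg b) (G1_le b) G1_geo.summable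

theorem rv_nonneg (b : Ct) : 0 ≤ rv b := tsum_nonneg (G1_nonneg b)

theorem rv_le_one (b : Ct) : rv b ≤ 1 := by
  rw [← G1_geo.tsum_eq]
  exact (summable_rv b).tsum_le_tsum (G1_le b) G1_geo.summable

/-- split off the first `l` digits -/
theorem rv_split (b : Ct) (l : ℕ) : rv b =
    (∑ i ∈ Finset.range l, if b i then (1 / 2 : ℝ) ^ (i + 1) else 0) +
      (1 / 2) ^ l * rv (fun i => b (i + l)) := by
  unfold rv
  rw [← (summable_rv b).sum_add_tsum_nat_add l, ← tsum_mul_left]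
  congr 1
  refine tsum_congr fun i => ?_
  split_ifs
  · rw [← pow_add]
    congr 1
    ring
  · rw [mul_zero]

theorem rv_agree {l : ℕ} {b b' : Ct} (h : ∀ i < l, b i = b' i) : |rv b - rv b'| ≤ (1 / 2) ^ l := by
  have h1 : (∑ i ∈ Finset.range l, if b i then (1 / 2 : ℝ) ^ (i + 1) else 0) =
      ∑ i ∈ Finset.range l, if b' i then (1 / 2 : ℝ) ^ (i + 1) else 0 := by
    refine Finset.sum_congr rfl fun i hi => ?_
    rw [h i (Finset.mem_range.1 hi)]
  rw [rv_split b l, rv_split b' l, h1, add_sub_add_left_eq_sub, ← mul_sub, abs_mul,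
    abs_of_nonneg (show (0 : ℝ) ≤ (1 / 2) ^ l by positivity)]
  have h2 : |rv (fun i => b (i + l)) - rv (fun i => b' (i + l))| ≤ 1 := by
    have a1 := rv_nonneg (fun i => b (i + l))
    have a2 := rv_le_one (fun i => b (i + l))
    have a3 := rv_nonneg (fun i => b' (i + l))
    have a4 := rv_le_one (fun i => b' (i + l))
    rw [abs_le]
    constructor <;> linarith
  exact mul_le_of_le_one_right (by positivity) h2

theorem continuous_rv : Continuous rv := by
  unfold rv
  refine continuous_tsum (fun i => ?_) G1_geo.summable fun i b => ?_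
  · have h1 : Continuous fun b : Ct => b i := continuous_apply i
    have h2 : Continuous fun t : Bool => if t then (1 / 2 : ℝ) ^ (i + 1) else 0 :=
      continuous_of_discreteTopology
    exact h2.comp h1
  · rw [Real.norm_eq_abs, abs_of_nonneg (G1_nonneg b i)]
    exact G1_le b i

-- END G1

-- BEGIN G2

/-- Proof: binary expansion (for instance through `Real.ofDigits`, `Real.digits` with base `2`, or
directly: `b i = (⌊x * 2 ^ (i + 1)⌋ is odd)` for `x < 1`). -/
theorem exists_rv {x : ℝ} (h0 : 0 ≤ x) (h1 : x ≤ 1) : ∃ b, rv b = x := by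
  rcases h1.lt_or_eq with h2 | h2
  · refine ⟨fun i => decide (Real.digits x 2 i = 1), ?_⟩
    have h3 := Real.ofDigits_digits (b := 2) (x := x) (by norm_num) ⟨h0, h2⟩
    conv_rhs => rw [← h3]
    unfold rv Real.ofDigits
    refine tsum_congr fun i => ?_
    unfold Real.ofDigitsTerm
    have h4 : ∀ d : Fin 2, (if decide (d = 1) = true then (1 / 2 : ℝ) ^ (i + 1) else 0) =
        (d : ℕ) * (((2 : ℕ) : ℝ) ^ (i + 1))⁻¹ := by
      intro d
      fin_cases d
      · simp
      · simp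
    exact h4 _
  · refine ⟨fun _ => true, ?_⟩
    unfold rv
    simp only [if_true]
    rw [h2]
    refine (tsum_congr fun i => ?_).trans (tsum_geometric_two' (1 : ℝ))
    rw [pow_succ, one_div, inv_pow]
    ring

-- END G2

-- BEGIN G3

theorem G3_coe_nat (n : ℕ) : (((n : ℝ)) : S1) = 0 := by
  have h : (((n : ℤ) : ℝ) : S1) = 0 := by
    rw [AddCircle.coe_eq_zero_iff]
    exact ⟨n, by simp⟩
  exact_mod_cast h

theorem G3_coe_int (n : ℤ) : (((n : ℝ)) : S1) = 0 := by
  rw [AddCircle.coe_eq_zero_iff]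
  exact ⟨n, by simp⟩

theorem continuous_val : Continuous val :=
  (AddCircle.continuous_mk' 1).comp continuous_rv

theorem exists_val (x : S1) : ∃ b, val b = x := by
  obtain ⟨r, rfl⟩ := QuotientAddGroup.mk_surjective x
  obtain ⟨b, hb⟩ := exists_rv (Int.fract_nonneg r) (Int.fract_lt_one r).le
  refine ⟨b, ?_⟩
  show ((rv b : ℝ) : S1) = ((r : ℝ) : S1)
  have h1 : r = Int.fract r + (⌊r⌋ : ℝ) := (Int.fract_add_floor r).symm
  rw [hb]
  conv_rhs => rw [h1]
  rw [AddCircle.coe_add, G3_coe_int, add_zero]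

theorem val_agree {l : ℕ} {b b' : Ct} (h : ∀ i < l, b i = b' i) :
    ‖val b - val b'‖ ≤ (1 / 2) ^ l := by
  have h1 : val b - val b' = ((rv b - rv b' : ℝ) : S1) := (AddCircle.coe_sub 1 _ _).symm
  rw [h1]
  refine le_trans ?_ (rv_agree h)
  rw [← Real.norm_eq_abs]
  exact QuotientAddGroup.norm_mk_le_norm

/-- Proof: by `rv_split`, `2 ^ l * rv b` is a natural number plus `rv (shifted b)`. -/
theorem smul_val (l : ℕ) (b : Ct) : (2 ^ l) • val b = val (fun i => b (i + l)) := by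
  have h1 : (2 : ℝ) ^ l * rv b =
      ((∑ i ∈ Finset.range l, if b i then 2 ^ (l - (i + 1)) else 0 : ℕ) : ℝ) +
        rv (fun i => b (i + l)) := by
    rw [rv_split b l, mul_add, ← mul_assoc, ← mul_pow, Finset.mul_sum]
    rw [show (2 : ℝ) * (1 / 2) = 1 by norm_num, one_pow, one_mul]
    congr 1
    rw [Nat.cast_sum]
    refine Finset.sum_congr rfl fun i hi => ?_
    have hi' : i + 1 ≤ l := Finset.mem_range.1 hi
    split_ifs
    · push_cast
      rw [pow_sub₀ (2 : ℝ) (by norm_num) hi', one_div, inv_pow]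
    · simp
  show (2 ^ l) • ((rv b : ℝ) : S1) = ((rv (fun i => b (i + l)) : ℝ) : S1)
  rw [← AddCircle.coe_nsmul, nsmul_eq_mul, Nat.cast_pow, Nat.cast_ofNat, h1, AddCircle.coe_add,
    G3_coe_nat, zero_add]

-- END G3

-- BEGIN G4

theorem L_lt (r : ℕ) : L r < L (r + 1) := by
  unfold L
  exact Nat.pow_lt_pow_left (by omega) (by norm_num)

theorem G4_L_mono {r s : ℕ} (h : r ≤ s) : L r ≤ L s :=
  monotone_nat_of_le_succ (fun r => (L_lt r).le) h

theorem G4_lt_L (i : ℕ) : i < L (i + 1) := by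
  unfold L
  nlinarith

/-- the digits of a point -/
noncomputable def G4_dig (x : S1) : Ct := (exists_val x).choose

theorem G4_val_dig (x : S1) : val (G4_dig x) = x := (exists_val x).choose_spec

/-- the approximations -/
noncomputable def G4_B (z : ℕ → Ct → S1) : ℕ → Ct
  | 0 => fun _ => false
  | r + 1 => fun i => if i < L r then G4_B z r i else G4_dig (z r (G4_B z r)) (i - L r)

theorem G4_B_stable (z : ℕ → Ct → S1) {r s : ℕ} (h : r ≤ s) {i : ℕ} (hi : i < L r) :
    G4_B z s i = G4_B z r i := by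
  induction s, h using Nat.le_induction with
  | base => rfl
  | succ s hs ih =>
    have h1 : i < L s := hi.trans_le (G4_L_mono hs)
    rw [G4_B]
    simp only [if_pos h1]
    exact ih

/-- the limit -/
noncomputable def G4_b (z : ℕ → Ct → S1) : Ct := fun i => G4_B z (i + 1) i

theorem G4_b_eq (z : ℕ → Ct → S1) {r i : ℕ} (hi : i < L r) : G4_b z i = G4_B z r i := by
  unfold G4_b
  rcases le_total r (i + 1) with h | h
  · exact G4_B_stable z h hi
  · exact (G4_B_stable z h (G4_lt_L i)).symm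

/-- Realization.  Proof: let `D x` be digits of `x : S1` (`exists_val`).  Define `b` by strong
recursion: for `L r ≤ i < L (r + 1)` put `b i = D (z r b') (i - L r)` where `b'` is `b` below `L r`
(and `false` from there on; by `hz` it does not matter), `b i = false` for `i < L 0`.  Then
`2 ^ L r • val b = val (shift)` has the same first `L (r + 1) - L r` digits as `z r b`; use
`val_agree`. -/
theorem realize (z : ℕ → Ct → S1) (hz : ∀ r b b', (∀ i < L r, b i = b' i) → z r b = z r b') :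
    ∃ b : Ct, ∀ r, ‖(2 ^ L r) • val b - z r b‖ ≤ (1 / 2) ^ (L (r + 1) - L r) := by
  refine ⟨G4_b z, fun r => ?_⟩
  have h1 : z r (G4_b z) = z r (G4_B z r) := hz r _ _ fun i hi => G4_b_eq z hi
  rw [smul_val, h1]
  conv_lhs => rw [← G4_val_dig (z r (G4_B z r))]
  refine val_agree fun i hi => ?_
  have h2 : i + L r < L (r + 1) := by omega
  rw [G4_b_eq z h2, G4_B]
  have h3 : ¬ i + L r < L r := by omega
  simp only [if_neg h3, Nat.add_sub_cancel]

-- END G4

/-! The members of the circle given by finitely many digits, and the interval `[0, 1]`. -/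

-- BEGIN G5

theorem slot_inj {n p q i n' p' q' i' : ℕ} (h : slot n p q i = slot n' p' q' i') :
    n = n' ∧ p = p' ∧ q = q' ∧ i = i' := by
  unfold slot at h
  rw [Nat.pair_eq_pair, Nat.pair_eq_pair, Nat.pair_eq_pair] at h
  exact h

theorem le_slot (n p q i : ℕ) : n ≤ slot n p q i := Nat.left_le_pair _ _

theorem G5_pair_le {a a' b b' : ℕ} (ha : a ≤ a') (hb : b ≤ b') : Nat.pair a b ≤ Nat.pair a' b' := by
  have h1 : Nat.pair a b ≤ Nat.pair a' b := by
    rcases ha.eq_or_lt with h | h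
    · rw [h]
    · exact (Nat.pair_lt_pair_left b h).le
  have h2 : Nat.pair a' b ≤ Nat.pair a' b' := by
    rcases hb.eq_or_lt with h | h
    · rw [h]
    · exact (Nat.pair_lt_pair_right a' h).le
  exact h1.trans h2

/-- `Nat.pair` is monotone in both arguments -/
theorem slot_le {n p q i h : ℕ} (hp : p ≤ h) (hq : q ≤ h) (hi : i ≤ h) :
    slot n p q i ≤ slot n h h h :=
  G5_pair_le le_rfl (G5_pair_le hp (G5_pair_le hq hi))

theorem G5_hh_pos (n : ℕ) : (0 : ℝ) < hh n := by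
  unfold hh
  push_cast
  positivity

theorem G5_ee_pos (n : ℕ) : 0 < ee (hh n) := by
  unfold ee
  have := G5_hh_pos n
  positivity

/-- Proof: `L (r + 1) - L r = 2 r + 19 ≥ n + 19`, and `160 (2 ^ n + n) ≤ 2 ^ (n + 19)`. -/
theorem gap_le {n r : ℕ} (h : n ≤ r) :
    (1 / 2 : ℝ) ^ (L (r + 1) - L r) ≤ ee (hh n) / 4 := by
  have h1 : L (r + 1) - L r = 2 * r + 19 := by
    unfold L
    have : (r + 1 + 9) ^ 2 = (r + 9) ^ 2 + (2 * r + 19) := by ring
    omega
  have h2 : ((n : ℕ) : ℝ) < 2 ^ n := by exact_mod_cast Nat.lt_two_pow_self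
  have h3 : (2 : ℝ) ^ n * 2 ^ 19 ≤ 2 ^ (2 * r + 19) := by
    rw [← pow_add]
    exact pow_le_pow_right₀ (by norm_num) (by omega)
  have h4 : (0 : ℝ) < 2 ^ n := by positivity
  rw [h1, one_div, inv_pow]
  unfold ee hh
  push_cast
  rw [div_div, one_div]
  apply inv_anti₀ (by positivity)
  norm_num at h3
  nlinarith

/-- Proof: `‖2 ^ L • y‖ ≤ 2 ^ L * ‖y‖` and `slot_le`. -/
theorem smul_dl {n p q i : ℕ} (hp : p < hh n) (hq : q < hh n) (hi : i < hh n) {y : S1}
    (hy : ‖y‖ ≤ dl n) : ‖(2 ^ L (slot n p q i)) • y‖ ≤ ee (hh n) / 4 := by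
  have h1 : L (slot n p q i) ≤ L (slot n (hh n) (hh n) (hh n)) := by
    have := slot_le (n := n) hp.le hq.le hi.le
    unfold L
    exact Nat.pow_le_pow_left (by omega) 2
  have h2 : ‖(2 ^ L (slot n p q i)) • y‖ ≤ ((2 ^ L (slot n p q i) : ℕ) : ℝ) * ‖y‖ :=
    norm_nsmul_le
  refine h2.trans ((mul_le_mul_of_nonneg_left hy (by positivity)).trans ?_)
  unfold dl
  have he := G5_ee_pos n
  have h3 : ((2 ^ L (slot n p q i) : ℕ) : ℝ) * (1 / 2) ^ L (slot n (hh n) (hh n) (hh n)) ≤ 1 := by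
    push_cast
    calc (2 : ℝ) ^ L (slot n p q i) * (1 / 2) ^ L (slot n (hh n) (hh n) (hh n))
        ≤ (2 : ℝ) ^ L (slot n (hh n) (hh n) (hh n)) *
          (1 / 2) ^ L (slot n (hh n) (hh n) (hh n)) :=
          mul_le_mul_of_nonneg_right (pow_le_pow_right₀ (by norm_num) h1) (by positivity)
      _ = 1 := by
          rw [← mul_pow]
          norm_num
  calc ((2 ^ L (slot n p q i) : ℕ) : ℝ) *
        (ee (hh n) / 4 * (1 / 2) ^ L (slot n (hh n) (hh n) (hh n)))
      = ee (hh n) / 4 * (((2 ^ L (slot n p q i) : ℕ) : ℝ) *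
        (1 / 2) ^ L (slot n (hh n) (hh n) (hh n))) := by ring
    _ ≤ ee (hh n) / 4 * 1 := mul_le_mul_of_nonneg_left h3 (by positivity)
    _ = _ := by ring

theorem dl_pos (n : ℕ) : 0 < dl n := by
  unfold dl
  have := G5_ee_pos n
  positivity

-- END G5

end Pool.Agent.Lib.MP_034dba_lc
end

section

set_option autoImplicit false

namespace Pool.Agent.Lib.MP_034dba_lc

-- BEGIN U1

/-- Norm of `2 a`-multiples.  Proof: `r • 2a = r / (2 h)` with `0 < r / (2 h) ≤ 1 / 2`, use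
`AddCircle.norm_coe_eq_abs_iff` (or `UnitAddCircle.norm_eq`). -/
theorem norm_smul_aa {h r : ℕ} (hr : 0 < r) (hrh : r ≤ h) :
    ‖r • (aa h + aa h)‖ = r / (2 * h) := by
  have hh : (0 : ℝ) < h := by exact_mod_cast lt_of_lt_of_le hr hrh
  have hr' : (0 : ℝ) < r := by exact_mod_cast hr
  have hrh' : (r : ℝ) ≤ h := by exact_mod_cast hrh
  have h1 : r • (aa h + aa h) = ((r / (2 * h) : ℝ) : UnitAddCircle) := by
    rw [aa, ← AddCircle.coe_add, ← AddCircle.coe_nsmul]
    congr 1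
    rw [nsmul_eq_mul]
    field_simp
    ring
  rw [h1, (AddCircle.norm_coe_eq_abs_iff 1 one_ne_zero).2]
  · exact abs_of_pos (by positivity)
  · rw [abs_of_pos (by positivity), abs_one, div_le_div_iff₀ (by positivity) (by norm_num)]
    nlinarith

-- END U1

-- BEGIN U2

theorem U2_ee_pos {h : ℕ} (hh : 0 < h) : 0 < ee h := by
  have h1 : (0 : ℝ) < h := by exact_mod_cast hh
  unfold ee
  positivity

theorem U2_norm {h : ℕ} (hh : 0 < h) : ‖aa h + aa h‖ = 20 * ee h := by
  have h1 : (0 : ℝ) < h := by exact_mod_cast hh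
  have h2 := norm_smul_aa (h := h) (r := 1) one_pos hh
  rw [one_smul] at h2
  rw [h2]
  unfold ee
  push_cast
  field_simp
  norm_num

/-- Proof: `w` is decided at `j`, `w'` at `j'`.  If `j = j'` then
`‖w j + w' j‖ ≥ ‖2 a‖ - 2 ε = 20 ε - 2 ε` (`‖2 a‖ = 1 / (2 h) = 20 ε`) which is larger than `2 ε`.
If `j < j'` then `‖w' j + a‖ ≤ ‖w j - a‖ + ‖w j + w' j‖ ≤ 3 ε < 4 ε`, a contradiction.  Symmetric for
`j' < j`. -/
theorem CA_add {h : ℕ} (hh : 0 < h) {w w' : Fin h → S1} (hw : w ∈ CA h) (hw' : w' ∈ CA h)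
    (hs : ∀ i, ‖w i + w' i‖ ≤ 2 * ee h) : False := by
  have he := U2_ee_pos hh
  have hn := U2_norm hh
  obtain ⟨j, hj, hjl⟩ := hw
  obtain ⟨j', hj', hjl'⟩ := hw'
  rcases lt_trichotomy j j' with h1 | h1 | h1
  · have h2 := hjl' j h1
    have h3 : w' j + aa h = (w j + w' j) - (w j - aa h) := by abel
    have h4 := norm_sub_le (w j + w' j) (w j - aa h)
    rw [← h3] at h4
    have h5 := hs j
    linarith
  · subst h1
    have h3 : aa h + aa h = (w j + w' j) - (w j - aa h) - (w' j - aa h) := by abel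
    have h4 := norm_sub_le ((w j + w' j) - (w j - aa h)) (w' j - aa h)
    have h6 := norm_sub_le (w j + w' j) (w j - aa h)
    rw [← h3, hn] at h4
    have h5 := hs j
    linarith
  · have h2 := hjl j' h1
    have h3 : w j' + aa h = (w j' + w' j') - (w' j' - aa h) := by abel
    have h4 := norm_sub_le (w j' + w' j') (w' j' - aa h)
    rw [← h3] at h4
    have h5 := hs j'
    linarith

/-- Proof: `‖w j‖ ≥ ‖a‖ - ε = 10 ε - ε > ε` for the coordinate `j` at which `w` is decided. -/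
theorem CA_ne {h : ℕ} (hh : 0 < h) {w : Fin h → S1} (hw : w ∈ CA h) (hs : ∀ i, ‖w i‖ ≤ ee h) :
    False := by
  have he := U2_ee_pos hh
  have hn := U2_norm hh
  obtain ⟨j, hj, -⟩ := hw
  have h1 : aa h = w j - (w j - aa h) := by abel
  have h2 := norm_sub_le (w j) (w j - aa h)
  rw [← h1] at h2
  have h3 := norm_add_le (aa h) (aa h)
  have h4 := hs j
  linarith

-- END U2

-- BEGIN U3

theorem U3_RR0 {h : ℕ} {z : Bl h} : z ∈ RR h 0 ↔ ∀ p q, (fun i => -z p q i) ∈ CA h := by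
  simp [RR]

theorem U3_RR1 {h : ℕ} {z : Bl h} : z ∈ RR h 1 ↔ ∀ p q, z p q ∈ CA h := by
  simp [RR]

theorem U3_RR2 {h : ℕ} {z : Bl h} : z ∈ RR h 2 ↔ ∃ p, ∀ q i, ‖z p q i‖ ≤ ee h := by
  simp [RR]

theorem U3_RR3 {h : ℕ} {z : Bl h} : z ∈ RR h 3 ↔ ∃ q, ∀ p i, ‖z p q i‖ ≤ ee h := by
  simp [RR]

theorem U3_ee_nonneg (h : ℕ) : 0 ≤ ee h := by
  unfold ee
  positivity

/-- Proof: row `p` of `z` vanishes, all entries of `z'`, `z''` are in `CA`; use `CA_add` for the
entry `(p, q)`, any `q` (`⟨0, hh⟩`). -/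
theorem RR_add {h : ℕ} (hh : 0 < h) {z z' z'' : Bl h} (hz : z ∈ RR h 2) (hz' : z' ∈ RR h 1)
    (hz'' : z'' ∈ RR h 1) (he : z = z' + z'') : False := by
  obtain ⟨p, hp⟩ := U3_RR2.1 hz
  refine CA_add hh (U3_RR1.1 hz' p ⟨0, hh⟩) (U3_RR1.1 hz'' p ⟨0, hh⟩) fun i => ?_
  have h1 := hp ⟨0, hh⟩ i
  rw [he] at h1
  have h2 : ‖z' p ⟨0, hh⟩ i + z'' p ⟨0, hh⟩ i‖ ≤ ee h := h1
  have h3 := U3_ee_nonneg h
  linarith

/-- Proof: row `p` of `z₂` and column `q` of `z₃` vanish, so the entry `(p, q)` of `z₂ - z₃` is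
`≤ 2 ε` in each coordinate; it is `-(w + w')` with `w = - z₀ p q`, `w' = z₁ p q` in `CA`. -/
theorem RR_sub {h : ℕ} (hh : 0 < h) {z₀ z₁ z₂ z₃ : Bl h} (h0 : z₀ ∈ RR h 0) (h1 : z₁ ∈ RR h 1)
    (h2 : z₂ ∈ RR h 2) (h3 : z₃ ∈ RR h 3) (he : z₀ - z₁ = z₂ - z₃) : False := by
  obtain ⟨p, hp⟩ := U3_RR2.1 h2
  obtain ⟨q, hq⟩ := U3_RR3.1 h3
  refine CA_add hh (U3_RR0.1 h0 p q) (U3_RR1.1 h1 p q) fun i => ?_
  have h4 : z₀ p q i - z₁ p q i = z₂ p q i - z₃ p q i :=
    congrFun (congrFun (congrFun he p) q) i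
  have h5 : -z₀ p q i + z₁ p q i = -(z₂ p q i - z₃ p q i) := by
    rw [← h4]
    abel
  show ‖-z₀ p q i + z₁ p q i‖ ≤ 2 * ee h
  rw [h5, norm_neg]
  have h6 := norm_sub_le (z₂ p q i) (z₃ p q i)
  have h7 := hp q i
  have h8 := hq p i
  linarith

theorem RR_disj {h : ℕ} (hh : 0 < h) {z : Bl h} (h1 : z ∈ RR h 1) (h2 : z ∈ RR h 2) : False := by
  obtain ⟨p, hp⟩ := U3_RR2.1 h2
  exact CA_ne hh (U3_RR1.1 h1 p ⟨0, hh⟩) fun i => hp ⟨0, hh⟩ i

-- END U3

-- BEGIN U4

theorem U4_CA (h : ℕ) : IsClosed (CA h) := by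
  have h1 : CA h = ⋃ j : Fin h, ({w : Fin h → S1 | ‖w j - aa h‖ ≤ ee h} ∩
      ⋂ l : Fin h, ⋂ _ : l < j, {w : Fin h → S1 | 4 * ee h ≤ ‖w l + aa h‖}) := by
    ext w
    simp only [CA, Set.mem_ofPred_eq, Set.mem_iUnion, Set.mem_inter_iff, Set.mem_iInter]
  rw [h1]
  refine isClosed_iUnion_of_finite fun j => IsClosed.inter ?_ ?_
  · exact isClosed_le (by fun_prop) continuous_const
  · exact isClosed_iInter fun l => isClosed_iInter fun _ =>
      isClosed_le continuous_const (by fun_prop)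

/-- finite unions and intersections of closed sets -/
theorem isClosed_RR (h : ℕ) (ρ : Fin 4) : IsClosed (RR h ρ) := by
  unfold RR
  split_ifs
  · have h1 : {z : Bl h | ∀ p q, (fun i => -z p q i) ∈ CA h} =
        ⋂ p, ⋂ q, (fun z : Bl h => fun i => -z p q i) ⁻¹' (CA h) := by
      ext z
      simp
    rw [h1]
    refine isClosed_iInter fun p => isClosed_iInter fun q => (U4_CA h).preimage ?_
    fun_prop
  · have h1 : {z : Bl h | ∀ p q, z p q ∈ CA h} =
        ⋂ p, ⋂ q, (fun z : Bl h => z p q) ⁻¹' (CA h) := by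
      ext z
      simp
    rw [h1]
    refine isClosed_iInter fun p => isClosed_iInter fun q => (U4_CA h).preimage ?_
    fun_prop
  · have h1 : {z : Bl h | ∃ p, ∀ q i, ‖z p q i‖ ≤ ee h} =
        ⋃ p, ⋂ q, ⋂ i, {z : Bl h | ‖z p q i‖ ≤ ee h} := by
      ext z
      simp
    rw [h1]
    exact isClosed_iUnion_of_finite fun p => isClosed_iInter fun q => isClosed_iInter fun i =>
      isClosed_le (by fun_prop) continuous_const
  · have h1 : {z : Bl h | ∃ q, ∀ p i, ‖z p q i‖ ≤ ee h} =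
        ⋃ q, ⋂ p, ⋂ i, {z : Bl h | ‖z p q i‖ ≤ ee h} := by
      ext z
      simp
    rw [h1]
    exact isClosed_iUnion_of_finite fun p => isClosed_iInter fun q => isClosed_iInter fun i =>
      isClosed_le (by fun_prop) continuous_const

-- END U4

-- BEGIN U5

/-- One step of the selection.  Proof: otherwise each `j ∈ U` has `φ j ∈ U` with
`‖F (φ j) - F j + 2 a‖ < 5 ε`.  Iterating `φ` (at most `U.card ≤ h` steps) one returns to the same
element: there are `j ∈ U` and `1 ≤ r ≤ h` with `φ^[r] j = j` (pigeonhole), so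
`‖r • 2 a‖ < r * (5 ε)`; but `‖r • 2 a‖ = r / (2 h) = 20 r ε`. -/
theorem exists_pick {h : ℕ} (hh : 0 < h) (F : Fin h → S1) (U : Finset (Fin h)) (hU : U.Nonempty) :
    ∃ j ∈ U, ∀ j' ∈ U, 5 * ee h ≤ ‖F j' - F j + (aa h + aa h)‖ := by
  classical
  by_contra hcon
  push Not at hcon
  obtain ⟨j0, hj0⟩ := hU
  have hne : Nonempty (Fin h) := ⟨j0⟩
  choose! φ hφ1 hφ2 using hcon
  have hg : ∀ i, φ^[i] j0 ∈ U := by
    intro i
    induction i with
    | zero => exact hj0
    | succ i ih =>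
      rw [Function.iterate_succ_apply']
      exact hφ1 _ ih
  have hsum : ∀ m n : ℕ, ‖F (φ^[m + n] j0) - F (φ^[m] j0) + n • (aa h + aa h)‖ ≤
      n * (5 * ee h) := by
    intro m n
    induction n with
    | zero => simp
    | succ n ih =>
      have h1 := (hφ2 _ (hg (m + n))).le
      have h2 : F (φ^[m + (n + 1)] j0) - F (φ^[m] j0) + (n + 1) • (aa h + aa h) =
          (F (φ^[m + n] j0) - F (φ^[m] j0) + n • (aa h + aa h)) +
            (F (φ (φ^[m + n] j0)) - F (φ^[m + n] j0) + (aa h + aa h)) := by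
        rw [← Function.iterate_succ_apply' φ, show m + (n + 1) = (m + n).succ from rfl, succ_nsmul]
        abel
      rw [h2]
      refine (norm_add_le _ _).trans ?_
      push_cast
      linarith
  obtain ⟨a, b, hab, hfab⟩ := Fintype.exists_ne_map_eq_of_card_lt
    (fun i : Fin (h + 1) => φ^[(i : ℕ)] j0) (by simp)
  have key : ∀ a b : Fin (h + 1), (a : ℕ) < b → φ^[(a : ℕ)] j0 = φ^[(b : ℕ)] j0 → False := by
    intro a b hlt heq
    have h1 := hsum a (b - a)
    have h2 : (a : ℕ) + (b - a) = b := by omega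
    rw [h2, ← heq, sub_self, zero_add, norm_smul_aa (by omega) (by omega)] at h1
    have h3 : (0 : ℝ) < ((b - a : ℕ) : ℝ) := by
      have : 0 < (b : ℕ) - a := by omega
      exact_mod_cast this
    have h4 : (0 : ℝ) < h := by exact_mod_cast hh
    have h5 : ((b - a : ℕ) : ℝ) * (5 * ee h) = ((b - a : ℕ) : ℝ) / (2 * h) / 4 := by
      unfold ee
      field_simp
      norm_num
    rw [h5] at h1
    have h6 : 0 < ((b - a : ℕ) : ℝ) / (2 * h) := by positivity
    linarith
  rcases lt_or_gt_of_ne (fun h => hab (Fin.ext h) : (a : ℕ) ≠ b) with hlt | hlt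
  · exact key a b hlt hfab
  · exact key b a hlt hfab.symm

-- END U5

-- BEGIN U6

theorem U6_aux {h : ℕ} (hh : 0 < h) (F : Fin h → Fin h → S1) : ∀ k : ℕ, k ≤ h →
    ∃ π : ℕ → Fin h, (∀ i < k, ∀ l < i, π l ≠ π i) ∧
      ∀ i : Fin h, i.1 < k → ∀ j', (∀ l < i.1, π l ≠ j') →
        5 * ee h ≤ ‖F j' i - F (π i.1) i + (aa h + aa h)‖ := by
  classical
  intro k
  induction k with
  | zero => exact fun _ => ⟨fun _ => ⟨0, hh⟩, by simp, by simp⟩
  | succ k ih =>
    intro hk
    obtain ⟨π, h1, h2⟩ := ih (by omega)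
    have hU : (Finset.univ.filter fun j : Fin h => ∀ l < k, π l ≠ j).Nonempty := by
      rw [Finset.nonempty_iff_ne_empty]
      intro he
      have h3 : Finset.univ ⊆ (Finset.range k).image π := by
        intro j _
        by_contra hj
        have h4 : j ∈ (Finset.univ.filter fun j : Fin h => ∀ l < k, π l ≠ j) := by
          rw [Finset.mem_filter]
          refine ⟨Finset.mem_univ _, fun l hl h5 => hj ?_⟩
          rw [← h5]
          exact Finset.mem_image_of_mem _ (Finset.mem_range.2 hl)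
        rw [he] at h4
        exact absurd h4 (Finset.notMem_empty _)
      have h4 := Finset.card_le_card h3
      have h5 := Finset.card_image_le (s := Finset.range k) (f := π)
      rw [Finset.card_univ, Fintype.card_fin] at h4
      rw [Finset.card_range] at h5
      omega
    obtain ⟨j, hj, h3⟩ := exists_pick hh (fun j => F j ⟨k, hk⟩) _ hU
    rw [Finset.mem_filter] at hj
    refine ⟨Function.update π k j, ?_, ?_⟩
    · intro i hi l hl
      rw [Function.update_of_ne (by omega)]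
      by_cases hik : i = k
      · subst hik
        rw [Function.update_self]
        exact hj.2 l hl
      · rw [Function.update_of_ne hik]
        exact h1 i (by omega) l hl
    · intro i hi j' hj'
      have h4 : ∀ l < i.1, π l ≠ j' := by
        intro l hl
        have h5 := hj' l hl
        rwa [Function.update_of_ne (by omega)] at h5
      by_cases hik : i.1 = k
      · rw [hik, Function.update_self]
        have h5 : i = ⟨k, hk⟩ := Fin.ext hik
        rw [h5]
        refine h3 j' ?_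
        rw [Finset.mem_filter]
        refine ⟨Finset.mem_univ _, ?_⟩
        rw [← hik]
        exact h4
      · rw [Function.update_of_ne hik]
        exact h2 i (by omega) j' h4

/-- Proof: put `U 0 = univ`, let `π i ∈ U i` be given by `exists_pick` for the `i`-th coordinates
`fun j => F j i` and `U i`, `U (i + 1) = U i \ {π i}`, `z i = F (π i) i - a`.  Since the `U i` lose
one element in each step, each `j` is `π i` for exactly one `i < h`, and `j ∈ U l` for all `l ≤ i`.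
So `F j i - z i = a`, and `F j l - z l + a = F j l - F (π l) l + 2 a` has norm `≥ 5 ε` for `l < i`.
The perturbation changes each coordinate by at most `ε / 2`. -/
theorem CA_univ {h : ℕ} (hh : 0 < h) (F : Fin h → Fin h → S1) :
    ∃ z : Fin h → S1, ∀ (j : Fin h) (f' z' : Fin h → S1), (∀ i, ‖f' i - F j i‖ ≤ ee h / 4) →
      (∀ i, ‖z' i - z i‖ ≤ ee h / 4) → (fun i => f' i - z' i) ∈ CA h := by
  obtain ⟨π, h1, h2⟩ := U6_aux hh F h le_rfl
  have hee : 0 ≤ ee h := by
    unfold ee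
    positivity
  have hinj : Function.Injective fun i : Fin h => π i.1 := by
    intro i l hil
    by_contra hne
    rcases lt_or_gt_of_ne (fun h => hne (Fin.ext h) : i.1 ≠ l.1) with h3 | h3
    · exact h1 l.1 l.2 i.1 h3 hil
    · exact h1 i.1 i.2 l.1 h3 hil.symm
  have hsurj := Finite.surjective_of_injective hinj
  refine ⟨fun i => F (π i.1) i - aa h, fun j f' z' hf hz => ?_⟩
  obtain ⟨i, rfl⟩ := hsurj j
  refine ⟨i, ?_, fun l hl => ?_⟩
  · have h3 : f' i - z' i - aa h = (f' i - F (π i.1) i) - (z' i - (F (π i.1) i - aa h)) := by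
      abel
    rw [h3]
    have h4 := norm_sub_le (f' i - F (π i.1) i) (z' i - (F (π i.1) i - aa h))
    have h5 := hf i
    have h6 := hz i
    simp only at h5 h6
    linarith
  · have h3 := h2 l l.2 (π i.1) fun m hm => h1 i.1 i.2 m (hm.trans hl)
    have h4 : F (π i.1) l - F (π l.1) l + (aa h + aa h) =
        (f' l - z' l + aa h) - ((f' l - F (π i.1) l) - (z' l - (F (π l.1) l - aa h))) := by
      abel
    rw [h4] at h3
    have h5 := norm_sub_le (f' l - z' l + aa h)
      ((f' l - F (π i.1) l) - (z' l - (F (π l.1) l - aa h)))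
    have h6 := norm_sub_le (f' l - F (π i.1) l) (z' l - (F (π l.1) l - aa h))
    have h7 := hf l
    have h8 := hz l
    simp only at h7 h8
    show 4 * ee h ≤ ‖f' l - z' l + aa h‖
    linarith

-- END U6

-- BEGIN U7

theorem U7_bound {h : ℕ} (x y u v : S1) (huv : u = v) (h1 : ‖x - u‖ ≤ ee h / 4)
    (h2 : ‖y - v‖ ≤ ee h / 4) : ‖x - y‖ ≤ ee h := by
  have hx : x - y = (x - u) - (y - v) := by rw [huv]; abel
  have h0 : 0 ≤ ee h := by
    have := norm_nonneg (x - u)
    linarith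
  calc ‖x - y‖ = ‖(x - u) - (y - v)‖ := by rw [← hx]
    _ ≤ ‖x - u‖ + ‖y - v‖ := norm_sub_le _ _
    _ ≤ ee h := by linarith

/-- Proof.  `ρ = 2`: `z p q i = F p p q i` (row `j` of `F j - z` vanishes).  `ρ = 3`:
`z p q i = F q p q i`.  `ρ = 1`: apply `CA_univ` to each entry `(p, q)`.  `ρ = 0`: apply `CA_univ` to
`-F` and take `-z`. -/
theorem RR_univ {h : ℕ} (hh : 0 < h) (F : Fin h → Bl h) (ρ : Fin 4) :
    ∃ z : Bl h, ∀ (j : Fin h) (f' z' : Bl h), (∀ p q i, ‖f' p q i - F j p q i‖ ≤ ee h / 4) →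
      (∀ p q i, ‖z' p q i - z p q i‖ ≤ ee h / 4) → f' - z' ∈ RR h ρ := by
  by_cases h0 : ρ = 0
  · subst h0
    have hc : ∀ p q : Fin h, ∃ z : Fin h → S1, ∀ (j : Fin h) (f' z' : Fin h → S1),
        (∀ i, ‖f' i - (fun j i => -F j p q i) j i‖ ≤ ee h / 4) →
        (∀ i, ‖z' i - z i‖ ≤ ee h / 4) → (fun i => f' i - z' i) ∈ CA h :=
      fun p q => CA_univ hh (fun j i => -F j p q i)
    choose z hz using hc
    refine ⟨fun p q i => -z p q i, fun j f' z' h1 h2 => ?_⟩
    have hg : ∀ p q, (fun i => -(f' - z') p q i) ∈ CA h := by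
      intro p q
      have h3 := hz p q j (fun i => -f' p q i) (fun i => -z' p q i) (fun i => by
        have h4 : (fun i => -f' p q i) i - (fun j i => -F j p q i) j i
            = -(f' p q i - F j p q i) := by
          change -f' p q i - -F j p q i = _
          abel
        rw [h4, norm_neg]
        exact h1 p q i) (fun i => by
        have h4 : (fun i => -z' p q i) i - z p q i = -(z' p q i - -z p q i) := by
          change -z' p q i - z p q i = _
          abel
        rw [h4, norm_neg]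
        exact h2 p q i)
      have h5 : (fun i => -(f' - z') p q i)
          = fun i => (fun i => -f' p q i) i - (fun i => -z' p q i) i := by
        funext i
        change -(f' p q i - z' p q i) = -f' p q i - -z' p q i
        abel
      rw [h5]
      exact h3
    have : f' - z' ∈ {z : Bl h | ∀ p q, (fun i => -z p q i) ∈ CA h} := hg
    rw [RR, if_pos rfl]
    exact this
  · by_cases h1 : ρ = 1
    · subst h1
      have hc : ∀ p q : Fin h, ∃ z : Fin h → S1, ∀ (j : Fin h) (f' z' : Fin h → S1),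
          (∀ i, ‖f' i - (fun j i => F j p q i) j i‖ ≤ ee h / 4) →
          (∀ i, ‖z' i - z i‖ ≤ ee h / 4) → (fun i => f' i - z' i) ∈ CA h :=
        fun p q => CA_univ hh (fun j i => F j p q i)
      choose z hz using hc
      refine ⟨fun p q i => z p q i, fun j f' z' h1 h2 => ?_⟩
      have hg : ∀ p q, (f' - z') p q ∈ CA h := fun p q =>
        hz p q j (fun i => f' p q i) (fun i => z' p q i) (fun i => h1 p q i) (fun i => h2 p q i)
      rw [RR, if_neg h0, if_pos rfl]
      exact hg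
    · by_cases h2 : ρ = 2
      · subst h2
        refine ⟨fun p q i => F p p q i, fun j f' z' h3 h4 => ?_⟩
        rw [RR, if_neg h0, if_neg h1, if_pos rfl]
        exact ⟨j, fun q i => U7_bound (f' j q i) (z' j q i) _ _ rfl (h3 j q i) (h4 j q i)⟩
      · refine ⟨fun p q i => F q p q i, fun j f' z' h3 h4 => ?_⟩
        rw [RR, if_neg h0, if_neg h1, if_neg h2]
        exact ⟨j, fun p i => U7_bound (f' p j i) (z' p j i) _ _ rfl (h3 p j i) (h4 p j i)⟩

-- END U7

end Pool.Agent.Lib.MP_034dba_lc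
end

section

set_option autoImplicit false

namespace Pool.Agent.Lib.MP_034dba_lc

theorem rho_loc (n : ℕ) (c c' : Ct) (h : ∀ i < n, c i = c' i) : rho n c = rho n c' :=
  exists_rho.choose_spec.1 n c c' h

theorem rho_spec (S : Finset Ct) (g : Ct → Fin 4) (N : ℕ) :
    ∃ n, N ≤ n ∧ ∀ c ∈ S, rho n c = g c := exists_rho.choose_spec.2 S g N

-- BEGIN C1

theorem hh_pos (n : ℕ) : 0 < hh n := Nat.add_pos_left (Nat.two_pow_pos n) n

theorem Dm_mono {m m' : ℕ} (h : m ≤ m') (c : Ct) : Dm m c ⊆ Dm m' c :=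
  fun _ hy n hn => hy n (h.trans hn)

theorem Th_add (n : ℕ) (x y : S1) : Th n (x + y) = Th n x + Th n y := by
  funext p q i
  exact smul_add _ x y

theorem Th_sub (n : ℕ) (x y : S1) : Th n (x - y) = Th n x - Th n y := by
  funext p q i
  exact smul_sub _ x y

theorem continuous_Th (n : ℕ) : Continuous (Th n) :=
  continuous_pi fun _ => continuous_pi fun _ => continuous_pi fun _ => continuous_const_smul _

theorem C1_rho (n : ℕ) : IsLocallyConstant (rho n) := by
  rw [IsLocallyConstant.iff_eventually_eq]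
  intro c
  have h : {c' : Ct | ∀ i < n, c' i = c i} = ⋂ i ∈ Finset.range n, {c' : Ct | c' i = c i} := by
    ext y
    simp
  have ho : IsOpen {c' : Ct | ∀ i < n, c' i = c i} := by
    rw [h]
    refine isOpen_biInter_finset fun i _ => ?_
    have h2 : Continuous (fun c' : Ct => c' i) := continuous_apply i
    exact (isOpen_discrete ({c i} : Set Bool)).preimage h2
  exact Filter.mem_of_superset (ho.mem_nhds fun _ _ => rfl) fun c' hc' => rho_loc n c' c hc'

/-- Proof: for fixed `n` the condition `Th n y ∈ RR (hh n) (rho n c)` is closed: `rho n` is locally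
constant by `rho_loc`, `RR` is closed by `isClosed_RR`. -/
theorem isClosed_Dm (m : ℕ) : IsClosed {z : S1 × Ct | z.1 ∈ Dm m z.2} := by
  have h : {z : S1 × Ct | z.1 ∈ Dm m z.2} = ⋂ n, ⋂ (_ : m ≤ n), ⋃ ρ : Fin 4,
      ((fun z : S1 × Ct => rho n z.2) ⁻¹' {ρ} ∩ (fun z : S1 × Ct => Th n z.1) ⁻¹' RR (hh n) ρ) := by
    ext z
    simp only [Set.mem_iInter, Set.mem_iUnion, Set.mem_inter_iff, Set.mem_preimage,
      Set.mem_singleton_iff]
    constructor
    · intro hz n hn
      exact ⟨rho n z.2, rfl, hz n hn⟩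
    · intro hz n hn
      obtain ⟨ρ, h1, h2⟩ := hz n hn
      rw [h1]
      exact h2
  rw [h]
  refine isClosed_iInter fun n => isClosed_iInter fun _ => isClosed_iUnion_of_finite fun ρ => ?_
  exact ((isClosed_discrete {ρ}).preimage ((C1_rho n).continuous.comp continuous_snd)).inter
    ((isClosed_RR (hh n) ρ).preimage ((continuous_Th n).comp continuous_fst))

-- END C1

-- BEGIN C2

/-- Proof: otherwise choose `n ≥ max m m'` with `rho n c = 1`, `rho n c' = 2` (`rho_spec`) and use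
`RR_disj`. -/
theorem Dm_unique {m m' : ℕ} {c c' : Ct} {y : S1} (h : y ∈ Dm m c) (h' : y ∈ Dm m' c') :
    c = c' := by
  classical
  by_contra hne
  obtain ⟨n, hn, hr⟩ := rho_spec {c, c'} (fun x => if x = c then 1 else 2) (max m m')
  have h1 : rho n c = 1 := by rw [hr c (by simp), if_pos rfl]
  have h2 : rho n c' = 2 := by rw [hr c' (by simp), if_neg (Ne.symm hne)]
  have h3 := h n (le_trans (le_max_left _ _) hn)
  have h4 := h' n (le_trans (le_max_right _ _) hn)
  rw [h1] at h3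
  rw [h2] at h4
  exact RR_disj (hh_pos n) h3 h4

/-- Proof: otherwise choose a large `n` with `rho n c = 2` and `rho n c' = rho n c'' = 1` and use
`RR_add` for `Th n`. -/
theorem Dm_add {m m' m'' : ℕ} {c c' c'' : Ct} {y y' y'' : S1} (h : y ∈ Dm m c)
    (h' : y' ∈ Dm m' c') (h'' : y'' ∈ Dm m'' c'') (he : y = y' + y'') : c = c' ∨ c = c'' := by
  classical
  by_contra hne
  rw [not_or] at hne
  obtain ⟨n, hn, hr⟩ := rho_spec {c, c', c''} (fun x => if x = c then 2 else 1)
    (max m (max m' m''))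
  have h1 : rho n c = 2 := by rw [hr c (by simp), if_pos rfl]
  have h2 : rho n c' = 1 := by rw [hr c' (by simp), if_neg (Ne.symm hne.1)]
  have h3 : rho n c'' = 1 := by rw [hr c'' (by simp), if_neg (Ne.symm hne.2)]
  have hm := max_le_iff.1 hn
  have hm' := max_le_iff.1 hm.2
  have h4 := h n hm.1
  have h5 := h' n hm'.1
  have h6 := h'' n hm'.2
  rw [h1] at h4
  rw [h2] at h5
  rw [h3] at h6
  exact RR_add (hh_pos n) h4 h5 h6 (by rw [he, Th_add])

/-- Proof: choose a large `n` at which the roles of the four codes are `0, 1, 2, 3`; `RR_sub`. -/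
theorem Dm_four {m₀ m₁ m₂ m₃ : ℕ} {c₀ c₁ c₂ c₃ : Ct} {y₀ y₁ y₂ y₃ : S1} (h0 : y₀ ∈ Dm m₀ c₀)
    (h1 : y₁ ∈ Dm m₁ c₁) (h2 : y₂ ∈ Dm m₂ c₂) (h3 : y₃ ∈ Dm m₃ c₃) (he : y₀ - y₁ = y₂ - y₃)
    (h01 : c₀ ≠ c₁) (h02 : c₀ ≠ c₂) (h03 : c₀ ≠ c₃) (h12 : c₁ ≠ c₂) (h13 : c₁ ≠ c₃)
    (h23 : c₂ ≠ c₃) : False := by
  classical
  obtain ⟨n, hn, hr⟩ := rho_spec {c₀, c₁, c₂, c₃}
    (fun x => if x = c₀ then 0 else if x = c₁ then 1 else if x = c₂ then 2 else 3)
    (max m₀ (max m₁ (max m₂ m₃)))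
  have r0 : rho n c₀ = 0 := by rw [hr c₀ (by simp), if_pos rfl]
  have r1 : rho n c₁ = 1 := by rw [hr c₁ (by simp), if_neg h01.symm, if_pos rfl]
  have r2 : rho n c₂ = 2 := by
    rw [hr c₂ (by simp), if_neg h02.symm, if_neg h12.symm, if_pos rfl]
  have r3 : rho n c₃ = 3 := by
    rw [hr c₃ (by simp), if_neg h03.symm, if_neg h13.symm, if_neg h23.symm]
  have hm := max_le_iff.1 hn
  have hm' := max_le_iff.1 hm.2
  have hm'' := max_le_iff.1 hm'.2
  have t0 := h0 n hm.1
  have t1 := h1 n hm'.1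
  have t2 := h2 n hm''.1
  have t3 := h3 n hm''.2
  rw [r0] at t0
  rw [r1] at t1
  rw [r2] at t2
  rw [r3] at t3
  exact RR_sub (hh_pos n) t0 t1 t2 t3 (by rw [← Th_sub, ← Th_sub, he])

/-- Proof: `Th n 0 = 0` is in `RR _ 2`; choose `n ≥ m` with `rho n c = 1`, `RR_disj`. -/
theorem zero_notMem_Dm (m : ℕ) (c : Ct) : (0 : S1) ∉ Dm m c := by
  classical
  intro h
  obtain ⟨n, hn, hr⟩ := rho_spec {c} (fun _ => 1) m
  have h1 := h n hn
  rw [hr c (by simp)] at h1
  refine RR_disj (hh_pos n) h1 ?_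
  unfold RR
  rw [if_neg (by decide), if_neg (by decide), if_pos rfl]
  refine ⟨⟨0, hh_pos n⟩, fun q i => ?_⟩
  unfold Th
  rw [smul_zero, norm_zero]
  unfold ee
  positivity

-- END C2

-- BEGIN C3

/-- Proof: `0 ∈ CC j` gives `tk k c - tc c = 0 ∈ Dm j c`. -/
theorem zero_notMem_CC (j : ℕ) : (0 : S1) ∉ CC j := by
  rintro ⟨c, k, -, hD, h⟩
  have h0 : tk k c - tc c = 0 := by
    rcases h with h | h
    · rw [← neg_sub, ← h, neg_zero]
    · exact h.symm
  rw [h0] at hD
  exact zero_notMem_Dm j c hD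

theorem CC_mono {j j' : ℕ} (h : j ≤ j') : CC j ⊆ CC j' := by
  rintro s ⟨c, k, hk, hD, hs⟩
  exact ⟨c, k, hk.trans h, Dm_mono h c hD, hs⟩

theorem continuous_tc : Continuous tc :=
  continuous_val.comp (continuous_pi fun i => continuous_apply (Nat.pair 0 i))

theorem continuous_tk (k : ℕ) : Continuous (tk k) :=
  continuous_val.comp (continuous_pi fun i => continuous_apply (Nat.pair (k + 2) i))

/-- Proof: `CC j` is a finite union (`k ≤ j`, two signs) of images of compact subsets of `Ct`. -/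
theorem isClosed_CC (j : ℕ) : IsClosed (CC j) := by
  have h : CC j = ⋃ k ∈ Set.Iic j,
      ((fun c => tc c - tk k c) '' {c | tk k c - tc c ∈ Dm j c} ∪
        (fun c => tk k c - tc c) '' {c | tk k c - tc c ∈ Dm j c}) := by
    ext s
    simp only [Set.mem_iUnion, Set.mem_union, Set.mem_image]
    constructor
    · rintro ⟨c, k, hk, hD, hs | hs⟩
      · exact ⟨k, hk, Or.inl ⟨c, hD, hs.symm⟩⟩
      · exact ⟨k, hk, Or.inr ⟨c, hD, hs.symm⟩⟩
    · rintro ⟨k, hk, ⟨c, hD, hs⟩ | ⟨c, hD, hs⟩⟩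
      · exact ⟨c, k, hk, hD, Or.inl hs.symm⟩
      · exact ⟨c, k, hk, hD, Or.inr hs.symm⟩
  have hK : ∀ k, IsCompact {c : Ct | tk k c - tc c ∈ Dm j c} := by
    intro k
    refine IsClosed.isCompact ?_
    have h1 : Continuous fun c : Ct => ((tk k c - tc c, c) : S1 × Ct) :=
      ((continuous_tk k).sub continuous_tc).prodMk continuous_id
    exact (isClosed_Dm j).preimage h1
  rw [h]
  refine (Set.finite_Iic j).isClosed_biUnion fun k _ => ?_
  exact (((hK k).image (continuous_tc.sub (continuous_tk k))).isClosed).union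
    (((hK k).image ((continuous_tk k).sub continuous_tc)).isClosed)

-- END C3

-- BEGIN C4

/-- `cod l b` determines `l` and the first `l` digits, and depends only on them. -/
theorem cod_eq {l l' : ℕ} {b b' : Ct} : cod l b = cod l' b' ↔ l = l' ∧ ∀ i < l, b i = b' i := by
  unfold cod
  rw [Encodable.encode_inj]
  constructor
  · intro h
    have h1 : l = l' := by
      have := congrArg List.length h
      simpa using this
    subst h1
    refine ⟨rfl, fun i hi => ?_⟩
    rw [List.map_inj_left] at h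
    exact h i (List.mem_range.2 hi)
  · rintro ⟨rfl, h⟩
    rw [List.map_inj_left]
    intro i hi
    exact h i (List.mem_range.1 hi)

theorem C4_continuous_digit (c : Ct × Ct → ℕ) (hc : Continuous c) :
    Continuous fun z : Ct × Ct => z.1 (c z) := by
  rw [continuous_iff_continuousAt]
  intro z
  have h1 : ∀ᶠ w in nhds z, c w = c z :=
    (hc.tendsto z).eventually ((isOpen_discrete {c z}).mem_nhds rfl)
  have h2 : Continuous fun w : Ct × Ct => w.1 (c z) := (continuous_apply (c z)).comp continuous_fst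
  refine (h2.continuousAt (x := z)).congr ?_
  filter_upwards [h1] with w hw
  rw [hw]

theorem C4_continuous_cod (l : ℕ) : Continuous (cod l) := by
  rw [continuous_iff_continuousAt]
  intro b
  have h1 : ∀ᶠ b' in nhds b, ∀ i ∈ Finset.range l, b' i = b i := by
    rw [Filter.eventually_all_finset]
    intro i _
    exact ((continuous_apply i).tendsto b).eventually ((isOpen_discrete {b i}).mem_nhds rfl)
  refine (continuousAt_const : ContinuousAt (fun _ => cod l b) b).congr ?_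
  filter_upwards [h1] with b' hb'
  exact cod_eq.2 ⟨rfl, fun i hi => (hb' i (Finset.mem_range.2 hi)).symm⟩

/-- the condition at one level is closed -/
theorem C4_isClosed_level (l : ℕ) : IsClosed
    {z : S1 × Ct | ∃ b : Ct, val b = z.1 ∧ z.2 (Nat.pair 1 (cod l b)) = true} := by
  have h1 : IsClosed {w : (S1 × Ct) × Ct | val w.2 = w.1.1 ∧
      w.1.2 (Nat.pair 1 (cod l w.2)) = true} := by
    refine IsClosed.inter ?_ ?_
    · exact isClosed_eq (continuous_val.comp continuous_snd) (continuous_fst.comp continuous_fst)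
    · have h2 : Continuous fun w : (S1 × Ct) × Ct => w.1.2 (Nat.pair 1 (cod l w.2)) := by
        have h3 := C4_continuous_digit (fun z => Nat.pair 1 (cod l z.2))
          ((continuous_of_discreteTopology (f := fun n : ℕ => Nat.pair 1 n)).comp
            ((C4_continuous_cod l).comp continuous_snd))
        exact h3.comp ((continuous_snd.comp continuous_fst).prodMk continuous_snd)
      exact isClosed_eq h2 continuous_const
  have h2 := isClosedMap_fst_of_compactSpace (X := S1 × Ct) (Y := Ct) _ h1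
  convert h2 using 1
  ext z
  constructor
  · rintro ⟨b, hb1, hb2⟩
    exact ⟨(z, b), ⟨hb1, hb2⟩, rfl⟩
  · rintro ⟨⟨z', b⟩, ⟨hb1, hb2⟩, rfl⟩
    exact ⟨b, hb1, hb2⟩

/-- Proof: for fixed `l` the set is the projection of a closed subset of `(S1 × Ct) × Ct` along the
compact space `Ct`, and `b ↦ cod l b` is locally constant. -/
theorem isClosed_KK : IsClosed {z : S1 × Ct | z.1 ∈ KK z.2} := by
  have h1 : {z : S1 × Ct | z.1 ∈ KK z.2} = ⋂ l, {z : S1 × Ct | ∃ b : Ct, val b = z.1 ∧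
      z.2 (Nat.pair 1 (cod l b)) = true} := by
    ext z
    rw [Set.mem_iInter]
    exact Iff.rfl
  rw [h1]
  exact isClosed_iInter C4_isClosed_level

theorem isClosed_Kl (l : ℕ) (c : Ct) : IsClosed (Kl l c) := by
  have h1 : Kl l c = ⋂ l', ⋂ (_ : l' ≤ l), {x : S1 | ∃ b : Ct, val b = x ∧
      c (Nat.pair 1 (cod l' b)) = true} := by
    ext x
    simp only [Set.mem_iInter]
    exact Iff.rfl
  rw [h1]
  refine isClosed_iInter fun l' => isClosed_iInter fun _ => ?_
  exact (C4_isClosed_level l').preimage (Continuous.prodMk_left c)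

-- END C4

-- BEGIN C5

theorem C5_finite (l : ℕ) :
    {v : ℕ | ∃ l' ≤ l, ∃ b : Ct, v = Nat.pair 1 (cod l' b)}.Finite := by
  have h1 : {v : ℕ | ∃ l' ≤ l, ∃ b : Ct, v = Nat.pair 1 (cod l' b)} ⊆
      ⋃ l' ∈ Set.Iic l, (fun s : List Bool => Nat.pair 1 (Encodable.encode s)) ''
        {s : List Bool | s.length = l'} := by
    rintro v ⟨l', hl', b, rfl⟩
    simp only [Set.mem_iUnion]
    exact ⟨l', hl', (List.range l').map b, by simp, rfl⟩
  refine Set.Finite.subset ?_ h1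
  exact Set.Finite.biUnion (Set.finite_Iic l) fun l' _ => (List.finite_length_eq Bool l').image _

theorem C5_Kl {l : ℕ} {c c' : Ct}
    (h : ∀ v ∈ {v : ℕ | ∃ l' ≤ l, ∃ b : Ct, v = Nat.pair 1 (cod l' b)}, c' v = c v) :
    Kl l c' = Kl l c := by
  ext x
  constructor
  · intro hx l' hl'
    obtain ⟨b, h1, h2⟩ := hx l' hl'
    exact ⟨b, h1, (h _ ⟨l', hl', b, rfl⟩).symm.trans h2⟩
  · intro hx l' hl'
    obtain ⟨b, h1, h2⟩ := hx l' hl'
    exact ⟨b, h1, (h _ ⟨l', hl', b, rfl⟩).trans h2⟩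

theorem C5_isOpen (c : Ct) {P : Set ℕ} (hP : P.Finite) :
    IsOpen {c' : Ct | ∀ v ∈ P, c' v = c v} := by
  have h1 : {c' : Ct | ∀ v ∈ P, c' v = c v} = ⋂ v ∈ P, (fun c' : Ct => c' v) ⁻¹' {c v} := by
    ext c'
    simp
  rw [h1]
  exact hP.isOpen_biInter fun v _ => (isOpen_discrete _).preimage (continuous_apply v)

/-- Proof: if `c ∉ Gl j l`, then the same is true for each `c'` which agrees with `c` on the finite
set of the places `Nat.pair 1 (cod l' b)`, `l' ≤ l` (finite by `cod_eq`). -/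
theorem isClosed_Gl (j l : ℕ) : IsClosed (Gl j l) := by
  rw [← isOpen_compl_iff, isOpen_iff_mem_nhds]
  intro c hc
  refine Filter.mem_of_superset ((C5_isOpen c (C5_finite l)).mem_nhds fun v _ => rfl) ?_
  intro c' hc' h1
  apply hc
  have h2 := C5_Kl hc'
  intro x hx x' hx'
  rw [← h2] at hx hx'
  exact h1 x hx x' hx'

theorem Gl_mono {j l l' : ℕ} (h : l ≤ l') : Gl j l ⊆ Gl j l' := by
  intro c hc x hx x' hx'
  exact hc x (fun m hm => hx m (hm.trans h)) x' fun m hm => hx' m (hm.trans h)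

/-- Proof: `KK c = ⋂ l, Kl l c` is a decreasing intersection of compact sets and `CC j` is closed, so
if the difference set of `KK c` avoids `CC j` the same is true for some `Kl l c` (compactness of
`S1 × S1`). -/
theorem exists_Gl {j : ℕ} {c : Ct} :
    (∃ l, c ∈ Gl j l) ↔ ∀ x ∈ KK c, ∀ x' ∈ KK c, x - x' ∉ CC j := by
  constructor
  · rintro ⟨l, hl⟩ x hx x' hx'
    exact hl x (fun m _ => hx m) x' fun m _ => hx' m
  · intro h
    by_contra hcon
    push Not at hcon
    let S : ℕ → Set (S1 × S1) := fun l =>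
      {z | z.1 ∈ Kl l c} ∩ ({z | z.2 ∈ Kl l c} ∩ {z | z.1 - z.2 ∈ CC j})
    have hcl : ∀ l, IsClosed (S l) := fun l =>
      ((isClosed_Kl l c).preimage continuous_fst).inter
        (((isClosed_Kl l c).preimage continuous_snd).inter
          ((isClosed_CC j).preimage (continuous_fst.sub continuous_snd)))
    have hne : ∀ l, (S l).Nonempty := by
      intro l
      have h1 := hcon l
      simp only [Gl, Set.mem_ofPred_eq, not_forall, not_not] at h1
      obtain ⟨x, hx, x', hx', h2⟩ := h1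
      exact ⟨(x, x'), hx, hx', h2⟩
    have hmono : ∀ l, S (l + 1) ⊆ S l := by
      rintro l ⟨x, x'⟩ ⟨h1, h2, h3⟩
      exact ⟨fun m hm => h1 m (hm.trans (Nat.le_succ l)),
        fun m hm => h2 m (hm.trans (Nat.le_succ l)), h3⟩
    obtain ⟨⟨x, x'⟩, hx⟩ := IsCompact.nonempty_iInter_of_sequence_nonempty_isCompact_isClosed S
      hmono hne (hcl 0).isCompact hcl
    rw [Set.mem_iInter] at hx
    exact h x (fun l => (hx l).1 l le_rfl) x' (fun l => (hx l).2.1 l le_rfl) (hx 0).2.2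

-- END C5

-- BEGIN C6

/-- Proof: projection of a closed set along the compact space `Ct` (`isClosed_Gl`, `isClosed_Dm`,
`isClosed_KK`, `continuous_tc`). -/
theorem isClosed_FF (j m : ℕ) : IsClosed (FF j m) := by
  have h1 : IsClosed {z : S1 × Ct | z.2 ∈ Gl j m ∧ z.1 ∈ Dm m z.2 ∧ z.1 + tc z.2 ∈ KK z.2} := by
    refine IsClosed.and ?_ (IsClosed.and ?_ ?_)
    · exact (isClosed_Gl j m).preimage continuous_snd
    · exact isClosed_Dm m
    · have hc : Continuous fun z : S1 × Ct => (z.1 + tc z.2, z.2) :=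
        (continuous_fst.add (continuous_tc.comp continuous_snd)).prodMk continuous_snd
      exact isClosed_KK.preimage hc
  have h2 := isClosedMap_fst_of_compactSpace (X := S1) (Y := Ct) _ h1
  convert h2 using 1
  ext y
  constructor
  · rintro ⟨c, h3, h4, h5⟩
    exact ⟨(y, c), ⟨h3, h4, h5⟩, rfl⟩
  · rintro ⟨⟨y', c⟩, ⟨h3, h4, h5⟩, rfl⟩
    exact ⟨c, h3, h4, h5⟩

/-- Proof.  From left to right: for each `j` there are `m j` and `c j ∈ Gl j (m j)` with
`y ∈ Dm (m j) (c j)`; by `Dm_unique` all `c j` are the same code; `exists_Gl`.  From right to left: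
for `j` take `m'` larger than `m` and than the `l` of `exists_Gl`; `Dm_mono`, `Gl_mono`. -/
theorem mem_BB {y : S1} : y ∈ BB ↔ ∃ m c, y ∈ Dm m c ∧ y + tc c ∈ KK c ∧
    ∀ j, ∀ x ∈ KK c, ∀ x' ∈ KK c, x - x' ∉ CC j := by
  constructor
  · intro h
    have h1 : ∀ j, ∃ m c, c ∈ Gl j m ∧ y ∈ Dm m c ∧ y + tc c ∈ KK c := by
      intro j
      obtain ⟨m, hm⟩ := Set.mem_iUnion.1 (Set.mem_iInter.1 h j)
      obtain ⟨c, hc⟩ := hm
      exact ⟨m, c, hc⟩
    choose m c hG hD hK using h1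
    refine ⟨m 0, c 0, hD 0, hK 0, fun j => ?_⟩
    have heq : c j = c 0 := Dm_unique (hD j) (hD 0)
    have h2 := hG j
    rw [heq] at h2
    exact exists_Gl.1 ⟨_, h2⟩
  · rintro ⟨m, c, hD, hK, h⟩
    refine Set.mem_iInter.2 fun j => ?_
    obtain ⟨l, hl⟩ := exists_Gl.2 (h j)
    exact Set.mem_iUnion.2 ⟨max m l, c, Gl_mono (le_max_right _ _) hl,
      Dm_mono (le_max_left _ _) c hD, hK⟩

/-- Disjointness.  Proof: suppose `y = x - tc e ∈ BB` with the code `c'` and `y'' = x - tk k e ∈ BB`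
with the code `c''` (`mem_BB`).  As `y = y'' + (tk k e - tc e)`, `Dm_add` gives `c' = c''` or
`c' = e`.  If `c' = e` then `x = y + tc e ∈ KK e`, which contradicts `h2`.  If `c' = c''`, then
`y'' + tc c'` and `y + tc c'` are in `KK c'` and their difference `y'' - y = tc e - tk k e` is in
`CC (max k m)` (`Dm_mono`), a contradiction. -/
theorem disjoint_BB {k m : ℕ} {e : Ct} (h1 : tk k e - tc e ∈ Dm m e)
    (h2 : ∀ x ∈ KK e, x - tk k e ∉ BB) (x : S1) (hx : x - tc e ∈ BB) : x - tk k e ∉ BB := by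
  intro hx'
  obtain ⟨m₁, c₁, hD₁, hK₁, hC₁⟩ := mem_BB.1 hx
  obtain ⟨m₂, c₂, hD₂, hK₂, hC₂⟩ := mem_BB.1 hx'
  rcases Dm_add hD₁ hD₂ h1 (by abel) with heq | heq
  · subst heq
    refine hC₁ (max k m) _ hK₂ _ hK₁ ⟨e, k, le_max_left _ _, Dm_mono (le_max_right _ _) e h1,
      Or.inl ?_⟩
    abel
  · subst heq
    refine h2 x ?_ hx'
    have : x - tc c₁ + tc c₁ = x := by abel
    rwa [this] at hK₁

-- END C6

-- BEGIN C7

/-- Oriented finite version of `no_rect`.  Proof: for `x ∈ A`, `x' ∈ A'` let `c x x'` be the code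
with `x' - x ∈ Dm j (c x x')`, `x' - x = tk k c - tc c`, `k ≤ j`.  (1) For `x'₁ ≠ x'₂` in `A'` the
set `X = {x ∈ A | c x x'₁ ≠ c x x'₂}` has at most `4 (j + 1)` elements: given `x₁ ∈ X`, at most
`4 (j + 1)` members `x` of `X` have `c x x'₁` or `c x x'₂` in `{c x₁ x'₁, c x₁ x'₂}` (since
`x = x'₁ - (tk k c - tc c)` or `x = x'₂ - (tk k c - tc c)` with `k ≤ j`); another `x₂ ∈ X` would give
four different codes and `(x'₁ - x₁) - (x'₂ - x₁) = (x'₁ - x₂) - (x'₂ - x₂)`, against `Dm_four`.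
(2) For fixed `x` and `c` at most `j + 1` points `x'` have `c x x' = c` (`x' = x + tk k c - tc c`).
Now take `j + 2` points of `A'`; there are at most `(j + 2) ^ 2` pairs of them, so some `x ∈ A` is
outside of the exceptional sets of (1) for all pairs; all the codes `c x x'` are equal for this `x`,
against (2). -/
theorem no_rect_fin {j : ℕ} {A A' : Set S1} (hA : ∃ S : Finset S1, (S : Set S1) ⊆ A ∧
    (j + 2) ^ 2 * (4 * (j + 1)) + 1 ≤ S.card) (hA' : ∃ S : Finset S1,
    (S : Set S1) ⊆ A' ∧ j + 2 ≤ S.card)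
    (h : ∀ x ∈ A, ∀ x' ∈ A', ∃ c k, k ≤ j ∧ tk k c - tc c ∈ Dm j c ∧ x' - x = tk k c - tc c) :
    False := by
  classical
  obtain ⟨S, hSA, hSc⟩ := hA
  obtain ⟨S', hSA', hSc'⟩ := hA'
  obtain ⟨T, hTS, hTc⟩ := Finset.exists_subset_card_eq hSc'
  choose! c k hk hD he using h
  -- (1)
  have h1 : ∀ y1 ∈ T, ∀ y2 ∈ T, (S.filter fun x => c x y1 ≠ c x y2).card ≤ 4 * (j + 1) := by
    intro y1 hy1 y2 hy2
    have hy1' : y1 ∈ A' := hSA' (hTS hy1)
    have hy2' : y2 ∈ A' := hSA' (hTS hy2)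
    rcases (S.filter fun x => c x y1 ≠ c x y2).eq_empty_or_nonempty with h0 | ⟨x₁, hx₁⟩
    · rw [h0]
      simp
    · obtain ⟨hx₁S, hx₁c⟩ := Finset.mem_filter.1 hx₁
      have hx₁A : x₁ ∈ A := hSA hx₁S
      have hsub : (S.filter fun x => c x y1 ≠ c x y2) ⊆
          Finset.image (fun p : (S1 × Ct) × ℕ => p.1.1 - (tk p.2 p.1.2 - tc p.1.2))
            ((({y1, y2} : Finset S1) ×ˢ ({c x₁ y1, c x₁ y2} : Finset Ct)) ×ˢ
              Finset.range (j + 1)) := by
        intro x hx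
        obtain ⟨hxS, hxc⟩ := Finset.mem_filter.1 hx
        have hxA : x ∈ A := hSA hxS
        have key : ∀ y, (y = y1 ∨ y = y2) → (c x y = c x₁ y1 ∨ c x y = c x₁ y2) →
            x ∈ Finset.image (fun p : (S1 × Ct) × ℕ => p.1.1 - (tk p.2 p.1.2 - tc p.1.2))
            ((({y1, y2} : Finset S1) ×ˢ ({c x₁ y1, c x₁ y2} : Finset Ct)) ×ˢ
              Finset.range (j + 1)) := by
          intro y hy hc
          have hyA : y ∈ A' := by
            rcases hy with rfl | rfl
            · exact hy1'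
            · exact hy2'
          refine Finset.mem_image.2 ⟨((y, c x y), k x y), ?_, ?_⟩
          · simp only [Finset.mem_product, Finset.mem_insert, Finset.mem_singleton,
              Finset.mem_range]
            exact ⟨⟨hy, hc⟩, Nat.lt_succ_of_le (hk x hxA y hyA)⟩
          · change y - (tk (k x y) (c x y) - tc (c x y)) = x
            rw [← he x hxA y hyA]
            abel
        by_cases ha : c x y1 = c x₁ y1 ∨ c x y1 = c x₁ y2
        · exact key y1 (Or.inl rfl) ha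
        by_cases hb : c x y2 = c x₁ y1 ∨ c x y2 = c x₁ y2
        · exact key y2 (Or.inr rfl) hb
        exfalso
        push Not at ha hb
        have d0 := hD x₁ hx₁A y1 hy1'
        have d1 := hD x₁ hx₁A y2 hy2'
        have d2 := hD x hxA y1 hy1'
        have d3 := hD x hxA y2 hy2'
        rw [← he x₁ hx₁A y1 hy1'] at d0
        rw [← he x₁ hx₁A y2 hy2'] at d1
        rw [← he x hxA y1 hy1'] at d2
        rw [← he x hxA y2 hy2'] at d3
        exact Dm_four d0 d1 d2 d3 (by abel) hx₁c (Ne.symm ha.1) (Ne.symm hb.1) (Ne.symm ha.2)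
          (Ne.symm hb.2) hxc
      refine (Finset.card_le_card hsub).trans (Finset.card_image_le.trans ?_)
      rw [Finset.card_product, Finset.card_product, Finset.card_range]
      have e1 : ({y1, y2} : Finset S1).card ≤ 2 := Finset.card_le_two
      have e2 : ({c x₁ y1, c x₁ y2} : Finset Ct).card ≤ 2 := Finset.card_le_two
      have e3 := Nat.mul_le_mul e1 e2
      exact Nat.mul_le_mul_right _ e3
  -- a good point
  obtain ⟨x, hxS, hx⟩ : ∃ x ∈ S, ∀ y1 ∈ T, ∀ y2 ∈ T, c x y1 = c x y2 := by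
    by_contra hcon
    push Not at hcon
    have hsub : S ⊆ (T ×ˢ T).biUnion fun p => S.filter fun x => c x p.1 ≠ c x p.2 := by
      intro x hx
      obtain ⟨y1, hy1, y2, hy2, hne⟩ := hcon x hx
      exact Finset.mem_biUnion.2 ⟨(y1, y2), Finset.mem_product.2 ⟨hy1, hy2⟩,
        Finset.mem_filter.2 ⟨hx, hne⟩⟩
    have hle := (Finset.card_le_card hsub).trans (Finset.card_biUnion_le_card_mul (T ×ˢ T)
      (fun p => S.filter fun x => c x p.1 ≠ c x p.2) (4 * (j + 1))
      (fun p hp => h1 p.1 (Finset.mem_product.1 hp).1 p.2 (Finset.mem_product.1 hp).2))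
    rw [Finset.card_product, hTc] at hle
    have : (j + 2) ^ 2 * (4 * (j + 1)) = (j + 2) * (j + 2) * (4 * (j + 1)) := by ring
    omega
  -- (2)
  have hxA : x ∈ A := hSA hxS
  obtain ⟨y0, hy0⟩ : T.Nonempty := Finset.card_pos.1 (by omega)
  have hsub : T ⊆ Finset.image (fun k => x + (tk k (c x y0) - tc (c x y0)))
      (Finset.range (j + 1)) := by
    intro y hy
    have hyA : y ∈ A' := hSA' (hTS hy)
    refine Finset.mem_image.2 ⟨k x y, Finset.mem_range.2 (Nat.lt_succ_of_le (hk x hxA y hyA)), ?_⟩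
    rw [hx y0 hy0 y hy, ← he x hxA y hyA]
    abel
  have hle := (Finset.card_le_card hsub).trans Finset.card_image_le
  rw [hTc, Finset.card_range] at hle
  omega

-- END C7

-- BEGIN C8

/-- Proof: colour `(x, x') ∈ A × A'` by the sign in the definition of `x - x' ∈ CC j`.  Let `N` be the
number of `no_rect_fin`.  Take `2 N` points of `A'`; infinitely many `x ∈ A` have the same colour
pattern on them (pigeonhole), and one colour occurs at `≥ N` of the points.  So there are a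
monochromatic rectangle `A₁ × A'₁` with `A₁ ⊆ A` infinite, `A'₁ ⊆ A'` with `≥ N` points.
`x - x' = tc c - tk k c` is the situation of `no_rect_fin` for `(A₁, A'₁)`, and
`x - x' = tk k c - tc c` is the situation for `(A'₁, A₁)`. -/
theorem no_rect {j : ℕ} {A A' : Set S1} (hA : A.Infinite) (hA' : A'.Infinite) :
    ¬ ∀ x ∈ A, ∀ x' ∈ A', x - x' ∈ CC j := by
  classical
  intro h
  set N := (j + 2) ^ 2 * (4 * (j + 1)) + 1 with hN
  let Q : S1 → S1 → Prop := fun x x' =>
    ∃ c k, k ≤ j ∧ tk k c - tc c ∈ Dm j c ∧ x' - x = tk k c - tc c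
  have hQ : ∀ x ∈ A, ∀ x' ∈ A', Q x x' ∨ Q x' x := by
    intro x hx x' hx'
    obtain ⟨c, k, hk, hD, h1 | h1⟩ := h x hx x' hx'
    · exact Or.inl ⟨c, k, hk, hD, by rw [← neg_sub x x', h1, neg_sub]⟩
    · exact Or.inr ⟨c, k, hk, hD, h1⟩
  obtain ⟨S', hS', hcard⟩ := hA'.exists_subset_card_eq (2 * N)
  let pat : S1 → Finset S1 := fun x => S'.filter fun x' => Q x x'
  obtain ⟨T, hT, hTinf⟩ : ∃ T ∈ S'.powerset, {x ∈ A | pat x = T}.Infinite := by
    by_contra hcon
    push Not at hcon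
    refine hA (((S'.powerset.finite_toSet).biUnion fun T hT => hcon T hT).subset
      fun x hx => ?_)
    refine Set.mem_biUnion (x := pat x) ?_ ⟨hx, rfl⟩
    exact Finset.mem_coe.2 (Finset.mem_powerset.2 (Finset.filter_subset _ _))
  have hTS : T ⊆ S' := Finset.mem_powerset.1 hT
  have hNj : j + 2 ≤ N := by
    rw [hN]
    nlinarith
  have hsum : (S' \ T).card + T.card = 2 * N := by
    rw [Finset.card_sdiff_add_card_eq_card hTS, hcard]
  obtain ⟨S, hS, hScard⟩ := hTinf.exists_subset_card_eq N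
  rcases le_total N T.card with h1 | h1
  · refine no_rect_fin (j := j) (A := {x ∈ A | pat x = T}) (A' := (T : Set S1))
      ⟨S, hS, hScard.ge⟩ ⟨T, subset_rfl, hNj.trans h1⟩ fun x hx x' hx' => ?_
    have h2 : x' ∈ pat x := by
      rw [hx.2]
      exact hx'
    exact (Finset.mem_filter.1 h2).2
  · refine no_rect_fin (j := j) (A := ((S' \ T : Finset S1) : Set S1)) (A' := {x ∈ A | pat x = T})
      ⟨S' \ T, subset_rfl, by omega⟩ ⟨S, hS, by omega⟩ fun x' hx' x hx => ?_
    have hx'' : x' ∈ S' \ T := hx'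
    rw [Finset.mem_sdiff] at hx''
    have h2 : ¬ Q x x' := by
      intro hq
      apply hx''.2
      rw [← hx.2]
      exact Finset.mem_filter.2 ⟨hx''.1, hq⟩
    exact (hQ x hx.1 x' (hS' hx''.1)).resolve_left h2

-- END C8

-- BEGIN C9

/-- The coding lemma, the target of one block.  Proof: `RR_univ` for the `hh n = 2 ^ n + n` points
`Th n (pts i)`, `Th n (s k)` (`k < n`). -/
theorem block_target (n : ℕ) (ρ : Fin 4) (pts : Fin (2 ^ n) → S1) (s : ℕ → S1) :
    ∃ z : Bl (hh n), ∀ z' : Bl (hh n), (∀ p q i, ‖z' p q i - z p q i‖ ≤ ee (hh n) / 4) →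
      (∀ i : Fin (2 ^ n), ∀ x : S1, ‖x - pts i‖ ≤ dl n → Th n x - z' ∈ RR (hh n) ρ) ∧
      ∀ k < n, Th n (s k) - z' ∈ RR (hh n) ρ := by
  let F : Fin (2 ^ n + n) → Bl (hh n) :=
    fun j => Fin.addCases (fun i : Fin (2 ^ n) => Th n (pts i)) (fun k : Fin n => Th n (s k)) j
  obtain ⟨z, hz⟩ := RR_univ (hh_pos n) (F : Fin (hh n) → Bl (hh n)) ρ
  refine ⟨z, fun z' hz' => ⟨fun i x hx => ?_, fun k hk => ?_⟩⟩
  · refine hz (Fin.castAdd n i : Fin (2 ^ n + n)) (Th n x) z' (fun p q r => ?_) hz'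
    have h1 : F (Fin.castAdd n i) = Th n (pts i) :=
      Fin.addCases_left (motive := fun _ => Bl (hh n)) i
    change ‖Th n x p q r - F (Fin.castAdd n i) p q r‖ ≤ ee (hh n) / 4
    rw [h1]
    have h2 : Th n x p q r - Th n (pts i) p q r =
        (2 ^ L (slot n p q r)) • (x - pts i) := by
      simp only [Th, smul_sub]
    rw [h2]
    exact smul_dl p.2 q.2 r.2 hx
  · refine hz (Fin.natAdd (2 ^ n) ⟨k, hk⟩ : Fin (2 ^ n + n)) (Th n (s k)) z' (fun p q r => ?_) hz'
    have h1 : F (Fin.natAdd (2 ^ n) ⟨k, hk⟩) = Th n (s k) :=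
      Fin.addCases_right (motive := fun _ => Bl (hh n)) (⟨k, hk⟩ : Fin n)
    change ‖Th n (s k) p q r - F (Fin.natAdd (2 ^ n) ⟨k, hk⟩) p q r‖ ≤ ee (hh n) / 4
    rw [h1, sub_self, norm_zero]
    unfold ee
    positivity

-- END C9

-- BEGIN C10

open Classical in
/-- the code with the digits `b` of the translation -/
noncomputable def C10_c (K : Set S1) (ds : ℕ → Ct) (b : Ct) : Ct := fun v =>
  match (Nat.unpair v).1 with
  | 0 => b (Nat.unpair v).2
  | 1 => decide (∃ l b', val b' ∈ K ∧ (Nat.unpair v).2 = cod l b')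
  | k + 2 => ds k (Nat.unpair v).2

theorem C10_c0 (K : Set S1) (ds : ℕ → Ct) (b : Ct) (i : ℕ) : C10_c K ds b (Nat.pair 0 i) = b i := by
  simp [C10_c, Nat.unpair_pair]

theorem C10_c1 (K : Set S1) (ds : ℕ → Ct) (b : Ct) (v : ℕ) :
    C10_c K ds b (Nat.pair 1 v) = true ↔ ∃ l b', val b' ∈ K ∧ v = cod l b' := by
  simp [C10_c, Nat.unpair_pair]

theorem C10_c2 (K : Set S1) (ds : ℕ → Ct) (b : Ct) (k i : ℕ) :
    C10_c K ds b (Nat.pair (k + 2) i) = ds k i := by
  simp [C10_c, Nat.unpair_pair]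

theorem C10_c_loc (K : Set S1) (ds : ℕ → Ct) {b b' : Ct} {v : ℕ}
    (h : ∀ i ≤ v, b i = b' i) : C10_c K ds b v = C10_c K ds b' v := by
  unfold C10_c
  rcases (Nat.unpair v).1 with _ | _ | k
  · exact h _ (Nat.unpair_right_le v)
  · rfl
  · rfl

theorem C10_KK {K : Set S1} (hK : IsClosed K) (ds : ℕ → Ct) (b : Ct) :
    KK (C10_c K ds b) = K := by
  ext x
  constructor
  · intro hx
    rw [← hK.closure_eq, Metric.mem_closure_iff]
    intro ε hε
    obtain ⟨l, hl⟩ := exists_pow_lt_of_lt_one hε (by norm_num : (1 / 2 : ℝ) < 1)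
    obtain ⟨b₁, hb₁, h1⟩ := hx l
    rw [C10_c1] at h1
    obtain ⟨l', b', hb', heq⟩ := h1
    obtain ⟨rfl, hag⟩ := cod_eq.1 heq
    refine ⟨val b', hb', ?_⟩
    rw [dist_eq_norm, ← hb₁]
    exact (val_agree hag).trans_lt hl
  · intro hx l
    obtain ⟨b₁, hb₁⟩ := exists_val x
    refine ⟨b₁, hb₁, ?_⟩
    rw [C10_c1]
    exact ⟨l, b₁, hb₁ ▸ hx, rfl⟩

/-- The coding lemma.  Proof: for digits `b` let `c b` be the code with `c b (Nat.pair 0 i) = b i`,
`c b (Nat.pair (k + 2) i)` = the digits of `s k`, `c b (Nat.pair 1 v) = true` iff `v = cod l b'` for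
some `l`, `b'` with `val b' ∈ K`.  Then `tk k (c b) = s k`, `tc (c b) = val b`, `KK (c b) = K` (if
`x ∈ KK (c b)` then for each `l` there are `b₁`, `b₂` with `val b₁ = x`, `val b₂ ∈ K` and the same
first `l` digits, so `x` is in the closure of `K`).  For the slot `r = slot n p q i` with
`p, q, i < hh n` let `z r b` be the coordinate `(p, q, i)` of the target `block_target n (rho n (c b))`
for the points `pts` of `hsm n` and `s`; `z r b = 0` for the other slots.  It depends only on `b`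
below `n ≤ L r` (`rho_loc`, `Nat.right_le_pair`, `le_slot`).  Let `b` be given by `realize`; then
`‖Th n (val b) p q i - z p q i‖ ≤ ε / 4` by `gap_le`, so `block_target` gives everything for
`x - tc c` with `x ∈ K` and for `s k - tc c`, `k < n` (`Th_sub`).  If `K` is empty, `hsm` holds
trivially and the proof is the same. -/
theorem coding {K : Set S1} (hK : IsClosed K) (s : ℕ → S1)
    (hsm : ∀ n, ∃ pts : Fin (2 ^ n) → S1, ∀ x ∈ K, ∃ i, ‖x - pts i‖ ≤ dl n) :
    ∃ c : Ct, (∀ k, tk k c = s k) ∧ KK c = K ∧ (∀ x ∈ K, x - tc c ∈ Dm 0 c) ∧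
      ∀ k, s k - tc c ∈ Dm (k + 1) c := by
  classical
  choose pts hpts using hsm
  choose ds hds using fun k => exists_val (s k)
  choose tgt htgt using fun (n : ℕ) (ρ : Fin 4) => block_target n ρ (pts n) s
  let z : ℕ → Ct → S1 := fun r b =>
    if h : (Nat.unpair (Nat.unpair r).2).1 < hh (Nat.unpair r).1 ∧
        (Nat.unpair (Nat.unpair (Nat.unpair r).2).2).1 < hh (Nat.unpair r).1 ∧
        (Nat.unpair (Nat.unpair (Nat.unpair r).2).2).2 < hh (Nat.unpair r).1 then
      tgt (Nat.unpair r).1 (rho (Nat.unpair r).1 (C10_c K ds b)) ⟨_, h.1⟩ ⟨_, h.2.1⟩ ⟨_, h.2.2⟩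
    else 0
  have hz : ∀ r b b', (∀ i < L r, b i = b' i) → z r b = z r b' := by
    intro r b b' h
    have h1 : rho (Nat.unpair r).1 (C10_c K ds b) = rho (Nat.unpair r).1 (C10_c K ds b') := by
      refine rho_loc _ _ _ fun v hv => C10_c_loc K ds fun i hi => h i ?_
      have h2 : (Nat.unpair r).1 ≤ r := Nat.unpair_left_le r
      have h3 : r ≤ L r := by
        unfold L
        nlinarith
      omega
    simp only [z, h1]
  obtain ⟨b, hb⟩ := realize z hz
  have hclose : ∀ n, ∀ p q i : Fin (hh n),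
      ‖Th n (val b) p q i - tgt n (rho n (C10_c K ds b)) p q i‖ ≤ ee (hh n) / 4 := by
    intro n p q i
    have h1 := hb (slot n p q i)
    have hkey : ∀ (n' p' q' i' : ℕ) (h : p' < hh n' ∧ q' < hh n' ∧ i' < hh n'), n' = n → p' = p →
        q' = q → i' = i → tgt n' (rho n' (C10_c K ds b)) ⟨p', h.1⟩ ⟨q', h.2.1⟩ ⟨i', h.2.2⟩ =
          tgt n (rho n (C10_c K ds b)) p q i := by
      rintro n' p' q' i' h rfl rfl rfl rfl
      rfl
    have e1 : (Nat.unpair (slot n p q i)).1 = n := by simp [slot, Nat.unpair_pair]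
    have e2 : (Nat.unpair (Nat.unpair (slot n p q i)).2).1 = p := by simp [slot, Nat.unpair_pair]
    have e3 : (Nat.unpair (Nat.unpair (Nat.unpair (slot n p q i)).2).2).1 = q := by
      simp [slot, Nat.unpair_pair]
    have e4 : (Nat.unpair (Nat.unpair (Nat.unpair (slot n p q i)).2).2).2 = i := by
      simp [slot, Nat.unpair_pair]
    have h2 : z (slot n p q i) b = tgt n (rho n (C10_c K ds b)) p q i := by
      have hc : (Nat.unpair (Nat.unpair (slot n p q i)).2).1 < hh (Nat.unpair (slot n p q i)).1 ∧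
          (Nat.unpair (Nat.unpair (Nat.unpair (slot n p q i)).2).2).1 <
            hh (Nat.unpair (slot n p q i)).1 ∧
          (Nat.unpair (Nat.unpair (Nat.unpair (slot n p q i)).2).2).2 <
            hh (Nat.unpair (slot n p q i)).1 := by
        rw [e1, e2, e3, e4]
        exact ⟨p.2, q.2, i.2⟩
      simp only [z]
      rw [dif_pos hc]
      exact hkey _ _ _ _ hc e1 e2 e3 e4
    rw [h2] at h1
    exact h1.trans (gap_le (le_slot n p q i))
  have htc : tc (C10_c K ds b) = val b := by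
    unfold tc
    congr 1
    funext i
    exact C10_c0 K ds b i
  refine ⟨C10_c K ds b, fun k => ?_, C10_KK hK ds b, fun x hx n _ => ?_, fun k n hn => ?_⟩
  · unfold tk
    rw [← hds k]
    congr 1
    funext i
    exact C10_c2 K ds b k i
  · obtain ⟨i, hi⟩ := hpts n x hx
    rw [htc, Th_sub]
    exact (htgt n _ _ (hclose n)).1 i x hi
  · rw [htc, Th_sub]
    exact (htgt n _ _ (hclose n)).2 k (by omega)

-- END C10

end Pool.Agent.Lib.MP_034dba_lc
end

section

set_option autoImplicit false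

/-!
# A perfect box with an independent image

`f` is a continuous map from the product `ℕ → Ct` to the circle.
-/

namespace Pool.Agent.Lib.MP_034dba_lc

/-- `f` does not depend on the coordinate `α` on `Q` -/
def Indep (f : (ℕ → Ct) → S1) (Q : Set (ℕ → Ct)) (α : ℕ) : Prop :=
  ∀ a ∈ Q, ∀ b ∈ Q, (∀ β, β ≠ α → a β = b β) → f a = f b

/-- `f` depends on the coordinate `α` on each open box contained in the box of `A` -/
def NoSub (f : (ℕ → Ct) → S1) (A : ℕ → Set Ct) (α : ℕ) : Prop :=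
  ∀ V : ℕ → Set Ct, IsOpen (Bx V) → (Bx V).Nonempty → (∀ β, V β ⊆ A β) → ¬ Indep f (Bx V) α

/-- for each coordinate `α` which was already split, and nodes `σ`, `τ` which differ at most in the
coordinate `α`: either `f` takes the same values on both boxes, or `f` depends on `α` on all open
subboxes -/
def DD (f : (ℕ → Ct) → S1) (e : ℕ → ℕ) (n : ℕ) (U : Ct → ℕ → Set Ct) : Prop :=
  ∀ α, (∃ k < n, e k = α) → ∀ σ τ, (∀ β, β ≠ α → Ag e n σ τ β) →
    (∀ a ∈ Bx (U σ), ∀ b ∈ Bx (U τ), (∀ β, β ≠ α → a β = b β) → f a = f b) ∨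
    (NoSub f (U σ) α ∧ NoSub f (U τ) α)

/-- there is no infinite rectangle `A × A'` with `x - x' ∈ C` -/
def NoRect (C : Set S1) : Prop :=
  ∀ A A' : Set S1, A.Infinite → A'.Infinite → ¬ ∀ x ∈ A, ∀ x' ∈ A', x - x' ∈ C

-- BEGIN A1

/-- the basic box -/
def A1_W (m : ℕ) (w : ℕ → Ct) : Set (ℕ → Ct) := {x | ∀ i < m, ∀ j < m, x i j = w i j}

theorem A1_isOpen_W (m : ℕ) (w : ℕ → Ct) : IsOpen (A1_W m w) := by
  have : A1_W m w = ⋂ i ∈ Finset.range m, ⋂ j ∈ Finset.range m, {x : ℕ → Ct | x i j = w i j} := by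
    ext x
    simp [A1_W]
  rw [this]
  refine isOpen_biInter_finset fun i _ => isOpen_biInter_finset fun j _ => ?_
  have hc : Continuous fun x : ℕ → Ct => x i j :=
    (continuous_apply j).comp (continuous_apply i)
  exact (isOpen_discrete {w i j}).preimage hc

theorem A1_W_mono {m m' : ℕ} (h : m ≤ m') (w : ℕ → Ct) : A1_W m' w ⊆ A1_W m w :=
  fun _ hx i hi j hj => hx i (hi.trans_le h) j (hj.trans_le h)

theorem A1_exists_W {O : Set (ℕ → Ct)} (hO : IsOpen O) {w : ℕ → Ct} (hw : w ∈ O) :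
    ∃ m, A1_W m w ⊆ O := by
  classical
  obtain ⟨I, u, hu, hI⟩ := isOpen_pi_iff.1 hO w hw
  have h1 : ∀ i : ℕ, ∃ n, i ∈ I → ∀ x : Ct, (∀ j < n, x j = w i j) → x ∈ u i := by
    intro i
    by_cases hi : i ∈ I
    · obtain ⟨J, v, hv, hJ⟩ := isOpen_pi_iff.1 (hu i hi).1 (w i) (hu i hi).2
      refine ⟨J.sup id + 1, fun _ x hx => hJ fun j hj => ?_⟩
      have : j < J.sup id + 1 := Nat.lt_succ_of_le (Finset.le_sup (f := id) hj)
      rw [hx j this]
      exact (hv j hj).2
    · exact ⟨0, fun h => absurd h hi⟩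
  choose n hn using h1
  refine ⟨max (I.sup id + 1) (I.sup n), fun x hx => hI fun i hi => ?_⟩
  have h2 : i < I.sup id + 1 := Nat.lt_succ_of_le (Finset.le_sup (f := id) hi)
  have h3 : n i ≤ I.sup n := Finset.le_sup hi
  exact hn i hi (x i) fun j hj => hx i (h2.trans_le (le_max_left _ _)) j
    (hj.trans_le (h3.trans (le_max_right _ _)))

open Classical in
/-- `a` on `Δ`, `r` off `Δ` -/
noncomputable def A1_mg (Δ : Set ℕ) (a r : ℕ → Ct) : ℕ → Ct := fun β => if β ∈ Δ then a β else r β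

theorem A1_mg_on {Δ : Set ℕ} {a r : ℕ → Ct} {β : ℕ} (h : β ∈ Δ) : A1_mg Δ a r β = a β := if_pos h

theorem A1_mg_off {Δ : Set ℕ} {a r : ℕ → Ct} {β : ℕ} (h : β ∉ Δ) : A1_mg Δ a r β = r β := if_neg h

theorem A1_mg_cont (Δ : Set ℕ) (a : ℕ → Ct) : Continuous fun r => A1_mg Δ a r := by
  refine continuous_pi fun β => ?_
  by_cases h : β ∈ Δ
  · simp only [A1_mg_on h]
    exact continuous_const
  · simp only [A1_mg_off h]
    exact continuous_apply β

theorem A1_mg_cont' (Δ : Set ℕ) (r : ℕ → Ct) : Continuous fun a => A1_mg Δ a r := by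
  refine continuous_pi fun β => ?_
  by_cases h : β ∈ Δ
  · simp only [A1_mg_on h]
    exact continuous_apply β
  · simp only [A1_mg_off h]
    exact continuous_const

theorem A1_aux {f : (ℕ → Ct) → S1} {B : ℕ → Set Ct} (hBo : IsOpen (Bx B)) (Δ : Set ℕ)
    {b₀ w : ℕ → Ct} {m m' : ℕ} (hb₀ : b₀ ∈ Bx B) (hw : ∀ β, β ∉ Δ → w β ∈ B β)
    (hc : ∀ r ∈ A1_W m' w, (∀ β, β ∉ Δ → r β ∈ B β) → ∀ a ∈ Bx B, a ∈ A1_W m b₀ →
      ∀ a' ∈ Bx B, a' ∈ A1_W m b₀ → f (A1_mg Δ a r) = f (A1_mg Δ a' r)) :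
    ∃ V : ℕ → Set Ct, IsOpen (Bx V) ∧ (Bx V).Nonempty ∧ (∀ β, V β ⊆ B β) ∧
      ∀ a ∈ Bx V, ∀ b ∈ Bx V, (∀ β, β ∉ Δ → a β = b β) → f a = f b := by
  classical
  set M := max m m' with hM
  set w₀ := A1_mg Δ b₀ w with hw₀
  let V : ℕ → Set Ct := fun β => B β ∩ {x | β < M → ∀ j < M, x j = w₀ β j}
  have hV : Bx V = Bx B ∩ A1_W M w₀ := by
    ext x
    constructor
    · exact fun hx => ⟨fun β => (hx β).1, fun i hi j hj => (hx i).2 hi j hj⟩
    · exact fun hx β => ⟨hx.1 β, fun hβ j hj => hx.2 β hβ j hj⟩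
  refine ⟨V, ?_, ⟨w₀, ?_⟩, fun β => Set.inter_subset_left, ?_⟩
  · rw [hV]
    exact hBo.inter (A1_isOpen_W _ _)
  · rw [hV]
    refine ⟨fun β => ?_, fun _ _ _ _ => rfl⟩
    by_cases hβ : β ∈ Δ
    · rw [hw₀, A1_mg_on hβ]
      exact hb₀ β
    · rw [hw₀, A1_mg_off hβ]
      exact hw β hβ
  · intro a ha b hb hab
    rw [hV] at ha hb
    have hra : A1_mg Δ w a ∈ A1_W m' w := by
      intro i hi j hj
      by_cases hβ : i ∈ Δ
      · rw [A1_mg_on hβ]
      · rw [A1_mg_off hβ, ha.2 i (hi.trans_le (le_max_right _ _)) j (hj.trans_le (le_max_right _ _)),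
          hw₀, A1_mg_off hβ]
    have hrB : ∀ β, β ∉ Δ → A1_mg Δ w a β ∈ B β := by
      intro β hβ
      rw [A1_mg_off hβ]
      exact ha.1 β
    have hst : ∀ c ∈ Bx B ∩ A1_W M w₀, A1_mg Δ c b₀ ∈ Bx B ∧ A1_mg Δ c b₀ ∈ A1_W m b₀ := by
      intro c hcc
      constructor
      · intro β
        by_cases hβ : β ∈ Δ
        · rw [A1_mg_on hβ]
          exact hcc.1 β
        · rw [A1_mg_off hβ]
          exact hb₀ β
      · intro i hi j hj
        by_cases hβ : i ∈ Δ
        · rw [A1_mg_on hβ, hcc.2 i (hi.trans_le (le_max_left _ _)) j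
            (hj.trans_le (le_max_left _ _)), hw₀, A1_mg_on hβ]
        · rw [A1_mg_off hβ]
    have h1 := hc _ hra hrB _ (hst a ha).1 (hst a ha).2 _ (hst b hb).1 (hst b hb).2
    have h2 : A1_mg Δ (A1_mg Δ a b₀) (A1_mg Δ w a) = a := by
      funext β
      by_cases hβ : β ∈ Δ
      · rw [A1_mg_on hβ, A1_mg_on hβ]
      · rw [A1_mg_off hβ, A1_mg_off hβ]
    have h3 : A1_mg Δ (A1_mg Δ b b₀) (A1_mg Δ w a) = b := by
      funext β
      by_cases hβ : β ∈ Δ
      · rw [A1_mg_on hβ, A1_mg_on hβ]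
      · rw [A1_mg_off hβ, A1_mg_off hβ]
        exact hab β hβ
    rwa [h2, h3] at h1

/-- a function with finite image on an open set is constant near some point -/
theorem A1_fin {g : (ℕ → Ct) → S1} (hg : Continuous g) {O : Set (ℕ → Ct)} {w : ℕ → Ct}
    (hw : w ∈ O) (hfin : (g '' O).Finite) : ∃ m, ∀ x ∈ O, x ∈ A1_W m w → g x = g w := by
  have h1 : IsOpen (g ⁻¹' ((g '' O) \ {g w})ᶜ) :=
    ((hfin.subset Set.diff_subset).isClosed.isOpen_compl).preimage hg
  obtain ⟨m, hm⟩ := A1_exists_W h1 (w := w) (by simp)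
  refine ⟨m, fun x hx hxm => ?_⟩
  by_contra hne
  exact hm hxm ⟨Set.mem_image_of_mem g hx, hne⟩

/-- Proof.  For `r ∈ Bx A` and `a ∈ Bx A` let `mg a r` be `a` on `Δ` and `r` off `Δ`; `mg a r ∈ Bx A`,
and `mg b r ∈ Bx B` for `b ∈ Bx B`.  For each `r` the sets `{f (mg a r) | a ∈ Bx A}` and
`{f (mg b r) | b ∈ Bx B}` form a rectangle with differences in `C`, so one of them is finite by
`NoRect`, hence (finitely many relatively closed fibres of a nonempty open set, `Bx A` or `Bx B`)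
there is a basic open box `W` from a fixed countable base of `ℕ → Ct` which meets `Bx A` (or `Bx B`)
such that `f (mg · r)` is constant on `Bx A ∩ W` (or on `Bx B ∩ W`).  For fixed `W` the set of all
`r ∈ Bx A` with this property is closed, and these countably many closed sets cover the nonempty
open (and compact) set `Bx A`.  By Baire one of them, say for `W` and `A`, contains a nonempty open
set `O ⊆ Bx A`; take a basic box inside of `O` off `Δ` and inside of `W ∩ Bx A` on `Δ`. -/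
theorem e_one {f : (ℕ → Ct) → S1} (hf : Continuous f) {C : Set S1} (hC : NoRect C)
    {A B : ℕ → Set Ct} (hAc : ∀ α, IsClosed (A α)) (hBc : ∀ α, IsClosed (B α))
    (hAo : IsOpen (Bx A)) (hBo : IsOpen (Bx B)) (hAn : (Bx A).Nonempty) (hBn : (Bx B).Nonempty)
    (Δ : Set ℕ) (hΔ : ∀ β, β ∉ Δ → A β = B β)
    (h : ∀ a ∈ Bx A, ∀ b ∈ Bx B, (∀ β, β ∉ Δ → a β = b β) → f a - f b ∈ C) :
    ∃ V : ℕ → Set Ct, IsOpen (Bx V) ∧ (Bx V).Nonempty ∧ ((∀ β, V β ⊆ A β) ∨ (∀ β, V β ⊆ B β)) ∧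
      ∀ a ∈ Bx V, ∀ b ∈ Bx V, (∀ β, β ∉ Δ → a β = b β) → f a = f b := by
  classical
  -- the closed sets
  let pt : Finset (ℕ × ℕ) → ℕ → Ct := fun t i j => decide ((i, j) ∈ t)
  let Y : (ℕ → Set Ct) → ℕ × Finset (ℕ × ℕ) → Set (ℕ → Ct) := fun D k =>
    {r | (Bx D ∩ A1_W k.1 (pt k.2)).Nonempty ∧ ∀ a ∈ Bx D ∩ A1_W k.1 (pt k.2),
      ∀ a' ∈ Bx D ∩ A1_W k.1 (pt k.2), f (A1_mg Δ a r) = f (A1_mg Δ a' r)}
  have hYc : ∀ D k, IsClosed (Y D k) := by
    intro D k
    by_cases hne : (Bx D ∩ A1_W k.1 (pt k.2)).Nonempty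
    · have : Y D k = ⋂ a ∈ Bx D ∩ A1_W k.1 (pt k.2), ⋂ a' ∈ Bx D ∩ A1_W k.1 (pt k.2),
          {r | f (A1_mg Δ a r) = f (A1_mg Δ a' r)} := by
        ext r
        simp only [Set.mem_iInter, Set.mem_setOf_eq, Y]
        exact ⟨fun hr => hr.2, fun hr => ⟨hne, hr⟩⟩
      rw [this]
      refine isClosed_biInter fun a _ => isClosed_biInter fun a' _ => ?_
      exact isClosed_eq (hf.comp (A1_mg_cont Δ a)) (hf.comp (A1_mg_cont Δ a'))
    · have : Y D k = ∅ := by
        ext r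
        simp only [Set.mem_setOf_eq, Y, Set.mem_empty_iff_false, iff_false]
        exact fun hr => hne hr.1
      rw [this]
      exact isClosed_empty
  -- one of the index sets
  let Z : Option (Bool × (ℕ × Finset (ℕ × ℕ))) → Set (ℕ → Ct) := fun k => match k with
    | none => (Bx A)ᶜ
    | some (true, k) => Y A k
    | some (false, k) => Y B k
  have hZc : ∀ k, IsClosed (Z k) := by
    rintro (_ | ⟨_ | _, k⟩)
    · exact hAo.isClosed_compl
    · exact hYc B k
    · exact hYc A k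
  have hpt : ∀ (m : ℕ) (w : ℕ → Ct), ∃ t, A1_W m (pt t) = A1_W m w := by
    intro m w
    refine ⟨((Finset.range m) ×ˢ (Finset.range m)).filter fun k => w k.1 k.2 = true, ?_⟩
    have h1 : ∀ i < m, ∀ j < m, pt (((Finset.range m) ×ˢ (Finset.range m)).filter
        fun k => w k.1 k.2 = true) i j = w i j := by
      intro i hi j hj
      simp only [pt, Finset.mem_filter, Finset.mem_product, Finset.mem_range, hi, hj, true_and,
        and_self]
      cases w i j <;> simp
    ext x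
    constructor
    · intro hx i hi j hj
      rw [hx i hi j hj, h1 i hi j hj]
    · intro hx i hi j hj
      rw [hx i hi j hj, h1 i hi j hj]
  have hcov : ⋃ k, Z k = Set.univ := by
    refine Set.eq_univ_of_forall fun r => ?_
    by_cases hr : r ∈ Bx A
    swap
    · exact Set.mem_iUnion.2 ⟨none, hr⟩
    have hmA : ∀ a ∈ Bx A, A1_mg Δ a r ∈ Bx A := by
      intro a ha β
      by_cases hβ : β ∈ Δ
      · rw [A1_mg_on hβ]; exact ha β
      · rw [A1_mg_off hβ]; exact hr β
    have hmB : ∀ b ∈ Bx B, A1_mg Δ b r ∈ Bx B := by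
      intro a ha β
      by_cases hβ : β ∈ Δ
      · rw [A1_mg_on hβ]; exact ha β
      · rw [A1_mg_off hβ, ← hΔ β hβ]; exact hr β
    have hor : ((fun a => f (A1_mg Δ a r)) '' Bx A).Finite ∨
        ((fun a => f (A1_mg Δ a r)) '' Bx B).Finite := by
      by_contra hcon
      rw [not_or] at hcon
      refine hC _ _ hcon.1 hcon.2 ?_
      rintro _ ⟨a, ha, rfl⟩ _ ⟨b, hb, rfl⟩
      refine h _ (hmA a ha) _ (hmB b hb) fun β hβ => ?_
      rw [A1_mg_off hβ, A1_mg_off hβ]
    have hkey : ∀ D : ℕ → Set Ct, (Bx D).Nonempty →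
        ((fun a => f (A1_mg Δ a r)) '' Bx D).Finite → ∃ k, r ∈ Y D k := by
      rintro D ⟨w, hw⟩ hfin
      obtain ⟨m, hm⟩ := A1_fin (hf.comp (A1_mg_cont' Δ r)) hw hfin
      obtain ⟨t, ht⟩ := hpt m w
      refine ⟨(m, t), ⟨w, hw, ?_⟩, ?_⟩
      · change w ∈ A1_W m (pt t)
        rw [ht]
        exact fun _ _ _ _ => rfl
      · intro a ha a' ha'
        change a ∈ Bx D ∩ A1_W m (pt t) at ha
        change a' ∈ Bx D ∩ A1_W m (pt t) at ha'
        rw [ht] at ha ha'
        exact (hm a ha.1 ha.2).trans (hm a' ha'.1 ha'.2).symm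
    rcases hor with h1 | h1
    · obtain ⟨k, hk⟩ := hkey A hAn h1
      exact Set.mem_iUnion.2 ⟨some (true, k), hk⟩
    · obtain ⟨k, hk⟩ := hkey B hBn h1
      exact Set.mem_iUnion.2 ⟨some (false, k), hk⟩
  have hdense := dense_iUnion_interior_of_closed hZc hcov
  obtain ⟨w, hwA, hw⟩ := hdense.inter_open_nonempty _ hAo hAn
  obtain ⟨k, hk⟩ := Set.mem_iUnion.1 hw
  obtain ⟨m', hm'⟩ := A1_exists_W isOpen_interior hk
  have hcase : ∀ D : ℕ → Set Ct, IsOpen (Bx D) → (∀ β, β ∉ Δ → A β = D β) →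
      ∀ k, (∀ r ∈ A1_W m' w, r ∈ Y D k) →
      ∃ V : ℕ → Set Ct, IsOpen (Bx V) ∧ (Bx V).Nonempty ∧ (∀ β, V β ⊆ D β) ∧
      ∀ a ∈ Bx V, ∀ b ∈ Bx V, (∀ β, β ∉ Δ → a β = b β) → f a = f b := by
    intro D hDo hAD k hk
    obtain ⟨b₀, hb₀, hb₀'⟩ := (hk w fun _ _ _ _ => rfl).1
    have hW : A1_W k.1 b₀ ⊆ A1_W k.1 (pt k.2) := by
      intro x hx i hi j hj
      rw [hx i hi j hj, hb₀' i hi j hj]
    refine A1_aux hDo Δ hb₀ (w := w) (m := k.1) (m' := m') (fun β hβ => ?_) ?_
    · rw [← hAD β hβ]; exact hwA β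
    · intro r hr _ a ha ha' a' haa haa'
      exact (hk r hr).2 a ⟨ha, hW ha'⟩ a' ⟨haa, hW haa'⟩
  rcases k with _ | ⟨_ | _, k⟩
  · exact absurd hwA (interior_subset hk)
  · obtain ⟨V, h1, h2, h3, h4⟩ := hcase B hBo hΔ k fun r hr => interior_subset (hm' hr)
    exact ⟨V, h1, h2, Or.inr h3, h4⟩
  · obtain ⟨V, h1, h2, h3, h4⟩ := hcase A hAo (fun _ _ => rfl) k
      fun r hr => interior_subset (hm' hr)
    exact ⟨V, h1, h2, Or.inl h3, h4⟩

-- END A1

-- BEGIN A2

/-- `τ` with the digits which belong to the coordinate `α` replaced by those of `ρ` -/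
def A2_re (e : ℕ → ℕ) (α : ℕ) (ρ τ : Ct) : Ct := fun k => if e k = α then ρ k else τ k

theorem A2_half {f : (ℕ → Ct) → S1} {e : ℕ → ℕ} {n : ℕ} {U : Ct → ℕ → Set Ct} (hU : BS e n U)
    (hD : DD f e n U) {τ : Ct} {α : ℕ} (hα : ∃ k < n, e k = α) (ρ : Ct) {V : ℕ → Set Ct}
    (hVo : IsOpen (Bx V)) (hVn : (Bx V).Nonempty) (hV : ∀ β, V β ⊆ U τ β)
    (hI : Indep f (Bx V) α) {b' : ℕ → Ct} (hb' : b' ∈ Bx (U (A2_re e α ρ τ))) :
    ∃ b ∈ Bx (U τ), (∀ β, β ≠ α → b β = b' β) ∧ f b = f b' := by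
  have hag : ∀ β, β ≠ α → Ag e n τ (A2_re e α ρ τ) β := by
    intro β hβ k _ hk
    have : e k ≠ α := by rw [hk]; exact hβ
    simp [A2_re, this]
  obtain ⟨y, hy⟩ := hU.ne τ α
  refine ⟨Function.update b' α y, ?_, fun β hβ => Function.update_of_ne hβ _ _, ?_⟩
  · intro β
    by_cases hβ : β = α
    · subst hβ
      rw [Function.update_self]
      exact hy
    · rw [Function.update_of_ne hβ, hU.loc τ (A2_re e α ρ τ) β (hag β hβ)]
      exact hb' β
  · rcases hD α hα τ (A2_re e α ρ τ) hag with h1 | h1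
    · refine h1 _ ?_ _ hb' fun β hβ => Function.update_of_ne hβ _ _
      intro β
      by_cases hβ : β = α
      · subst hβ
        rw [Function.update_self]
        exact hy
      · rw [Function.update_of_ne hβ, hU.loc τ (A2_re e α ρ τ) β (hag β hβ)]
        exact hb' β
    · exact absurd hI (h1.1 V hVo hVn hV)

theorem A2_ind {f : (ℕ → Ct) → S1} (hf : Continuous f) {C : Set S1} (hC : NoRect C)
    (h0 : (0 : S1) ∉ C) {e : ℕ → ℕ} {n : ℕ} {U : Ct → ℕ → Set Ct} (hU : BS e n U)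
    (hD : DD f e n U) (N : ℕ) : ∀ (σ τ : Ct) (S : Finset ℕ), S.card ≤ N →
      (∀ β, ¬ Ag e n σ τ β → β ∈ S) → ∃ a ∈ Bx (U σ), ∃ b ∈ Bx (U τ),
      (∀ β, Ag e n σ τ β → a β = b β) ∧ f a - f b ∉ C := by
  classical
  have hopn : ∀ σ, (Bx (U σ)).Nonempty := by
    intro σ
    choose y hy using hU.ne σ
    exact ⟨y, hy⟩
  induction N with
  | zero =>
    intro σ τ S hS hΔ
    have hS0 : S = ∅ := Finset.card_eq_zero.1 (Nat.le_zero.1 hS)
    have hag : ∀ β, Ag e n σ τ β := by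
      intro β
      by_contra hβ
      have := hΔ β hβ
      rw [hS0] at this
      exact Finset.notMem_empty _ this
    have heq : U σ = U τ := funext fun β => hU.loc σ τ β (hag β)
    obtain ⟨a, ha⟩ := hopn σ
    refine ⟨a, ha, a, heq ▸ ha, fun _ _ => rfl, ?_⟩
    rw [sub_self]
    exact h0
  | succ N ih =>
    intro σ τ S hS hΔ
    by_cases hall : ∀ β, Ag e n σ τ β
    · have heq : U σ = U τ := funext fun β => hU.loc σ τ β (hall β)
      obtain ⟨a, ha⟩ := hopn σ
      refine ⟨a, ha, a, heq ▸ ha, fun _ _ => rfl, ?_⟩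
      rw [sub_self]
      exact h0
    push Not at hall
    obtain ⟨α, hα⟩ := hall
    have hαe : ∃ k < n, e k = α := by
      by_contra hcon
      push Not at hcon
      exact hα fun k hk hek => absurd hek (hcon k hk)
    by_contra hcon
    push Not at hcon
    obtain ⟨V, hVo, hVn, hV, hVi⟩ := e_one hf hC (A := U σ) (B := U τ)
      (fun β => (hU.perf σ β).closed) (fun β => (hU.perf τ β).closed) (hU.opn σ) (hU.opn τ)
      (hopn σ) (hopn τ) {β | ¬ Ag e n σ τ β}
      (fun β hβ => hU.loc σ τ β (not_not.1 hβ))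
      (fun a ha b hb hab => hcon a ha b hb fun β hβ => hab β (not_not.2 hβ))
    have hI : Indep f (Bx V) α := by
      intro a ha b hb hab
      refine hVi a ha b hb fun β hβ => hab β ?_
      rintro rfl
      exact hβ hα
    have hcard : (S.erase α).card ≤ N := by
      rw [Finset.card_erase_of_mem (hΔ α hα)]
      omega
    rcases hV with hV | hV
    · -- change `σ`
      have hΔ' : ∀ β, ¬ Ag e n (A2_re e α τ σ) τ β → β ∈ S.erase α := by
        intro β hβ
        have hne : β ≠ α := by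
          rintro rfl
          exact hβ fun k _ hk => by simp [A2_re, hk]
        refine Finset.mem_erase.2 ⟨hne, hΔ β fun hag => hβ fun k hk hek => ?_⟩
        have : e k ≠ α := by rw [hek]; exact hne
        simp only [A2_re, this, if_false]
        exact hag k hk hek
      obtain ⟨a', ha', b, hb, hab, hnot⟩ := ih (A2_re e α τ σ) τ (S.erase α) hcard hΔ'
      obtain ⟨a, ha, haa, hfa⟩ := A2_half hU hD hαe τ hVo hVn hV hI ha'
      refine hnot (hfa ▸ hcon a ha b hb fun β hβ => ?_)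
      have hne : β ≠ α := by
        rintro rfl
        exact hα hβ
      rw [haa β hne]
      refine hab β fun k hk hek => ?_
      have : e k ≠ α := by rw [hek]; exact hne
      simp only [A2_re, this, if_false]
      exact hβ k hk hek
    · -- change `τ`
      have hΔ' : ∀ β, ¬ Ag e n σ (A2_re e α σ τ) β → β ∈ S.erase α := by
        intro β hβ
        have hne : β ≠ α := by
          rintro rfl
          exact hβ fun k _ hk => by simp [A2_re, hk]
        refine Finset.mem_erase.2 ⟨hne, hΔ β fun hag => hβ fun k hk hek => ?_⟩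
        have : e k ≠ α := by rw [hek]; exact hne
        simp only [A2_re, this, if_false]
        exact hag k hk hek
      obtain ⟨a, ha, b', hb', hab, hnot⟩ := ih σ (A2_re e α σ τ) (S.erase α) hcard hΔ'
      obtain ⟨b, hb, hbb, hfb⟩ := A2_half hU hD hαe σ hVo hVn hV hI hb'
      refine hnot (hfb ▸ hcon a ha b hb fun β hβ => ?_)
      have hne : β ≠ α := by
        rintro rfl
        exact hα hβ
      rw [hbb β hne]
      refine hab β fun k hk hek => ?_
      have : e k ≠ α := by rw [hek]; exact hne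
      simp only [A2_re, this, if_false]
      exact hβ k hk hek

/-- Proof by induction on the number of elements of the finite set `Δ = {β | ¬ Ag e n σ τ β}`
(contained in `{e k | k < n}`).  If `Δ` is empty, then `U σ = U τ`, take `a = b`.  Otherwise suppose
that there are no such `a`, `b`.  `e_one` for `A = U σ`, `B = U τ` gives an open box `V` inside of
`U τ` (or of `U σ`) on which `f` does not depend on `Δ`; let `α ∈ Δ`, `α = e k` with `k < n`.  First
case, `V` inside of `U τ`: let `τ'` be `τ` with the digits at the places `k` with `e k = α` replaced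
by those of `σ`.  `DD` for `α`, `τ`, `τ'`: the second alternative fails because of `V`, so
`f b = f b'` for `b ∈ Bx (U τ)`, `b' ∈ Bx (U τ')` which agree off `α`.  The set of `σ`, `τ'` is
`Δ \ {α}`, so by induction there are `a ∈ Bx (U σ)`, `b' ∈ Bx (U τ')` which agree off `Δ \ {α}` with
`f a - f b' ∉ C`.  Replace the coordinate `α` of `b'` by a point of `U τ α` (`U τ' β = U τ β` for
`β ≠ α`).  The other case is symmetric: change `σ`. -/
theorem claim_E {f : (ℕ → Ct) → S1} (hf : Continuous f) {C : Set S1} (hC : NoRect C)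
    (h0 : (0 : S1) ∉ C) {e : ℕ → ℕ} {n : ℕ} {U : Ct → ℕ → Set Ct} (hU : BS e n U)
    (hD : DD f e n U) (σ τ : Ct) : ∃ a ∈ Bx (U σ), ∃ b ∈ Bx (U τ),
      (∀ β, Ag e n σ τ β → a β = b β) ∧ f a - f b ∉ C := by
  classical
  refine A2_ind hf hC h0 hU hD _ σ τ ((Finset.range n).image e) le_rfl fun β hβ => ?_
  by_contra hcon
  refine hβ fun k hk hek => absurd ?_ hcon
  exact Finset.mem_image.2 ⟨k, Finset.mem_range.2 hk, hek⟩

-- END A2

-- BEGIN A3

theorem NoSub.mono {f : (ℕ → Ct) → S1} {A B : ℕ → Set Ct} {α : ℕ} (h : NoSub f A α)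
    (hBA : ∀ β, B β ⊆ A β) : NoSub f B α :=
  fun V h1 h2 h3 => h V h1 h2 fun β => (h3 β).trans (hBA β)

theorem DD.mono {f : (ℕ → Ct) → S1} {e : ℕ → ℕ} {n : ℕ} {U U' : Ct → ℕ → Set Ct}
    (h : DD f e n U) (hU : ∀ σ α, U' σ α ⊆ U σ α) : DD f e n U' := by
  intro α hα σ τ hστ
  rcases h α hα σ τ hστ with h1 | ⟨h1, h2⟩
  · left
    intro a ha b hb hab
    exact h1 a (fun β => hU σ β (ha β)) b (fun β => hU τ β (hb β)) hab
  · exact Or.inr ⟨h1.mono (hU σ), h2.mono (hU τ)⟩

/-- Proof: `iterate` for the finite nodes (`nd`, `IsSys.eq_nd`).  If `NoSub f (U σ) α` fails there is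
an open box `V` inside of `U σ` with `Indep f (Bx V) α`; `shrink_pair` with `σ = τ` and `Bx V`. -/
theorem decide_step {f : (ℕ → Ct) → S1} {e : ℕ → ℕ} {n : ℕ} {U : Ct → ℕ → Set Ct}
    (hU : BS e n U) (α : ℕ) : ∃ U' : Ct → ℕ → Set Ct, BS e n U' ∧ (∀ σ β, U' σ β ⊆ U σ β) ∧
      ∀ σ, Indep f (Bx (U' σ)) α ∨ NoSub f (U' σ) α := by
  obtain ⟨U', h1, h2, h3⟩ := iterate (ι := Fin n → Bool)
    (fun s V => Indep f (Bx (V (nd s))) α ∨ NoSub f (V (nd s)) α) hU
    (by
      intro s V V' _ _ hVV h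
      rcases h with h | h
      · left
        intro a ha b hb hab
        exact h a (fun β => hVV _ β (ha β)) b (fun β => hVV _ β (hb β)) hab
      · exact Or.inr (h.mono (hVV _)))
    (by
      intro s V hV _
      by_cases hn : NoSub f (V (nd s)) α
      · exact ⟨V, hV, fun _ _ => subset_rfl, Or.inr hn⟩
      · unfold NoSub at hn
        push Not at hn
        obtain ⟨W, hW1, hW2, hW3, hW4⟩ := hn
        obtain ⟨a, ha⟩ := hW2
        have haV : a ∈ Bx (V (nd s)) := fun β => hW3 β (ha β)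
        obtain ⟨V', h1, h2, h3, -⟩ := shrink_pair hV (nd s) (nd s) a a haV haV
          (fun _ _ => rfl) hW1 hW1 ha ha
        refine ⟨V', h1, h2, Or.inl ?_⟩
        intro x hx y hy hxy
        exact hW4 x (h3 hx) y (h3 hy) hxy)
  refine ⟨U', h1, h2, fun σ => ?_⟩
  obtain ⟨s, hs⟩ := exists_nd n σ
  rw [h1.eq_nd hs]
  exact h3 s

-- END A3

-- BEGIN A4

/-- Splitting.  Proof: `IsSys.split`; the boxes stay open since only the coordinate `e n` is changed,
by a clopen set.  `DD`: let `α` be `e k`, `k ≤ n`.  If `α` is `e k` for some `k < n`, nodes which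
differ at most in `α` at the stage `n + 1` do so at the stage `n`; `DD.mono`-like argument.
Otherwise `α = e n` is new, `Ag e n σ τ β` holds for all `β`, so `U σ = U τ`, and the hypothesis
`hd` for `σ` gives one of the alternatives. -/
theorem split_step {f : (ℕ → Ct) → S1} {e : ℕ → ℕ} {n : ℕ} {U : Ct → ℕ → Set Ct}
    (hU : BS e n U) (hD : DD f e n U) (hd : ∀ σ, Indep f (Bx (U σ)) (e n) ∨ NoSub f (U σ) (e n)) :
    ∃ U' : Ct → ℕ → Set Ct, BS e (n + 1) U' ∧ (∀ σ β, U' σ β ⊆ U σ β) ∧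
      (∀ σ, Sm n (U' σ (e n))) ∧ DD f e (n + 1) U' := by
  obtain ⟨U', hS, hne, hsm⟩ := hU.toIsSys.split n
  have hsub : ∀ σ β, U' σ β ⊆ U σ β := by
    intro σ β
    by_cases hβ : β = e n
    · subst hβ
      obtain ⟨-, N, -, hN⟩ := hsm σ
      rw [hN]
      exact Set.inter_subset_left
    · rw [hne σ β hβ]
  have hbx : ∀ σ, Bx (U' σ) ⊆ Bx (U σ) := fun σ a ha β => hsub σ β (ha β)
  refine ⟨U', ⟨hS, ?_⟩, hsub, fun σ => (hsm σ).1, ?_⟩
  · intro σ
    obtain ⟨-, N, hN, hUN⟩ := hsm σ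
    have heq : Bx (U' σ) = Bx (U σ) ∩ (fun a : ℕ → Ct => a (e n)) ⁻¹' N := by
      ext a
      constructor
      · intro ha
        refine ⟨hbx σ ha, ?_⟩
        have := ha (e n)
        rw [hUN] at this
        exact this.2
      · rintro ⟨ha, haN⟩ β
        by_cases hβ : β = e n
        · subst hβ
          rw [hUN]
          exact ⟨ha _, haN⟩
        · rw [hne σ β hβ]
          exact ha β
    rw [heq]
    exact (hU.opn σ).inter (hN.isOpen.preimage (continuous_apply _))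
  · intro α hα σ τ hστ
    have hag : ∀ β, β ≠ α → Ag e n σ τ β := fun β hβ k hk hek => hστ β hβ k (by omega) hek
    by_cases hα' : ∃ k < n, e k = α
    · rcases hD α hα' σ τ hag with h | ⟨h1, h2⟩
      · left
        intro a ha b hb hab
        exact h a (hbx σ ha) b (hbx τ hb) hab
      · right
        exact ⟨h1.mono (hsub σ), h2.mono (hsub τ)⟩
    · obtain ⟨k, hk, hek⟩ := hα
      have hkn : k = n := by
        by_contra hne'
        exact hα' ⟨k, by omega, hek⟩
      subst hkn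
      have hUeq : U σ = U τ := by
        funext β
        apply hU.loc
        intro j hj hej
        by_cases hβ : β = α
        · exact absurd ⟨j, hj, hej.trans hβ⟩ hα'
        · exact hag β hβ j hj hej
      rcases hd σ with h | h
      · left
        intro a ha b hb hab
        rw [hek] at h
        exact h a (hbx σ ha) b (by rw [hUeq]; exact hbx τ hb) hab
      · right
        rw [hek] at h
        refine ⟨h.mono (hsub σ), ?_⟩
        rw [hUeq] at h
        exact h.mono (hsub τ)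

-- END A4

-- BEGIN A5

/-- Shrinking each box into a dense open set and making the image small.  Proof: `iterate`, the dense
open set `G` meets the open box; `shrink_pair` with `σ = τ`, a point `a` of `G ∩ Bx (U σ)` and
`V = {b | ‖f b - f a‖ < δ} ∩ G`. -/
theorem small_step {f : (ℕ → Ct) → S1} (hf : Continuous f) {e : ℕ → ℕ} {n : ℕ}
    {U : Ct → ℕ → Set Ct} (hU : BS e n U) {δ : ℝ} (hδ : 0 < δ) {G : Set (ℕ → Ct)}
    (hG : IsOpen G) (hGd : Dense G) : ∃ U' : Ct → ℕ → Set Ct, BS e n U' ∧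
      (∀ σ β, U' σ β ⊆ U σ β) ∧ ∀ σ, Bx (U' σ) ⊆ G ∧ ∃ x : S1, ∀ a ∈ Bx (U' σ), ‖f a - x‖ ≤ δ := by
  obtain ⟨U', hU', hsub, hR⟩ := iterate (ι := Fin n → Bool)
    (fun s V => Bx (V (nd s)) ⊆ G ∧ ∃ x : S1, ∀ a ∈ Bx (V (nd s)), ‖f a - x‖ ≤ δ) hU
    (by
      rintro s V V' hV hV' hVV' ⟨h1, x, hx⟩
      have hb : Bx (V' (nd s)) ⊆ Bx (V (nd s)) := fun a ha β => hVV' _ β (ha β)
      exact ⟨hb.trans h1, x, fun a ha => hx a (hb ha)⟩)
    (by
      intro s V hV hVU
      have hne : (Bx (V (nd s))).Nonempty :=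
        ⟨fun β => (hV.ne (nd s) β).some, fun β => (hV.ne (nd s) β).some_mem⟩
      obtain ⟨a, ha, haG⟩ := hGd.inter_open_nonempty _ (hV.opn (nd s)) hne
      have hVo : IsOpen ({b : ℕ → Ct | ‖f b - f a‖ < δ} ∩ G) :=
        (isOpen_lt ((hf.sub continuous_const).norm) continuous_const).inter hG
      have haV : a ∈ {b : ℕ → Ct | ‖f b - f a‖ < δ} ∩ G := ⟨by simpa using hδ, haG⟩
      obtain ⟨V', hV', hsub', h1, -⟩ := shrink_pair hV (nd s) (nd s) a a ha ha (fun _ _ => rfl)
        hVo hVo haV haV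
      exact ⟨V', hV', hsub', h1.trans Set.inter_subset_right, f a,
        fun b hb => (h1 hb).1.le⟩)
  refine ⟨U', hU', hsub, fun σ => ?_⟩
  obtain ⟨s, hs⟩ := exists_nd n σ
  rw [hU'.toIsSys.eq_nd hs]
  exact hR s

-- END A5

-- BEGIN A6

/-- Separating the images of the boxes.  Proof: `iterate` for the pairs of finite nodes and `j < J`
(`Fin n → Bool`, `Fin n → Bool`, `Fin J`), `claim_E`, `DD.mono`, and `shrink_pair` with small
neighbourhoods `V`, `W` of `a`, `b` with `f a' - f b' ∉ C j` for `a' ∈ V`, `b' ∈ W` (`C j` is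
closed). -/
theorem sep_step {f : (ℕ → Ct) → S1} (hf : Continuous f) {C : ℕ → Set S1}
    (hCc : ∀ j, IsClosed (C j)) (hC : ∀ j, NoRect (C j)) (h0 : ∀ j, (0 : S1) ∉ C j)
    {e : ℕ → ℕ} {n : ℕ} {U : Ct → ℕ → Set Ct} (hU : BS e n U) (hD : DD f e n U) (J : ℕ) :
    ∃ U' : Ct → ℕ → Set Ct, BS e n U' ∧ (∀ σ β, U' σ β ⊆ U σ β) ∧
      ∀ j < J, ∀ σ τ, (∃ k < n, σ k ≠ τ k) → ∀ a ∈ Bx (U' σ), ∀ b ∈ Bx (U' τ),
        f a - f b ∉ C j := by
  obtain ⟨U', h1, h2, h3⟩ := iterate (ι := (Fin n → Bool) × (Fin n → Bool) × Fin J)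
    (fun i V => ∀ a ∈ Bx (V (nd i.1)), ∀ b ∈ Bx (V (nd i.2.1)), f a - f b ∉ C i.2.2) hU
    (by
      intro i V V' _ _ hVV h a ha b hb
      exact h a (fun α => hVV _ α (ha α)) b (fun α => hVV _ α (hb α)))
    (by
      intro i V hV hVU
      obtain ⟨a, ha, b, hb, hab, hfab⟩ := claim_E hf (hC i.2.2) (h0 i.2.2) hV (hD.mono hVU)
        (nd i.1) (nd i.2.1)
      have hop : IsOpen {x : (ℕ → Ct) × (ℕ → Ct) | f x.1 - f x.2 ∉ C i.2.2} := by
        have hc : Continuous fun x : (ℕ → Ct) × (ℕ → Ct) => f x.1 - f x.2 :=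
          (hf.comp continuous_fst).sub (hf.comp continuous_snd)
        exact (hCc i.2.2).isOpen_compl.preimage hc
      obtain ⟨V0, W0, hV0, hW0, haV, hbW, hsub⟩ := isOpen_prod_iff.1 hop a b hfab
      obtain ⟨V', h1, h2, h3, h4⟩ := shrink_pair hV (nd i.1) (nd i.2.1) a b ha hb hab hV0 hW0
        haV hbW
      refine ⟨V', h1, h2, fun x hx y hy => ?_⟩
      exact hsub (Set.mk_mem_prod (h3 hx) (h4 hy)))
  refine ⟨U', h1, h2, fun j hj σ τ _ a ha b hb => ?_⟩
  obtain ⟨s, hs⟩ := exists_nd n σ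
  obtain ⟨t, ht⟩ := exists_nd n τ
  rw [h1.toIsSys.eq_nd hs] at ha
  rw [h1.toIsSys.eq_nd ht] at hb
  exact h3 (s, t, ⟨j, hj⟩) a ha b hb

-- END A6

/-- the invariant of the fusion -/
structure Stg (f : (ℕ → Ct) → S1) (C : ℕ → Set S1) (δ : ℕ → ℝ) (O : Set (ℕ → Ct))
    (G : ℕ → Set (ℕ → Ct)) (e : ℕ → ℕ) (n : ℕ) (U : Ct → ℕ → Set Ct) : Prop where
  bs : BS e n U
  dd : DD f e n U
  inO : ∀ σ, Bx (U σ) ⊆ O
  inG : ∀ k < n, ∀ σ, Bx (U σ) ⊆ G k
  small : ∀ σ, ∃ x : S1, ∀ a ∈ Bx (U σ), ‖f a - x‖ ≤ δ n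
  sep : ∀ j < n, ∀ σ τ, (∃ k < n, σ k ≠ τ k) → ∀ a ∈ Bx (U σ), ∀ b ∈ Bx (U τ), f a - f b ∉ C j

-- BEGIN A7

/-- Proof: a basic open box inside of `O` (cylinders in finitely many coordinates), shrunk so that
the image is small. -/
theorem stg_zero {f : (ℕ → Ct) → S1} (hf : Continuous f) (C : ℕ → Set S1) {δ : ℕ → ℝ}
    (hδ : ∀ n, 0 < δ n) {O : Set (ℕ → Ct)} (hO : IsOpen O) (hOn : O.Nonempty)
    (G : ℕ → Set (ℕ → Ct)) (e : ℕ → ℕ) : ∃ U, Stg f C δ O G e 0 U := by
  have hP : Perfect (Set.univ : Set Ct) := by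
    refine ⟨isClosed_univ, fun x _ => ?_⟩
    rw [accPt_iff_nhds]
    intro N hN
    have ht : Filter.Tendsto (fun n : ℕ => Function.update x n (!x n)) Filter.atTop
        (nhds x) := by
      rw [tendsto_pi_nhds]
      intro i
      refine tendsto_const_nhds.congr' ?_
      filter_upwards [Filter.eventually_gt_atTop i] with n hn
      rw [Function.update_of_ne (by omega)]
    obtain ⟨n, hn⟩ := (ht.eventually hN).exists
    refine ⟨_, ⟨hn, Set.mem_univ _⟩, fun h => ?_⟩
    have := congrFun h n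
    simp at this
  have hB : BS e 0 (fun _ _ => Set.univ : Ct → ℕ → Set Ct) := by
    refine ⟨⟨fun _ _ => hP, fun _ _ => Set.univ_nonempty, fun _ _ _ _ => rfl, ?_⟩, ?_⟩
    · intro σ τ α h
      exact absurd (fun k hk => by omega) h
    · intro σ
      have : Bx (fun _ => Set.univ : ℕ → Set Ct) = Set.univ := by
        ext a
        simp [Bx]
      rw [this]
      exact isOpen_univ
  obtain ⟨a, ha⟩ := hOn
  have hVo : IsOpen ({b : ℕ → Ct | ‖f b - f a‖ < δ 0} ∩ O) :=
    (isOpen_lt ((hf.sub continuous_const).norm) continuous_const).inter hO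
  have haV : a ∈ {b : ℕ → Ct | ‖f b - f a‖ < δ 0} ∩ O := ⟨by simpa using hδ 0, ha⟩
  obtain ⟨U, hU, -, h1, -⟩ := shrink_pair hB (fun _ => false) (fun _ => false) a a
    (fun _ => Set.mem_univ _) (fun _ => Set.mem_univ _) (fun _ _ => rfl) hVo hVo haV haV
  have hUσ : ∀ σ, U σ = U (fun _ => false) := by
    intro σ
    funext α
    exact hU.loc _ _ _ (fun k hk => by omega)
  refine ⟨U, hU, ?_, ?_, ?_, ?_, ?_⟩
  · rintro α ⟨k, hk, -⟩
    omega
  · intro σ
    rw [hUσ]
    exact h1.trans Set.inter_subset_right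
  · intro k hk
    omega
  · intro σ
    rw [hUσ]
    exact ⟨f a, fun b hb => (h1 hb).1.le⟩
  · intro j hj
    omega

/-- Proof: `decide_step` for `e n`, `split_step`, `small_step` for `G n` and `δ (n + 1)`,
`sep_step` for `J = n + 1`. -/
theorem stg_succ {f : (ℕ → Ct) → S1} (hf : Continuous f) {C : ℕ → Set S1}
    (hCc : ∀ j, IsClosed (C j)) (hC : ∀ j, NoRect (C j)) (h0 : ∀ j, (0 : S1) ∉ C j)
    {δ : ℕ → ℝ} (hδ : ∀ n, 0 < δ n) {O : Set (ℕ → Ct)} {G : ℕ → Set (ℕ → Ct)}
    (hG : ∀ n, IsOpen (G n)) (hGd : ∀ n, Dense (G n)) {e : ℕ → ℕ} {n : ℕ}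
    {U : Ct → ℕ → Set Ct} (h : Stg f C δ O G e n U) :
    ∃ U', Stg f C δ O G e (n + 1) U' ∧ (∀ σ α, U' σ α ⊆ U σ α) ∧ ∀ σ, Sm n (U' σ (e n)) := by
  obtain ⟨U1, hB1, hs1, hd1⟩ := decide_step (f := f) h.bs (e n)
  have hD1 : DD f e n U1 := h.dd.mono hs1
  obtain ⟨U2, hB2, hs2, hm2, hD2⟩ := split_step hB1 hD1 hd1
  obtain ⟨U3, hB3, hs3, hG3⟩ := small_step hf hB2 (hδ (n + 1)) (hG n) (hGd n)
  obtain ⟨U4, hB4, hs4, hsep⟩ := sep_step hf hCc hC h0 hB3 (hD2.mono hs3) (n + 1)
  have hb : ∀ {V W : Ct → ℕ → Set Ct}, (∀ σ α, V σ α ⊆ W σ α) → ∀ σ, Bx (V σ) ⊆ Bx (W σ) :=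
    fun hVW σ a ha α => hVW σ α (ha α)
  have hs42 : ∀ σ α, U4 σ α ⊆ U2 σ α := fun σ α => (hs4 σ α).trans (hs3 σ α)
  have hs40 : ∀ σ α, U4 σ α ⊆ U σ α := fun σ α =>
    (hs42 σ α).trans ((hs2 σ α).trans (hs1 σ α))
  refine ⟨U4, ⟨hB4, hD2.mono hs42, ?_, ?_, ?_, ?_⟩, hs40, ?_⟩
  · intro σ
    exact (hb hs40 σ).trans (h.inO σ)
  · intro k hk σ
    rcases Nat.lt_or_ge k n with hkn | hkn
    · exact (hb hs40 σ).trans (h.inG k hkn σ)
    · have : k = n := by omega
      subst this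
      exact (hb hs4 σ).trans (hG3 σ).1
  · intro σ
    obtain ⟨x, hx⟩ := (hG3 σ).2
    exact ⟨x, fun a ha => hx a (hb hs4 σ ha)⟩
  · intro j hj σ τ hστ
    exact hsep j hj σ τ hστ
  · intro σ x hx y hy
    exact hm2 σ x (hs42 σ _ hx) y (hs42 σ _ hy)

-- END A7

-- BEGIN A8

/-- The fusion.  Proof: `e k = (Nat.unpair k).1`; iterate `stg_succ`, let `P α` be the limit
`⋂ n, ⋃ σ, U n σ α` (`limit_perfect`).  A point `a` of the box has a branch (`limit_branch`).  If
`f a - f b ∈ C j`, then `f a ≠ f b` by `h0`, so `a ≠ b`; the branches of `a` and `b` are different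
(if they were equal, `a β`, `b β` would have the same first `n` digits for each `n` with `e n = β`),
so `sep` for a large `n` gives a contradiction.  For the last part let `pts` be the points of
`small` for the `2 ^ n` finite nodes. -/
theorem fusion_cube {f : (ℕ → Ct) → S1} (hf : Continuous f) {C : ℕ → Set S1}
    (hCc : ∀ j, IsClosed (C j)) (hC : ∀ j, NoRect (C j)) (h0 : ∀ j, (0 : S1) ∉ C j)
    {δ : ℕ → ℝ} (hδ : ∀ n, 0 < δ n) {O : Set (ℕ → Ct)} (hO : IsOpen O) (hOn : O.Nonempty)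
    {G : ℕ → Set (ℕ → Ct)} (hG : ∀ n, IsOpen (G n)) (hGd : ∀ n, Dense (G n)) :
    ∃ P : ℕ → Set Ct, (∀ i, Perfect (P i) ∧ (P i).Nonempty) ∧ Bx P ⊆ O ∧ (∀ n, Bx P ⊆ G n) ∧
      (∀ j, ∀ a ∈ Bx P, ∀ b ∈ Bx P, f a - f b ∉ C j) ∧
      ∀ n, ∃ pts : Fin (2 ^ n) → S1, ∀ a ∈ Bx P, ∃ i, ‖f a - pts i‖ ≤ δ n := by
  classical
  obtain ⟨U0, hU0⟩ := stg_zero hf C hδ hO hOn G (fun k => (Nat.unpair k).1)
  have hstep : ∀ (n : ℕ) (U : Ct → ℕ → Set Ct), ∃ U' : Ct → ℕ → Set Ct,
      Stg f C δ O G (fun k => (Nat.unpair k).1) n U →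
        Stg f C δ O G (fun k => (Nat.unpair k).1) (n + 1) U' ∧ (∀ σ α, U' σ α ⊆ U σ α) ∧
          ∀ σ, Sm n (U' σ ((Nat.unpair n).1)) := by
    intro n U
    by_cases h : Stg f C δ O G (fun k => (Nat.unpair k).1) n U
    · obtain ⟨U', h1⟩ := stg_succ hf hCc hC h0 hδ hG hGd h
      exact ⟨U', fun _ => h1⟩
    · exact ⟨U, fun h' => absurd h' h⟩
  choose nx hnx using hstep
  obtain ⟨U, hUz, hUs⟩ : ∃ U : ℕ → Ct → ℕ → Set Ct, U 0 = U0 ∧ ∀ n, U (n + 1) = nx n (U n) :=
    ⟨fun n => Nat.rec U0 (fun n V => nx n V) n, rfl, fun _ => rfl⟩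
  have hSt : ∀ n, Stg f C δ O G (fun k => (Nat.unpair k).1) n (U n) := by
    intro n
    induction n with
    | zero => rw [hUz]; exact hU0
    | succ n ih => rw [hUs]; exact (hnx n _ ih).1
  have hm : ∀ n σ α, U (n + 1) σ α ⊆ U n σ α := by
    intro n σ α
    rw [hUs]
    exact (hnx n _ (hSt n)).2.1 σ α
  have hs : ∀ n σ, Sm n (U (n + 1) σ ((Nat.unpair n).1)) := by
    intro n σ
    rw [hUs]
    exact (hnx n _ (hSt n)).2.2 σ
  have hS : ∀ n, IsSys (fun k => (Nat.unpair k).1) n (U n) := fun n => (hSt n).bs.toIsSys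
  have hα : ∀ (α N : ℕ), ∃ n, N ≤ n ∧ (fun k => (Nat.unpair k).1) n = α := fun α N =>
    ⟨Nat.pair α N, Nat.right_le_pair α N, by simp⟩
  have hbr : ∀ a ∈ Bx (fun α => ⋂ n, ⋃ σ, U n σ α), ∃ σ, ∀ n, a ∈ Bx (U n σ) := by
    intro a ha
    obtain ⟨σ, hσ⟩ := limit_branch hS hm a ha
    exact ⟨σ, fun n α => hσ n α⟩
  refine ⟨fun α => ⋂ n, ⋃ σ, U n σ α, fun α => limit_perfect hS hm hs (hα α), ?_, ?_, ?_, ?_⟩
  · intro a ha
    obtain ⟨σ, hσ⟩ := hbr a ha
    exact (hSt 0).inO σ (hσ 0)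
  · intro n a ha
    obtain ⟨σ, hσ⟩ := hbr a ha
    exact (hSt (n + 1)).inG n (Nat.lt_succ_self n) σ (hσ (n + 1))
  · intro j a ha b hb hab
    obtain ⟨σ, hσ⟩ := hbr a ha
    obtain ⟨τ, hτ⟩ := hbr b hb
    by_cases hst : ∃ k, σ k ≠ τ k
    · obtain ⟨k, hk⟩ := hst
      exact (hSt (max j k + 1)).sep j (by omega) σ τ ⟨k, by omega, hk⟩ a (hσ _) b (hτ _) hab
    · have hst' : σ = τ := by
        funext k
        by_contra h
        exact hst ⟨k, h⟩
      subst hst'
      have hab' : a = b := by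
        funext α
        funext i
        obtain ⟨n, hn1, hn2⟩ := hα α (i + 1)
        have h1 := hs n σ
        have hn2' : (Nat.unpair n).1 = α := hn2
        rw [hn2'] at h1
        exact h1 (a α) (hσ (n + 1) α) (b α) (hτ (n + 1) α) i (by omega)
      rw [hab', sub_self] at hab
      exact h0 j hab
  · intro n
    choose x hx using (hSt n).small
    have hcard : Fintype.card (Fin n → Bool) = 2 ^ n := by simp
    let E : (Fin n → Bool) ≃ Fin (2 ^ n) := Fintype.equivFinOfCardEq hcard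
    refine ⟨fun i => x (nd (E.symm i)), fun a ha => ?_⟩
    obtain ⟨σ, hσ⟩ := hbr a ha
    obtain ⟨s, hs'⟩ := exists_nd n σ
    refine ⟨E s, ?_⟩
    have h1 : U n σ = U n (nd s) := (hS n).eq_nd hs'
    have h2 : a ∈ Bx (U n (nd s)) := by rw [← h1]; exact hσ n
    have h3 := hx (nd s) a h2
    simpa using h3

-- END A8

end Pool.Agent.Lib.MP_034dba_lc
end

section

set_option autoImplicit false

/-!
# One stage of the construction, and the family of translates under CH
-/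

open Cardinal

namespace Pool.Agent.Lib.MP_034dba_lc

-- BEGIN T1

/-- `BB` is a Borel set (`isClosed_FF`) -/
theorem measurableSet_BB : MeasurableSet BB :=
  MeasurableSet.iInter fun j => MeasurableSet.iUnion fun m => (isClosed_FF j m).measurableSet

theorem T1_exists_dense {X : Type} [TopologicalSpace X] {s : Set X} (hs : s ∈ residual X) :
    ∃ G : ℕ → Set X, (∀ n, IsOpen (G n)) ∧ (∀ n, Dense (G n)) ∧ ∀ x, (∀ n, x ∈ G n) → x ∈ s := by
  obtain ⟨S, h1, h2, h3, h4⟩ := mem_residual_iff.1 hs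
  obtain ⟨G, hG⟩ := (h3.insert Set.univ).exists_eq_range ⟨Set.univ, Set.mem_insert _ _⟩
  have hm : ∀ n, G n = Set.univ ∨ G n ∈ S := fun n => by
    have : G n ∈ insert Set.univ S := by
      rw [hG]
      exact ⟨n, rfl⟩
    exact this
  refine ⟨G, fun n => ?_, fun n => ?_, fun x hx => h4 ?_⟩
  · rcases hm n with h | h
    · rw [h]
      exact isOpen_univ
    · exact h1 _ h
  · rcases hm n with h | h
    · rw [h]
      exact dense_univ
    · exact h2 _ h
  · intro t ht
    have : t ∈ Set.range G := by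
      rw [← hG]
      exact Set.mem_insert_of_mem _ ht
    obtain ⟨n, rfl⟩ := this
    exact hx n

/-- A Borel set is, up to a meagre set, open.  The first alternative of the stage: if
`{a | f a - s ∈ BB}` is not meagre, there is a perfect box inside of it.  Proof: by
`MeasurableSet.residualEq_isOpen` there is an open set `O` which differs from the set by a meagre
set; `O` is nonempty; `fusion_cube` for `O` and dense open sets `G n` with
`O ∩ ⋂ n, G n ⊆ {a | f a - s ∈ BB}` (`mem_residual`, a dense `G_δ` set is a countable intersection of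
dense open sets). -/
theorem exists_box_of_not_meagre {f : (ℕ → Ct) → S1} (hf : Continuous f) (s : S1)
    (h : ¬ ∀ᶠ a in residual (ℕ → Ct), f a - s ∉ BB) :
    ∃ P : ℕ → Set Ct, (∀ i, Perfect (P i) ∧ (P i).Nonempty) ∧ ∀ a ∈ Bx P, f a - s ∈ BB := by
  have hmeas : MeasurableSet {a : ℕ → Ct | f a - s ∈ BB} :=
    (hf.sub continuous_const).measurable measurableSet_BB
  obtain ⟨O, hO, hOe⟩ := hmeas.residualEq_isOpen
  have hiff : ∀ᶠ a in residual (ℕ → Ct), (f a - s ∈ BB ↔ a ∈ O) := by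
    filter_upwards [hOe] with a ha
    exact Iff.of_eq ha
  have hOn : O.Nonempty := by
    by_contra hne
    apply h
    filter_upwards [hiff] with a ha hb
    exact hne ⟨a, ha.1 hb⟩
  obtain ⟨G, hG1, hG2, hG3⟩ := T1_exists_dense hiff
  obtain ⟨P, hP, hPO, hPG, -, -⟩ := fusion_cube hf (C := fun _ => ∅) (fun _ => isClosed_empty)
    (fun _ A A' hA hA' hh => by
      obtain ⟨x, hx⟩ := hA.nonempty
      obtain ⟨x', hx'⟩ := hA'.nonempty
      exact hh x hx x' hx')
    (fun _ => Set.notMem_empty _) (δ := fun _ => 1) (fun _ => one_pos) hO hOn hG1 hG2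
  exact ⟨P, hP, fun a ha => (hG3 a fun n => hPG n ha).2 (hPO ha)⟩

/-- The second alternative.  Proof: a countable intersection of residual sets; `fusion_cube` for
`O = univ`, `C j = CC j`, `δ = dl` (`dl_pos`, `isClosed_CC`, `zero_notMem_CC`, `no_rect`). -/
theorem exists_box_of_meagre {f : (ℕ → Ct) → S1} (hf : Continuous f) (s : ℕ → S1)
    (h : ∀ k, ∀ᶠ a in residual (ℕ → Ct), f a - s k ∉ BB) :
    ∃ P : ℕ → Set Ct, (∀ i, Perfect (P i) ∧ (P i).Nonempty) ∧ (∀ a ∈ Bx P, ∀ k, f a - s k ∉ BB) ∧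
      (∀ j, ∀ a ∈ Bx P, ∀ b ∈ Bx P, f a - f b ∉ CC j) ∧
      ∀ n, ∃ pts : Fin (2 ^ n) → S1, ∀ a ∈ Bx P, ∃ i, ‖f a - pts i‖ ≤ dl n := by
  have h1 : ∀ᶠ a in residual (ℕ → Ct), ∀ k, f a - s k ∉ BB := eventually_countable_forall.2 h
  obtain ⟨G, hG1, hG2, hG3⟩ := T1_exists_dense h1
  obtain ⟨P, hP, -, hPG, hPC, hPs⟩ := fusion_cube hf isClosed_CC
    (fun _ A A' hA hA' => no_rect hA hA') zero_notMem_CC dl_pos isOpen_univ Set.univ_nonempty
    hG1 hG2
  exact ⟨P, hP, fun a ha => hG3 a fun n => hPG n ha, hPC, hPs⟩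

-- END T1

-- BEGIN T2

/-- One stage.  Proof: if `exists_box_of_not_meagre` applies to some `s k`, take the code of `coding`
for `K = ∅`.  Otherwise let `P` be given by `exists_box_of_meagre` and let `c` be the code of `coding`
for the compact set `K = f '' Bx P`.  Then `f a - tc c ∈ BB` for `a ∈ Bx P` by `mem_BB` (`m = 0`). -/
theorem stage {f : (ℕ → Ct) → S1} (hf : Continuous f) (s : ℕ → S1) :
    ∃ c : Ct, (∀ k, tk k c = s k) ∧ (∀ k, s k - tc c ∈ Dm (k + 1) c) ∧
      (∀ x ∈ KK c, ∀ k, x - s k ∉ BB) ∧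
      ∃ P : ℕ → Set Ct, (∀ i, Perfect (P i) ∧ (P i).Nonempty) ∧
        ((∀ a ∈ Bx P, f a - tc c ∈ BB) ∨ ∃ k, ∀ a ∈ Bx P, f a - s k ∈ BB) := by
  by_cases h : ∀ k, ∀ᶠ a in residual (ℕ → Ct), f a - s k ∉ BB
  · obtain ⟨P, hP, h1, h2, h3⟩ := exists_box_of_meagre hf s h
    have hK : IsClosed (f '' Bx P) := by
      have h4 : IsClosed (Bx P) := by
        have h5 : Bx P = ⋂ i, (fun a : ℕ → Ct => a i) ⁻¹' P i := by
          ext a
          simp [Bx]
        rw [h5]
        exact isClosed_iInter fun i => (hP i).1.closed.preimage (continuous_apply i)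
      exact (h4.isCompact.image hf).isClosed
    obtain ⟨c, hc1, hc2, hc3, hc4⟩ := coding hK s (by
      intro n
      obtain ⟨pts, hpts⟩ := h3 n
      refine ⟨pts, ?_⟩
      rintro x ⟨a, ha, rfl⟩
      exact hpts a ha)
    refine ⟨c, hc1, hc4, ?_, P, hP, Or.inl ?_⟩
    · rw [hc2]
      rintro x ⟨a, ha, rfl⟩ k
      exact h1 a ha k
    · intro a ha
      rw [mem_BB]
      refine ⟨0, c, hc3 _ ⟨a, ha, rfl⟩, ?_, ?_⟩
      · rw [sub_add_cancel, hc2]
        exact ⟨a, ha, rfl⟩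
      · rw [hc2]
        rintro j x ⟨a, ha, rfl⟩ x' ⟨b, hb, rfl⟩
        exact h2 j a ha b hb
  · obtain ⟨k, hk⟩ := not_forall.1 h
    obtain ⟨P, hP, h1⟩ := exists_box_of_not_meagre hf (s k) hk
    obtain ⟨c, hc1, hc2, hc3, hc4⟩ := coding (K := ∅) isClosed_empty s
      (fun n => ⟨fun _ => 0, fun x hx => absurd hx (Set.notMem_empty x)⟩)
    refine ⟨c, hc1, hc4, ?_, P, hP, Or.inr ⟨k, h1⟩⟩
    rw [hc2]
    intro x hx
    exact absurd hx (Set.notMem_empty x)

-- END T2

-- BEGIN T3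

/-- Proof: a continuous map is determined by its restriction to a countable dense set, so there are
at most `𝔠 ^ ℵ₀ = 𝔠` of them. -/
theorem mk_continuous_le : #{f : (ℕ → Ct) → S1 // Continuous f} ≤ 𝔠 := by
  have h1 : #S1 ≤ 𝔠 := by
    rw [← Cardinal.mk_real]
    exact Cardinal.mk_le_of_surjective (f := fun x : ℝ => (x : S1)) QuotientAddGroup.mk_surjective
  have h2 : #(ℕ → S1) ≤ 𝔠 := by
    rw [← Cardinal.power_def, Cardinal.mk_nat]
    exact (Cardinal.power_le_power_right h1).trans_eq Cardinal.continuum_power_aleph0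
  refine (Cardinal.mk_le_of_injective (f := fun f : {f : (ℕ → Ct) → S1 // Continuous f} =>
    fun n : ℕ => f.1 (TopologicalSpace.denseSeq (ℕ → Ct) n)) ?_).trans h2
  intro f g hfg
  refine Subtype.ext (Continuous.ext_on (TopologicalSpace.denseRange_denseSeq (ℕ → Ct)) f.2 g.2 ?_)
  rintro _ ⟨n, rfl⟩
  exact congrFun hfg n

-- END T3

-- BEGIN T4

/-- The translates.  Proof: let `Ω = (ℵ₁).ord.ToType`, a well-order with countable initial segments
and least element `⊥`.  Let `F` be a map from `{γ | γ ≠ ⊥}` onto the continuous maps (CH,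
`mk_continuous_le`).  Define `t` by well-founded recursion: `t ⊥ = 0`, and for `γ ≠ ⊥` let
`s : ℕ → S1` be an enumeration of `{t β | β < γ}` (nonempty and countable), let `c γ` be the code of
`stage` for `F γ` and `s`, and `t γ = tc (c γ)`.  For `β < γ` we have `t β = s k = tk k (c γ)` for some
`k`, so the translates are disjoint by `disjoint_BB`.  Given `f = F γ`, `stage` gives a box with
`f a - t γ ∈ BB` or `f a - t β ∈ BB`. -/
theorem exists_tiling (hCH : (𝔠 : Cardinal.{0}) = ℵ₁) : ∃ (Ω : Type) (t : Ω → S1), #Ω = ℵ₁ ∧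
    (∀ γ β, γ ≠ β → ∀ x, x - t γ ∈ BB → x - t β ∉ BB) ∧
    ∀ f : (ℕ → Ct) → S1, Continuous f → ∃ γ, ∃ P : ℕ → Set Ct,
      (∀ i, Perfect (P i) ∧ (P i).Nonempty) ∧ ∀ a ∈ Bx P, f a - t γ ∈ BB := by
  classical
  have hΩ : #((ℵ₁ : Cardinal.{0}).ord.ToType) = ℵ₁ := Cardinal.mk_ord_toType _
  have hseg : ∀ γ : (ℵ₁ : Cardinal.{0}).ord.ToType, (Set.Iio γ).Countable := by
    intro γ
    have h1 := Cardinal.mk_Iio_toType_ord_lt γ
    rw [← Cardinal.le_aleph0_iff_set_countable]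
    exact Order.lt_succ_iff.1 (h1.trans_eq Cardinal.succ_aleph0.symm)
  -- the surjection
  have hC : #({f : (ℕ → Ct) → S1 // Continuous f} × Bool) ≤ #((ℵ₁ : Cardinal.{0}).ord.ToType) := by
    rw [hΩ, ← hCH]
    simp only [Cardinal.mk_prod, Cardinal.lift_id, Cardinal.mk_bool]
    calc #{f : (ℕ → Ct) → S1 // Continuous f} * 2 ≤ 𝔠 * 𝔠 :=
          mul_le_mul' mk_continuous_le (Cardinal.nat_lt_continuum 2).le
      _ = 𝔠 := Cardinal.continuum_mul_self
  obtain ⟨ι⟩ := hC
  have hne : Nonempty ({f : (ℕ → Ct) → S1 // Continuous f} × Bool) :=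
    ⟨⟨⟨fun _ => 0, continuous_const⟩, true⟩⟩
  obtain ⟨F, hF⟩ : ∃ F : (ℵ₁ : Cardinal.{0}).ord.ToType →
      {f : (ℕ → Ct) → S1 // Continuous f} × Bool, Function.Surjective F :=
    ⟨Function.invFun ι, Function.invFun_surjective ι.injective⟩
  -- the step relation
  let R : (ℵ₁ : Cardinal.{0}).ord.ToType → Set S1 → S1 → Prop := fun γ T x =>
    ∃ s : ℕ → S1, Set.range s = T ∧ ∃ c : Ct, x = tc c ∧ (∀ k, tk k c = s k) ∧
      (∀ k, s k - tc c ∈ Dm (k + 1) c) ∧ (∀ x ∈ KK c, ∀ k, x - s k ∉ BB) ∧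
      ∃ P : ℕ → Set Ct, (∀ i, Perfect (P i) ∧ (P i).Nonempty) ∧
        ((∀ a ∈ Bx P, (F γ).1.1 a - tc c ∈ BB) ∨ ∃ k, ∀ a ∈ Bx P, (F γ).1.1 a - s k ∈ BB)
  have hR : ∀ γ T, T.Nonempty → T.Countable → ∃ x, R γ T x := by
    intro γ T hT hTc
    obtain ⟨s, hs⟩ := hTc.exists_eq_range hT
    obtain ⟨c, h1⟩ := stage (F γ).1.2 s
    exact ⟨tc c, s, hs.symm, c, rfl, h1⟩
  -- the recursion
  obtain ⟨t, ht⟩ : ∃ t : (ℵ₁ : Cardinal.{0}).ord.ToType → S1,
      ∀ γ, (∃ β, β < γ) → R γ (t '' Set.Iio γ) (t γ) := by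
    let G : (γ : (ℵ₁ : Cardinal.{0}).ord.ToType) → ((β : (ℵ₁ : Cardinal.{0}).ord.ToType) →
        β < γ → S1) → S1 := fun γ t' =>
      if h : ∃ x, R γ {y | ∃ β, ∃ h : β < γ, t' β h = y} x then h.choose else 0
    refine ⟨wellFounded_lt.fix G, fun γ hγ => ?_⟩
    have h1 : {y | ∃ β, ∃ h : β < γ, (fun (β : (ℵ₁ : Cardinal.{0}).ord.ToType) (_ : β < γ) =>
        wellFounded_lt.fix G β) β h = y} = wellFounded_lt.fix G '' Set.Iio γ := by
      ext y
      constructor
      · rintro ⟨β, hβ, rfl⟩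
        exact ⟨β, hβ, rfl⟩
      · rintro ⟨β, hβ, rfl⟩
        exact ⟨β, hβ, rfl⟩
    have h2 : ∃ x, R γ {y | ∃ β, ∃ h : β < γ, (fun (β : (ℵ₁ : Cardinal.{0}).ord.ToType)
        (_ : β < γ) => wellFounded_lt.fix G β) β h = y} x := by
      rw [h1]
      obtain ⟨β, hβ⟩ := hγ
      exact hR γ _ ⟨_, β, hβ, rfl⟩ ((hseg γ).image _)
    have h3 : wellFounded_lt.fix G γ = h2.choose := by
      rw [WellFounded.fix_eq]
      exact dif_pos h2
    rw [h3, ← h1]
    exact h2.choose_spec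
  refine ⟨(ℵ₁ : Cardinal.{0}).ord.ToType, t, hΩ, ?_, ?_⟩
  · have hlt : ∀ γ β, β < γ → ∀ x, x - t γ ∈ BB → x - t β ∉ BB := by
      intro γ β hβ x hx
      obtain ⟨s, hs, c, hc, h1, h2, h3, -⟩ := ht γ ⟨β, hβ⟩
      have h4 : t β ∈ Set.range s := by
        rw [hs]
        exact ⟨β, hβ, rfl⟩
      obtain ⟨k, hk⟩ := h4
      rw [← hk, ← h1 k]
      rw [hc] at hx
      refine disjoint_BB (m := k + 1) ?_ (fun x hx => ?_) x hx
      · rw [h1 k]
        exact h2 k
      · rw [h1 k]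
        exact h3 x hx k
    intro γ β hne' x hx hx'
    rcases lt_or_gt_of_ne hne' with h | h
    · exact hlt β γ h x hx' hx
    · exact hlt γ β h x hx hx'
  · intro f hf
    have hgo : ∀ γ, (∃ β, β < γ) → (F γ).1.1 = f → ∃ γ, ∃ P : ℕ → Set Ct,
        (∀ i, Perfect (P i) ∧ (P i).Nonempty) ∧ ∀ a ∈ Bx P, f a - t γ ∈ BB := by
      intro γ hγ hFγ
      obtain ⟨s, hs, c, hc, h1, h2, h3, P, hP, h4⟩ := ht γ hγ
      rw [hFγ] at h4
      rcases h4 with h4 | ⟨k, h4⟩
      · refine ⟨γ, P, hP, fun a ha => ?_⟩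
        rw [hc]
        exact h4 a ha
      · have h5 : s k ∈ t '' Set.Iio γ := by
          rw [← hs]
          exact ⟨k, rfl⟩
        obtain ⟨β, -, hβ⟩ := h5
        refine ⟨β, P, hP, fun a ha => ?_⟩
        rw [hβ]
        exact h4 a ha
    obtain ⟨γ₁, h1⟩ := hF (⟨f, hf⟩, true)
    obtain ⟨γ₂, h2⟩ := hF (⟨f, hf⟩, false)
    have h12 : γ₁ ≠ γ₂ := by
      rintro rfl
      rw [h1] at h2
      exact Bool.noConfusion (Prod.mk.inj h2).2
    rcases lt_or_gt_of_ne h12 with h | h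
    · exact hgo γ₂ ⟨γ₁, h⟩ (by rw [h2])
    · exact hgo γ₁ ⟨γ₂, h⟩ (by rw [h1])

-- END T4

end Pool.Agent.Lib.MP_034dba_lc
end

section

set_option autoImplicit false

/-!
# Continuous reading of names of reals, and the forced covering
-/

open Pool.Agent.Lib.MP_77d395_lc (SetName fAll fEx fIff fEnum)

namespace Pool.Agent.Lib.MP_034dba_lc

variable {I : Type}

-- BEGIN R1

/-- a map to `Bool` which depends on finitely many digits is continuous -/
theorem R1_cont {G : Ct → Bool} {n : ℕ} (h : ∀ σ τ : Ct, (∀ k < n, σ k = τ k) → G σ = G τ) :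
    Continuous G := by
  refine IsLocallyConstant.continuous ((IsLocallyConstant.iff_exists_open G).2 fun σ => ?_)
  refine ⟨⋂ k ∈ Finset.range n, {τ : Ct | τ k = σ k}, ?_, ?_, fun τ hτ => ?_⟩
  · refine isOpen_biInter_finset fun k _ => ?_
    have hc : Continuous fun τ : Ct => τ k := continuous_apply k
    exact (isOpen_discrete {σ k}).preimage hc
  · simp
  · refine h τ σ fun k hk => ?_
    simp only [Finset.mem_range, Set.mem_iInter] at hτ
    exact hτ k hk

/-- Continuous reading of names.  Proof: fusion (`exists_fus`) for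
`D n c = (b.mem n c ∨ ∀ d ≤ c, ¬ b.mem n d)` (dense: if no `d ≤ c` has `b.mem n d` then `c` is in it;
hereditary by `SetName.mono`); `g a n` is true iff `b.mem n (U (n + 1) (B a))` with `B` from
`Fus.exists_branch`.  Continuity: `U (n + 1) (B a)` depends only on the first `n + 1` digits of `B a`
(`CS.eq_nd`).  For the last part take `r' ≤ U l (B a)` from `Fus.restrict`, and use `Fus.anti`. -/
theorem exists_reading [Nonempty I] (b : SetName (Cond I) ℕ) (p : Cond I) :
    ∃ q ≤ p, ∃ (e : ℕ → I) (g : (I → Ct) → Ct), ContinuousOn g (Bx q.s) ∧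
      (∀ a ∈ Bx q.s, ∀ a' ∈ Bx q.s, (∀ n, a (e n) = a' (e n)) → g a = g a') ∧
      (∀ α, q.s α ≠ Set.univ → ∃ n, e n = α) ∧
      ∀ r ≤ q, ∀ a ∈ Bx r.s, ∀ l, ∃ r' ≤ r, ∀ i < l,
        (g a i = true → b.mem i r') ∧ (g a i = false → ∀ d ≤ r', ¬ b.mem i d) := by
  classical
  obtain ⟨e, U, q, h⟩ := exists_fus p (fun n c => b.mem n c ∨ ∀ d ≤ c, ¬ b.mem n d)
    (fun n q r hr hq => hq.imp (b.mono n q r hr) fun h d hd => h d (hd.trans hr))
    (fun n q _ => by
      by_cases hex : ∃ d ≤ q, b.mem n d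
      · obtain ⟨d, hd, hm⟩ := hex
        exact ⟨d, hd, Or.inl hm⟩
      · push Not at hex
        exact ⟨q, le_rfl, Or.inr hex⟩)
  obtain ⟨B, hB1, hB2, hB3⟩ := h.exists_branch
  let G : ℕ → Ct → Bool := fun n σ => decide (b.mem n (U (n + 1) σ))
  have hG : ∀ n, Continuous (G n) := fun n => R1_cont (n := n + 1) fun σ τ hστ => by
    simp only [G]
    rw [(h.sys (n + 1)).eq_nd hστ]
  refine ⟨q, h.q_le, e, fun a n => G n (B a), ?_, ?_, fun α => h.supp, ?_⟩
  · refine continuousOn_pi.2 fun n => ?_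
    exact (hG n).comp_continuousOn hB2
  · intro a ha a' ha' haa
    funext n
    simp only [hB3 a ha a' ha' haa]
  · intro r hr a ha l
    have haq : a ∈ Bx q.s := fun α => hr α (ha α)
    obtain ⟨r', hr', hr'U, _⟩ := h.restrict hr ha (hB1 a haq l)
    refine ⟨r', hr', fun i hi => ?_⟩
    have h1 : r' ≤ U (i + 1) (B a) := hr'U.trans (h.anti hi (B a))
    constructor
    · intro h2
      exact b.mono i _ _ h1 (of_decide_eq_true h2)
    · intro h2 d hd
      rcases h.mem i (B a) with h3 | h3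
      · exact absurd h3 (of_decide_eq_false h2)
      · exact h3 d (hd.trans h1)

-- END R1

-- BEGIN R2

/-- an injective enumeration of a countable set containing the range of `e` -/
theorem exists_inj_enum [Infinite I] (e : ℕ → I) :
    ∃ ν : ℕ → I, Function.Injective ν ∧ ∀ n, ∃ i, ν i = e n := by
  let S : Set I := Set.range e ∪ Set.range (Infinite.natEmbedding I)
  have hc : S.Countable := (Set.countable_range _).union (Set.countable_range _)
  have hi : S.Infinite :=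
    (Set.infinite_range_of_injective (Infinite.natEmbedding I).injective).mono
      Set.subset_union_right
  obtain ⟨hd⟩ := Set.countable_infinite_iff_nonempty_denumerable.1 ⟨hc, hi⟩
  refine ⟨fun n => ((Denumerable.eqv S).symm n : S), ?_, fun n => ?_⟩
  · exact Subtype.val_injective.comp (Denumerable.eqv S).symm.injective
  · refine ⟨Denumerable.eqv S ⟨e n, Or.inl ⟨n, rfl⟩⟩, ?_⟩
    simp

/-- a continuous injective image of a perfect set is perfect (all sets are compact) -/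
theorem perfect_image {φ : Ct → Ct} (hφ : Continuous φ) (hi : Function.Injective φ) {A : Set Ct}
    (hA : Perfect A) : Perfect (φ '' A) := by
  refine ⟨(hA.closed.isCompact.image hφ).isClosed, ?_⟩
  rintro _ ⟨x, hx, rfl⟩
  have h1 := (hA.acc x hx).map hφ.continuousAt hi
  rwa [Filter.map_principal] at h1

-- END R2

-- BEGIN R3

theorem R3_inj {A : Set Ct} (hA : Perfect A) (hne : A.Nonempty) :
    ∃ φ : Ct → Ct, Set.range φ ⊆ A ∧ Continuous φ ∧ Function.Injective φ := by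
  letI := TopologicalSpace.upgradeIsCompletelyMetrizable Ct
  exact hA.exists_nat_bool_injection hne

/-- The covering on a box.  Proof: `ν` from `exists_inj_enum`, `φ i : Ct → Ct` a continuous injection
into `q.s (ν i)` (`Perfect.exists_nat_bool_injection`), `x₀` a point of `Ct`; let
`Φ c α = φ i (c i)` if `α = ν i` and `Φ c α = x₀` if `α` is not in the range of `ν` (then
`q.s α = univ`), a continuous map `(ℕ → Ct) → (I → Ct)` into `Bx q.s`.  Apply `hA` to the continuous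
map `f ∘ Φ` and get `γ`, `P`.  Let `r.s (ν i) = φ i '' P i` (`perfect_image`) and `r.s α = univ`
otherwise.  A point `a` of `Bx r.s` has `a (ν i) = φ i (c i)` with `c ∈ Bx P`, so `a` and `Φ c` agree at
all `e n`, and `f a = f (Φ c)`. -/
theorem exists_cover [Infinite I] {Ω : Type} {t : Ω → S1} {B : Set S1}
    (hA : ∀ f : (ℕ → Ct) → S1, Continuous f → ∃ γ, ∃ P : ℕ → Set Ct,
      (∀ i, Perfect (P i) ∧ (P i).Nonempty) ∧ ∀ a ∈ Bx P, f a - t γ ∈ B)
    {f : (I → Ct) → S1} {q : Cond I} {e : ℕ → I} (hf : ContinuousOn f (Bx q.s))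
    (hdep : ∀ a ∈ Bx q.s, ∀ a' ∈ Bx q.s, (∀ n, a (e n) = a' (e n)) → f a = f a')
    (hsupp : ∀ α, q.s α ≠ Set.univ → ∃ n, e n = α) :
    ∃ r ≤ q, ∃ γ, ∀ a ∈ Bx r.s, f a - t γ ∈ B := by
  classical
  obtain ⟨ν, hνi, hν⟩ := exists_inj_enum e
  choose φ hφr hφc hφi using fun i => R3_inj (q.perf (ν i)) (q.ne (ν i))
  have hq : ∀ α, (¬ ∃ i, ν i = α) → q.s α = Set.univ := by
    intro α hα
    by_contra hne
    obtain ⟨n, hn⟩ := hsupp α hne
    obtain ⟨i, hi⟩ := hν n
    exact hα ⟨i, hi.trans hn⟩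
  let Φ : (ℕ → Ct) → I → Ct := fun c α =>
    if h : ∃ i, ν i = α then φ h.choose (c h.choose) else fun _ => false
  have hch : ∀ i, ∀ h : ∃ j, ν j = ν i, h.choose = i := fun i h => hνi h.choose_spec
  have hΦν : ∀ c i, Φ c (ν i) = φ i (c i) := by
    intro c i
    have h : ∃ j, ν j = ν i := ⟨i, rfl⟩
    simp only [Φ]
    rw [dif_pos h, hch i h]
  have hΦq : ∀ c, Φ c ∈ Bx q.s := by
    intro c α
    by_cases h : ∃ i, ν i = α
    · obtain ⟨i, rfl⟩ := h
      rw [hΦν]
      exact hφr i (Set.mem_range_self _)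
    · rw [hq α h]
      exact Set.mem_univ _
  have hΦc : Continuous Φ := by
    refine continuous_pi fun α => ?_
    by_cases h : ∃ i, ν i = α
    · obtain ⟨i, rfl⟩ := h
      simp only [hΦν]
      exact (hφc i).comp (continuous_apply i)
    · simp only [Φ, dif_neg h]
      exact continuous_const
  obtain ⟨γ, P, hP, hPB⟩ := hA (f ∘ Φ) (hf.comp_continuous hΦc hΦq)
  let s : I → Set Ct := fun α =>
    if h : ∃ i, ν i = α then φ h.choose '' P h.choose else Set.univ
  have hsν : ∀ i, s (ν i) = φ i '' P i := by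
    intro i
    have h : ∃ j, ν j = ν i := ⟨i, rfl⟩
    simp only [s]
    rw [dif_pos h, hch i h]
  have hsoff : ∀ α, (¬ ∃ i, ν i = α) → s α = Set.univ := fun α h => dif_neg h
  let r : Cond I :=
    { s := s
      perf := fun α => by
        by_cases h : ∃ i, ν i = α
        · obtain ⟨i, rfl⟩ := h
          rw [hsν]
          exact perfect_image (hφc i) (hφi i) (hP i).1
        · rw [hsoff α h]
          exact perfect_univ
      ne := fun α => by
        by_cases h : ∃ i, ν i = α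
        · obtain ⟨i, rfl⟩ := h
          rw [hsν]
          exact (hP i).2.image _
        · rw [hsoff α h]
          exact Set.univ_nonempty
      cnt := by
        refine (Set.countable_range ν).mono fun α hα => ?_
        by_contra h
        exact hα (hsoff α h) }
  have hrq : r ≤ q := by
    intro α
    change s α ⊆ q.s α
    by_cases h : ∃ i, ν i = α
    · obtain ⟨i, rfl⟩ := h
      rw [hsν]
      exact (Set.image_subset_range _ _).trans (hφr i)
    · rw [hq α h]
      exact Set.subset_univ _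
  refine ⟨r, hrq, γ, fun a ha => ?_⟩
  have h1 : ∀ i, ∃ x ∈ P i, φ i x = a (ν i) := by
    intro i
    have := ha (ν i)
    change a (ν i) ∈ s (ν i) at this
    rw [hsν] at this
    exact this
  choose c hc hca using h1
  have h2 : f a = f (Φ c) := by
    refine hdep a (fun α => hrq α (ha α)) _ (hΦq c) fun n => ?_
    obtain ⟨i, hi⟩ := hν n
    rw [← hi, hΦν, hca]
  rw [h2]
  exact hPB c hc

-- END R3

-- BEGIN R4

/-- the digits of `rv b` -/
theorem abs_rv_sub_lo (b : Ct) (l : ℕ) (s : Finset ℕ) (h : ∀ i < l, b i = true ↔ i ∈ s) :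
    |rv b - lo l s| ≤ (1 / 2) ^ l := by
  have h1 := rv_split b l
  have h2 : (∑ i ∈ Finset.range l, if b i then (1 / 2 : ℝ) ^ (i + 1) else 0) = lo l s := by
    unfold lo
    refine Finset.sum_congr rfl fun i hi => ?_
    have h3 := h i (Finset.mem_range.1 hi)
    by_cases h4 : i ∈ s
    · rw [if_pos h4, if_pos (h3.2 h4)]
    · rw [if_neg h4, if_neg (fun h5 => h4 (h3.1 h5))]
  rw [h2] at h1
  have h5 : rv b - lo l s = (1 / 2) ^ l * rv (fun i => b (i + l)) := by rw [h1]; ring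
  have h6 := rv_nonneg (fun i => b (i + l))
  have h7 := rv_le_one (fun i => b (i + l))
  have h8 : (0 : ℝ) ≤ (1 / 2) ^ l := by positivity
  rw [h5, abs_of_nonneg (mul_nonneg h8 h6)]
  exact mul_le_of_le_one_right h8 h7

/-- Proof.  By `exists_reading` below the given condition there are `q`, `e`, `g`;  by
`exists_cover` for `f a = val (g a)` and `B = BB` there are `r ≤ q` and `γ` such that
`val (g a) - (t γ : S1) ∈ BB` for `a ∈ Bx r.s`.  Claim: `r` forces `fInTile F (t γ) z b` for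
`F j m = {x | (x : S1) ∈ FF j m}`.  Let `j` and `r₁ ≤ r` be given.  The sets
`Z m = {a ∈ Bx r₁.s | val (g a) - t γ ∈ FF j m}` are closed (`isClosed_FF`) and cover `Bx r₁.s`; by
`Cond.baire` there are `m` and `r₂ ≤ r₁` with `Bx r₂.s ⊆ Z m`.  `r₂` forces `fIn (F j m) (t γ) z b`:
let `r₃ ≤ r₂` force `fDig b l s`, let `a ∈ Bx r₃.s` (`Cond.bx_nonempty`) and let `r₄ ≤ r₃` be given by
`exists_reading` for `a`, `l`.  Then `g a i = true ↔ i ∈ s` for `i < l`, so
`|rv (g a) - lo l s| ≤ (1 / 2) ^ l` and `x = z + rv (g a) - t γ` is in `F j m` and shows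
`Near (F j m) (t γ) z l s`. -/
theorem forced_cover [Infinite I] {Ω : Type} {t : Ω → ℝ}
    (hA : ∀ f : (ℕ → Ct) → S1, Continuous f → ∃ γ, ∃ P : ℕ → Set Ct,
      (∀ i, Perfect (P i) ∧ (P i).Nonempty) ∧ ∀ a ∈ Bx P, f a - ((t γ : ℝ) : S1) ∈ BB)
    (z : ℤ) (b : SetName (Cond I) ℕ) (p : Cond I) :
    fEx (fun γ : Ω => fInTile (fun j m => {x : ℝ | (x : S1) ∈ FF j m}) (t γ) z b) p := by
  intro q₀ _
  obtain ⟨q, hq, e, g, hgc, hgd, hgs, hgr⟩ := exists_reading b q₀
  have hfc : ContinuousOn (fun a => val (g a)) (Bx q.s) := continuous_val.comp_continuousOn hgc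
  obtain ⟨r, hr, γ, hγ⟩ := exists_cover (t := fun γ => ((t γ : ℝ) : S1)) (B := BB) hA hfc
    (fun a ha a' ha' haa => by rw [hgd a ha a' ha' haa]) hgs
  refine ⟨r, le_trans hr hq, γ, fun j r₁ hr₁ => ?_⟩
  have hr₁q : r₁ ≤ q := le_trans hr₁ hr
  have hcov : Bx r₁.s ⊆ ⋃ m, (Bx r₁.s ∩ (fun a => val (g a) - ((t γ : ℝ) : S1)) ⁻¹' FF j m) := by
    intro a ha
    have h1 : val (g a) - ((t γ : ℝ) : S1) ∈ BB := hγ a (Cond.bx_subset hr₁ ha)
    obtain ⟨m, hm⟩ := Set.mem_iUnion.1 (Set.mem_iInter.1 h1 j)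
    exact Set.mem_iUnion.2 ⟨m, ha, hm⟩
  have hcl : ∀ m, IsClosed (Bx r₁.s ∩ (fun a => val (g a) - ((t γ : ℝ) : S1)) ⁻¹' FF j m) := by
    intro m
    refine ContinuousOn.preimage_isClosed_of_isClosed ?_ r₁.isClosed_bx (isClosed_FF j m)
    exact (hfc.mono (Cond.bx_subset hr₁q)).sub continuousOn_const
  obtain ⟨r₂, hr₂, m, hm⟩ := r₁.baire hcl hcov
  refine ⟨r₂, hr₂, m, fun l s r₃ hr₃ hdig => ?_⟩
  obtain ⟨a, ha⟩ := r₃.bx_nonempty
  obtain ⟨r₄, hr₄, h4⟩ := hgr r₃ (le_trans hr₃ (le_trans hr₂ hr₁q)) a ha l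
  have hs : ∀ i < l, g a i = true ↔ i ∈ s := by
    intro i hi
    have h5 : b.mem i r₄ ↔ i ∈ s := hdig i r₃ le_rfl hi r₄ hr₄
    constructor
    · intro h6
      exact h5.1 ((h4 i hi).1 h6)
    · intro h6
      by_contra h7
      exact (h4 i hi).2 (Bool.eq_false_iff.2 h7) r₄ le_rfl (h5.2 h6)
  have hb := abs_rv_sub_lo (g a) l s hs
  have hmem : val (g a) - ((t γ : ℝ) : S1) ∈ FF j m := (hm (Cond.bx_subset hr₃ ha)).2
  refine ⟨(z : ℝ) + rv (g a) - t γ, ?_, ?_⟩
  · have hz : (((z : ℝ) + rv (g a) - t γ : ℝ) : S1) = val (g a) - ((t γ : ℝ) : S1) := by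
      have h8 : (((z : ℝ)) : S1) = 0 := by
        rw [AddCircle.coe_eq_zero_iff]
        exact ⟨z, by simp⟩
      rw [AddCircle.coe_sub, AddCircle.coe_add, h8, zero_add]
      rfl
    change (((z : ℝ) + rv (g a) - t γ : ℝ) : S1) ∈ FF j m
    rw [hz]
    exact hmem
  · have h9 : (z : ℝ) + rv (g a) - t γ + t γ - (z + lo l s) = rv (g a) - lo l s := by ring
    rw [h9]
    have h10 : (0 : ℝ) < (1 / 2) ^ l := by positivity
    linarith

-- END R4

end Pool.Agent.Lib.MP_034dba_lc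
end

section

set_option autoImplicit false

/-!
# Reals and their digits; forced disjointness; the partition
-/

open Cardinal
open Pool.Agent.Lib.MP_77d395_lc (SetName fAll fEx fIff fEnum)

namespace Pool.Agent.Lib.MP_034dba_lc

/-- the real number with the binary digits `b ⊆ ℕ` -/
noncomputable def rs (b : Set ℕ) : ℝ := by
  classical exact rv fun i => decide (i ∈ b)

-- BEGIN L1

theorem abs_rs_sub_lo (b : Set ℕ) (l : ℕ) (s : Finset ℕ) (h : ∀ i < l, i ∈ b ↔ i ∈ s) :
    |rs b - lo l s| ≤ (1 / 2) ^ l := by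
  classical
  have h1 : rs b = rv fun i => decide (i ∈ b) := by
    unfold rs
    congr 1
  have h2 : lo l s = ∑ i ∈ Finset.range l, if (fun i => decide (i ∈ b)) i = true then
      (1 / 2 : ℝ) ^ (i + 1) else 0 := by
    unfold lo
    refine Finset.sum_congr rfl fun i hi => ?_
    have := h i (Finset.mem_range.1 hi)
    simp only [decide_eq_true_eq, this]
  rw [h1, h2, rv_split _ l, add_sub_cancel_left]
  have h3 := rv_nonneg fun i => (fun i => decide (i ∈ b)) (i + l)
  have h4 := rv_le_one fun i => (fun i => decide (i ∈ b)) (i + l)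
  have h5 : (0 : ℝ) < (1 / 2) ^ l := by positivity
  rw [abs_of_nonneg (mul_nonneg h5.le h3)]
  exact mul_le_of_le_one_right h5.le h4

/-- Proof: `y = ⌊y⌋ + Int.fract y`, `exists_rv`. -/
theorem exists_rs (y : ℝ) : ∃ (z : ℤ) (b : Set ℕ), y = z + rs b := by
  classical
  obtain ⟨b, hb⟩ := exists_rv (Int.fract_nonneg y) (Int.fract_lt_one y).le
  refine ⟨⌊y⌋, {i | b i = true}, ?_⟩
  have h1 : rs {i | b i = true} = rv b := by
    unfold rs
    congr 1
    funext i
    simp
  rw [h1, hb]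
  exact (Int.floor_add_fract y).symm

/-- Sufficient condition, one witness for each `l`.  Proof: `|x - (z + rs b - t)| ≤ 3 * (1 / 2) ^ l`
for the witness `x ∈ H` of `Near`. -/
theorem mem_closure_of_near {H : Set ℝ} {t : ℝ} {z : ℤ} {b : Set ℕ}
    (h : ∀ l, ∃ s : Finset ℕ, (∀ i < l, i ∈ b ↔ i ∈ s) ∧ Near H t z l s) :
    z + rs b - t ∈ closure H := by
  rw [Metric.mem_closure_iff]
  intro ε hε
  obtain ⟨l, hl⟩ := exists_pow_lt_of_lt_one (show 0 < ε / 3 by positivity)
    (by norm_num : (1 / 2 : ℝ) < 1)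
  obtain ⟨s, hs, x, hx, hxl⟩ := h l
  refine ⟨x, hx, ?_⟩
  have h1 := abs_rs_sub_lo b l s hs
  rw [Real.dist_eq]
  rw [abs_le] at h1
  rw [abs_lt] at hxl ⊢
  constructor <;> linarith [h1.1, h1.2, hxl.1, hxl.2]

theorem in_iff {H : Set ℝ} {t : ℝ} {z : ℤ} {b : Set ℕ} : In H t z b ↔ z + rs b - t ∈ closure H := by
  classical
  constructor
  · intro h
    refine mem_closure_of_near fun l => ⟨(Finset.range l).filter fun i => i ∈ b, ?_, ?_⟩
    · intro i hi
      simp [hi]
    · exact h l _ fun i hi => by simp [hi]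
  · intro h l s hs
    obtain ⟨x, hx, hxl⟩ := Metric.mem_closure_iff.1 h ((1 / 2) ^ l) (by positivity)
    refine ⟨x, hx, ?_⟩
    have h1 := abs_rs_sub_lo b l s hs
    rw [Real.dist_eq] at hxl
    rw [abs_le] at h1
    rw [abs_lt] at hxl ⊢
    constructor <;> linarith [h1.1, h1.2, hxl.1, hxl.2]

theorem inTile_iff {F : ℕ → ℕ → Set ℝ} {t : ℝ} {z : ℤ} {b : Set ℕ} : InTile F t z b ↔
    ∀ j, ∃ m, z + rs b - t ∈ closure (F j m) := by
  unfold InTile
  simp only [in_iff]

-- END L1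

-- BEGIN L2

theorem L2_mono {P : Type} [Preorder P] {H : Set ℝ} {t : ℝ} {z : ℤ} {b : SetName P ℕ} {c d : P}
    (hd : d ≤ c) (h : fIn H t z b c) : fIn H t z b d :=
  fun l s r hr hdig => h l s r (hr.trans hd) hdig

/-- Forced disjointness.  Proof.  Suppose `q` forces both.  Choose a descending sequence
`q = q 0 ≥ q 1 ≥ …` such that `q (n + 1)` decides `n ∈ b` (`b.mem n (q (n + 1))` or no extension of
`q (n + 1)` has `b.mem n`) and forces `fIn (F n (m n)) t z b` and `fIn (F n (m' n)) t' z b` for some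
`m n`, `m' n`.  Let `B = {n | b.mem n (q (n + 1))}`.  Given `j` and `l`, let `k = max (j + 1) l` and let
`s` be the set of the members of `B` below `l`; then `q k` forces `fDig b l s` and
`fIn (F j (m j)) t z b`, so `Near (F j (m j)) t z l s`.  By `mem_closure_of_near` the real
`x = z + rs B` has `x - t ∈ closure (F j (m j))` and `x - t' ∈ closure (F j (m' j))` for all `j`, a
contradiction. -/
theorem forced_disj {P : Type} [Preorder P] {F : ℕ → ℕ → Set ℝ} {t t' : ℝ}
    (hd : ∀ x : ℝ, ¬ ((∀ j, ∃ m, x - t ∈ closure (F j m)) ∧ ∀ j, ∃ m, x - t' ∈ closure (F j m)))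
    (z : ℤ) (b : SetName P ℕ) (p : P) :
    fNot (fAnd (fInTile F t z b) (fInTile F t' z b)) p := by
  classical
  rintro q _ ⟨h1, h2⟩
  have hstep : ∀ (n : ℕ) (c : {c : P // c ≤ q}), ∃ d : {c : P // c ≤ q}, d.1 ≤ c.1 ∧
      (b.mem n d.1 ∨ ∀ e ≤ d.1, ¬ b.mem n e) ∧ (∃ m, fIn (F n m) t z b d.1) ∧
      ∃ m, fIn (F n m) t' z b d.1 := by
    rintro n ⟨c, hc⟩
    obtain ⟨c₁, hc₁, m, hm⟩ := h1 n c hc
    obtain ⟨c₂, hc₂, m', hm'⟩ := h2 n c₁ (hc₁.trans hc)
    by_cases hex : ∃ d ≤ c₂, b.mem n d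
    · obtain ⟨d, hd', hb⟩ := hex
      exact ⟨⟨d, ((hd'.trans hc₂).trans hc₁).trans hc⟩, (hd'.trans hc₂).trans hc₁, Or.inl hb,
        ⟨m, L2_mono (hd'.trans hc₂) hm⟩, ⟨m', L2_mono hd' hm'⟩⟩
    · push Not at hex
      exact ⟨⟨c₂, (hc₂.trans hc₁).trans hc⟩, hc₂.trans hc₁, Or.inr hex,
        ⟨m, L2_mono hc₂ hm⟩, ⟨m', hm'⟩⟩
  choose next hn1 hn2 hn3 hn4 using hstep
  let x : ℕ → {c : P // c ≤ q} := fun n => Nat.rec ⟨q, le_rfl⟩ (fun n y => next n y) n
  have hx : ∀ n, x (n + 1) = next n (x n) := fun n => rfl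
  have hanti : ∀ m n, m ≤ n → (x n).1 ≤ (x m).1 := by
    intro m n hmn
    induction n, hmn using Nat.le_induction with
    | base => exact le_rfl
    | succ n _ ih =>
      rw [hx]
      exact (hn1 n (x n)).trans ih
  let B : Set ℕ := {n | b.mem n (x (n + 1)).1}
  have hdig : ∀ l k, l ≤ k → fDig b l ((Finset.range l).filter fun i => i ∈ B) (x k).1 := by
    intro l k hlk i r hr hi r' hr'
    have hi' : i < l := hi
    have hle : r' ≤ (x (i + 1)).1 := (hr'.trans hr).trans (hanti (i + 1) k (by omega))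
    constructor
    · intro hm
      change i ∈ (Finset.range l).filter fun i => i ∈ B
      rw [Finset.mem_filter, Finset.mem_range]
      refine ⟨hi', ?_⟩
      rcases hn2 i (x i) with h3 | h3
      · exact h3
      · exact absurd hm (h3 r' hle)
    · intro hm
      have hm' : i ∈ (Finset.range l).filter fun i => i ∈ B := hm
      rw [Finset.mem_filter] at hm'
      exact b.mono i _ _ hle hm'.2
  have hnear : ∀ (j m : ℕ) (u : ℝ), fIn (F j m) u z b (x (j + 1)).1 →
      z + rs B - u ∈ closure (F j m) := by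
    intro j m u h
    refine mem_closure_of_near fun l => ⟨(Finset.range l).filter fun i => i ∈ B, fun i hi => ?_, ?_⟩
    · rw [Finset.mem_filter, Finset.mem_range]
      exact ⟨fun h3 => ⟨hi, h3⟩, fun h3 => h3.2⟩
    · exact h l _ (x (max (j + 1) l)).1 (hanti _ _ (le_max_left _ _))
        (hdig l _ (le_max_right _ _))
  refine hd (z + rs B) ⟨fun j => ?_, fun j => ?_⟩
  · obtain ⟨m, hm⟩ := hn3 j (x j)
    exact ⟨m, hnear j m t hm⟩
  · obtain ⟨m, hm⟩ := hn4 j (x j)
    exact ⟨m, hnear j m t' hm⟩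

-- END L2

-- BEGIN L3

/-- The theorem of ZFC.  Proof: `B γ = {x | ∀ j, ∃ m, x - t γ ∈ closure (F j m)}`, `inTile_iff`,
`exists_rs`.  `Ω` is uncountable: it is nonempty by the third part of `Tiling`, and a countable
nonempty set is the range of a sequence.  If `𝔠 ≤ #Ω` there is an injection of `Set ℕ` into `Ω`, so a
surjection `k : Ω → Set ℕ`, and `E = {(ξ, n) | n ∈ k ξ}` contradicts the second part. -/
theorem partition_of_tiling {Ω : Type} {F : ℕ → ℕ → Set ℝ} {t : Ω → ℝ} (h : Tiling Ω F t) :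
    ∃ B : Ω → Set ℝ, ℵ₀ < #Ω ∧ #Ω < 𝔠 ∧ (∀ γ, MeasurableSet (B γ)) ∧
      (∀ γ β, γ ≠ β → Disjoint (B γ) (B β)) ∧ ⋃ γ, B γ = Set.univ ∧
      ∀ γ β, ∃ s : ℝ, B β = (fun x => x + s) '' B γ := by
  classical
  obtain ⟨h1, h2, h3, h4⟩ := h
  have hmem : ∀ (γ : Ω) (z : ℤ) (b : Set ℕ), InTile F (t γ) z b ↔
      z + rs b ∈ {x : ℝ | ∀ j, ∃ m, x - t γ ∈ closure (F j m)} := fun γ z b => inTile_iff
  refine ⟨fun γ => {x | ∀ j, ∃ m, x - t γ ∈ closure (F j m)}, ?_, ?_, fun γ => ?_,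
    fun γ β hne => ?_, ?_, fun γ β => ⟨t β - t γ, ?_⟩⟩
  · by_contra hcon
    rw [not_lt, Cardinal.mk_le_aleph0_iff] at hcon
    obtain ⟨γ, -⟩ := h3 0 ∅
    have : Nonempty Ω := ⟨γ⟩
    obtain ⟨g, hg⟩ := exists_surjective_nat Ω
    exact h1 ⟨g, hg⟩
  · by_contra hcon
    rw [not_lt, ← Cardinal.mk_set_nat] at hcon
    obtain ⟨i⟩ := hcon
    refine h2 ⟨{k | k.2 ∈ Function.invFun i k.1}, fun x => ⟨i x, fun n => ?_⟩⟩
    change n ∈ x ↔ n ∈ Function.invFun i (i x)
    rw [Function.leftInverse_invFun i.injective x]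
  · have : {x | ∀ j, ∃ m, x - t γ ∈ closure (F j m)} =
        ⋂ j, ⋃ m, (fun x => x - t γ) ⁻¹' closure (F j m) := by
      ext x
      simp
    change MeasurableSet {x | ∀ j, ∃ m, x - t γ ∈ closure (F j m)}
    rw [this]
    refine MeasurableSet.iInter fun j => MeasurableSet.iUnion fun m => ?_
    exact (isClosed_closure.preimage (by fun_prop)).measurableSet
  · rw [Set.disjoint_left]
    intro x hx hx'
    obtain ⟨z, b, rfl⟩ := exists_rs x
    exact h4 z b γ β hne ⟨(hmem γ z b).2 hx, (hmem β z b).2 hx'⟩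
  · refine Set.eq_univ_of_forall fun x => ?_
    obtain ⟨z, b, rfl⟩ := exists_rs x
    obtain ⟨γ, hγ⟩ := h3 z b
    exact Set.mem_iUnion.2 ⟨γ, (hmem γ z b).1 hγ⟩
  · ext x
    constructor
    · intro hx
      refine ⟨x - (t β - t γ), fun j => ?_, by simp⟩
      obtain ⟨m, hm⟩ := hx j
      refine ⟨m, ?_⟩
      rwa [show x - (t β - t γ) - t γ = x - t β by ring]
    · rintro ⟨y, hy, rfl⟩ j
      obtain ⟨m, hm⟩ := hy j
      refine ⟨m, ?_⟩
      rwa [show y + (t β - t γ) - t β = y - t γ by ring]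

-- END L3

end Pool.Agent.Lib.MP_034dba_lc
end
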